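import Mathlib

set_option autoImplicit false

open scoped TensorProduct

noncomputable section

namespace Pool.Agent.H287Z.QG

section Formulas

variable {N : ℕ} {A B : Type} [Ring A] [StarRing A] [Algebra ℂ A] [Ring B] [StarRing B]
  [Algebra ℂ B]

/-- `u` and its conjugate `ū = (u_ij*)` are unitary. -/
def IsBiunitary (u : Matrix (Fin N) (Fin N) A) : Prop :=
  u ∈ unitary (Matrix (Fin N) (Fin N) A) ∧ u.map star ∈ unitary (Matrix (Fin N) (Fin N) A)

/-- Two *-homomorphisms have commuting ranges. -/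
def CommutingRanges (π₁ π₂ : A →⋆ₐ[ℂ] B) : Prop :=
  ∀ a b, π₁ a * π₂ b = π₂ b * π₁ a

/-- `Δ(u_ij) = ∑_k π₁(u_ik) π₂(u_kj)`. -/
def ComulFormula (u : Matrix (Fin N) (Fin N) A) (π₁ π₂ Δ : A →⋆ₐ[ℂ] B) : Prop :=
  ∀ i j, Δ (u i j) = ∑ k, π₁ (u i k) * π₂ (u k j)

/-- `ε(u_ij) = δ_ij` defines a *-homomorphism. -/
def HasCounit (u : Matrix (Fin N) (Fin N) A) : Prop :=
  ∃ ε : A →⋆ₐ[ℂ] ℂ, ∀ i j, ε (u i j) = if i = j then 1 else 0

/-- `S(u_ij) = u_ji*` defines a *-homomorphism into the opposite algebra. -/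
def HasAntipode (u : Matrix (Fin N) (Fin N) A) : Prop :=
  ∃ S : A →⋆ₐ[ℂ] Aᵐᵒᵖ, ∀ i j, S (u i j) = MulOpposite.op (star (u j i))

/-- The matrix `v = Q u Q*`. -/
def spun (u : Matrix (Fin N) (Fin N) A) (Q : Matrix.unitaryGroup (Fin N) ℂ) :
    Matrix (Fin N) (Fin N) A :=
  (Q : Matrix (Fin N) (Fin N) ℂ).map (algebraMap ℂ A) * u *
    (star (Q : Matrix (Fin N) (Fin N) ℂ)).map (algebraMap ℂ A)

end Formulas

section CStar

variable {N : ℕ} {A : Type} [CStarAlgebra A]

/-- The unital *-subalgebra of `C(G)` generated by the entries of `u`. -/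
def Pol (u : Matrix (Fin N) (Fin N) A) : StarSubalgebra ℂ A :=
  StarAlgebra.adjoin ℂ {a | ∃ i j, a = u i j}

/-- The formula for `Δ` defines a morphism of C*-algebras. This is asked for every pair of
*-homomorphisms with commuting ranges, that is, for the maximal tensor product, which gives it for
every C*-tensor product. -/
def HasComul (u : Matrix (Fin N) (Fin N) A) : Prop :=
  ∀ (B : Type) [CStarAlgebra B] (π₁ π₂ : A →⋆ₐ[ℂ] B), CommutingRanges π₁ π₂ →
    ∃ Δ : A →⋆ₐ[ℂ] B, ComulFormula u π₁ π₂ Δ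

/-- `(A, u)` is a closed subgroup of `U_N^+`: `u` and its conjugate are unitary, the entries of
`u` generate the C*-algebra `A`, and the formulas for `Δ`, `ε`, `S` define morphisms of
C*-algebras. -/
structure IsCMQG (u : Matrix (Fin N) (Fin N) A) : Prop where
  biunitary : IsBiunitary u
  dense : Dense (Pol u : Set A)
  comul : HasComul u
  counit : HasCounit u
  antipode : HasAntipode u

/-- The closed two-sided ideal of `A` generated by the `v i j`, `i ≠ j`. -/
def torusIdeal (u : Matrix (Fin N) (Fin N) A) (Q : Matrix.unitaryGroup (Fin N) ℂ) :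
    TwoSidedIdeal A :=
  sInf {I | IsClosed (I : Set A) ∧ ∀ i j, i ≠ j → spun u Q i j ∈ I}

/-- The quotient `C*(Γ_Q) = A / ⟨v i j = 0, i ≠ j⟩`. -/
abbrev TorusAlg (u : Matrix (Fin N) (Fin N) A) (Q : Matrix.unitaryGroup (Fin N) ℂ) : Type :=
  (torusIdeal u Q).ringCon.Quotient

/-- The quotient map `π_Q`. -/
def torusMap (u : Matrix (Fin N) (Fin N) A) (Q : Matrix.unitaryGroup (Fin N) ℂ) :
    A →ₐ[ℂ] TorusAlg u Q :=
  (torusIdeal u Q).ringCon.mkₐ ℂ

/-- The set of the images `g_1, …, g_N` of the `v i i`, as invertible elements of the quotient. -/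
def torusGen (u : Matrix (Fin N) (Fin N) A) (Q : Matrix.unitaryGroup (Fin N) ℂ) :
    Set (TorusAlg u Q)ˣ :=
  {g | ∃ i, (g : TorusAlg u Q) = torusMap u Q (spun u Q i i)}

/-- The discrete group `Γ_Q = ⟨g_1, …, g_N⟩`. -/
def Gamma (u : Matrix (Fin N) (Fin N) A) (Q : Matrix.unitaryGroup (Fin N) ℂ) :
    Subgroup (TorusAlg u Q)ˣ :=
  Subgroup.closure (torusGen u Q)

end CStar

section Hopf

variable {N : ℕ} {A : Type} [CStarAlgebra A]
variable {P : Type} [Ring P] [StarRing P] [Algebra ℂ P] [StarModule ℂ P]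

/-- `P` is the dense *-algebra `Pol(G)`: `j` maps it isomorphically onto the *-algebra generated
by the entries of `u`, and `w` is the matrix `u` over `P`. -/
def IsPol (u : Matrix (Fin N) (Fin N) A) (w : Matrix (Fin N) (Fin N) P) (j : P →⋆ₐ[ℂ] A) : Prop :=
  Function.Injective j ∧ Set.range j = (Pol u : Set A) ∧ w.map j = u

/-- `A = C_max(G)`: every *-homomorphism from `Pol(G)` to a C*-algebra extends to `A`. -/
def IsFull (j : P →⋆ₐ[ℂ] A) : Prop :=
  ∀ (B : Type) [CStarAlgebra B] (φ : P →⋆ₐ[ℂ] B), ∃ ψ : A →⋆ₐ[ℂ] B, ψ.comp j = φ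

/-- `Δ(r_ij) = ∑_k r_ik ⊗ r_kj`. For the fundamental matrix this says that `Δ` is the
comultiplication of the Hopf *-algebra `Pol(G)`. -/
def IsComul (Δ : P →⋆ₐ[ℂ] P ⊗[ℂ] P) {ι : Type} [Fintype ι] (r : Matrix ι ι P) : Prop :=
  ∀ i j, Δ (r i j) = ∑ k, r i k ⊗ₜ[ℂ] r k j

/-- `r` is a unitary corepresentation for the comultiplication `Δ`. -/
def IsCorep (Δ : P →⋆ₐ[ℂ] P ⊗[ℂ] P) {ι : Type} [Fintype ι] [DecidableEq ι]
    (r : Matrix ι ι P) : Prop :=
  r ∈ unitary (Matrix ι ι P) ∧ IsComul Δ r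

/-- The scalar matrix `T` intertwines `r` and `s`: `T r = s T`. -/
def Intertwines {ι κ : Type} [Fintype ι] [Fintype κ] (T : Matrix κ ι ℂ) (r : Matrix ι ι P)
    (s : Matrix κ κ P) : Prop :=
  T.map (algebraMap ℂ P) * r = s * T.map (algebraMap ℂ P)

/-- A finite-dimensional irreducible unitary corepresentation: the dimension is positive and the
only self-intertwiners are the scalars. -/
structure Irrep (Δ : P →⋆ₐ[ℂ] P ⊗[ℂ] P) where
  dim : ℕ
  mat : Matrix (Fin dim) (Fin dim) P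
  dim_pos : 0 < dim
  isCorep : IsCorep Δ mat
  irred : ∀ T : Matrix (Fin dim) (Fin dim) ℂ, Intertwines T mat mat → ∃ c : ℂ, T = c • 1

end Hopf

end Pool.Agent.H287Z.QG
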