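import Mathlib

set_option autoImplicit false
set_option linter.unusedSectionVars false

open scoped ENNReal

noncomputable section

namespace Pool.Agent.H287Z.QG

section
variable (𝒜 : Type) [Ring 𝒜] [StarRing 𝒜] [Algebra ℂ 𝒜] [StarModule ℂ 𝒜]

/-- a *-homomorphism into a nonzero C*-algebra -/
structure Rep : Type 1 where
  B : Type
  [inst : CStarAlgebra B]
  [nt : Nontrivial B]
  π : 𝒜 →⋆ₐ[ℂ] B

attribute [instance] Rep.inst Rep.nt

variable {𝒜}

theorem extend_starAlgHom {A B : Type} [CStarAlgebra A] [CStarAlgebra B] (ι : 𝒜 →⋆ₐ[ℂ] A)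
    (hd : DenseRange ι) (π : 𝒜 →⋆ₐ[ℂ] B) (hπ : ∀ a, ‖π a‖ ≤ ‖ι a‖) :
    ∃ ψ : A →⋆ₐ[ℂ] B, ∀ a, ψ (ι a) = π a := by
  let e : 𝒜 →ₗ[ℂ] A := ι.toAlgHom.toLinearMap
  let f : 𝒜 →ₗ[ℂ] B := π.toAlgHom.toLinearMap
  have hd' : DenseRange e := hd
  have hb : ∃ C : ℝ, ∀ x, ‖f x‖ ≤ C * ‖e x‖ := ⟨1, fun x => by rw [one_mul]; exact hπ x⟩
  let g : A →L[ℂ] B := f.extendOfNorm e
  have hg : ∀ a, g (ι a) = π a := fun a => LinearMap.extendOfNorm_eq hd' hb a
  have hmul : ∀ x y : A, g (x * y) = g x * g y := by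
    intro x y
    refine hd.induction_on₂ (p := fun x y => g (x * y) = g x * g y) ?_ ?_ x y
    · exact isClosed_eq (by fun_prop) (by fun_prop)
    · intro a b
      rw [← map_mul, hg, hg, hg, map_mul]
  have hstar : ∀ x : A, g (star x) = star (g x) := by
    intro x
    refine hd.induction_on (p := fun x => g (star x) = star (g x)) x ?_ ?_
    · exact isClosed_eq (by fun_prop) (by fun_prop)
    · intro a
      rw [← map_star, hg, hg, map_star]
  have hone : g 1 = 1 := by rw [← map_one ι, hg, map_one]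
  refine ⟨{ toFun := g, map_one' := hone, map_mul' := hmul, map_zero' := map_zero g,
            map_add' := map_add g, commutes' := ?_, map_star' := hstar }, hg⟩
  intro r
  rw [Algebra.algebraMap_eq_smul_one, map_smul, hone, Algebra.algebraMap_eq_smul_one]

/-- The enveloping C*-algebra. -/
theorem exists_env (ε : 𝒜 →⋆ₐ[ℂ] ℂ)
    (hb : ∀ a : 𝒜, ∃ C : ℝ, ∀ (B : Type) [CStarAlgebra B] (π : 𝒜 →⋆ₐ[ℂ] B), ‖π a‖ ≤ C) :
    ∃ (A : Type) (_ : CStarAlgebra A) (ι : 𝒜 →⋆ₐ[ℂ] A), DenseRange ι ∧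
      ∀ (B : Type) [CStarAlgebra B] (π : 𝒜 →⋆ₐ[ℂ] B), ∃ ψ : A →⋆ₐ[ℂ] B, ∀ a, ψ (ι a) = π a := by
  have hne : Nonempty (Rep 𝒜) := ⟨⟨ℂ, ε⟩⟩
  have hbdd : ∀ a : 𝒜, BddAbove (Set.range fun r : Rep 𝒜 => ‖r.π a‖) := by
    intro a
    obtain ⟨C, hC⟩ := hb a
    exact ⟨C, by rintro _ ⟨r, rfl⟩; exact hC r.B r.π⟩
  have hex : ∀ i : 𝒜 × ℕ, ∃ r : Rep 𝒜,
      (⨆ r : Rep 𝒜, ‖r.π i.1‖) - 1 / ((i.2 : ℝ) + 1) < ‖r.π i.1‖ := by
    intro i
    refine exists_lt_of_lt_ciSup ?_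
    have : (0 : ℝ) < 1 / ((i.2 : ℝ) + 1) := by positivity
    linarith
  choose r hr using hex
  let P : Type := lp (fun i : 𝒜 × ℕ => (r i).B) ∞
  let _ : CStarAlgebra P := { }
  let j : 𝒜 →⋆ₐ[ℂ] P :=
    { toFun := fun a => ⟨fun i => (r i).π a, memℓp_infty (by
        obtain ⟨C, hC⟩ := hb a
        exact ⟨C, by rintro _ ⟨i, rfl⟩; exact hC _ _⟩)⟩
      map_one' := by ext i; exact map_one (r i).π
      map_mul' := fun a b => by ext i; exact map_mul (r i).π a b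
      map_zero' := by ext i; exact map_zero (r i).π
      map_add' := fun a b => by ext i; exact map_add (r i).π a b
      commutes' := fun c => by ext i; exact (r i).π.commutes' c
      map_star' := fun a => by ext i; exact map_star (r i).π a }
  have hj : ∀ (a : 𝒜) (s : Rep 𝒜), ‖s.π a‖ ≤ ‖j a‖ := by
    intro a s
    refine (le_ciSup (hbdd a) s).trans ?_
    refine le_of_forall_pos_le_add fun δ hδ => ?_
    obtain ⟨n, hn⟩ := exists_nat_one_div_lt hδ
    have h1 := hr (a, n)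
    have h2 : ‖(r (a, n)).π a‖ ≤ ‖j a‖ := lp.norm_apply_le_norm ENNReal.top_ne_zero (j a) (a, n)
    simp only at h1
    linarith
  let S : StarSubalgebra ℂ P := (StarAlgHom.range j).topologicalClosure
  have hS : IsClosed (S : Set P) := StarSubalgebra.isClosed_topologicalClosure _
  let ι : 𝒜 →⋆ₐ[ℂ] S := j.codRestrict S fun a =>
    StarSubalgebra.le_topologicalClosure _ ⟨a, rfl⟩
  have hd : DenseRange ι := by
    rw [denseRange_iff_closure_range, Set.eq_univ_iff_forall]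
    intro x
    rw [Topology.IsEmbedding.subtypeVal.closure_eq_preimage_closure_image]
    have h1 : (Subtype.val '' Set.range ι : Set P) = (StarAlgHom.range j : Set P) := by
      ext y
      constructor
      · rintro ⟨_, ⟨a, rfl⟩, rfl⟩
        exact ⟨a, rfl⟩
      · rintro ⟨a, rfl⟩
        exact ⟨ι a, ⟨a, rfl⟩, rfl⟩
    rw [h1]
    exact x.2
  refine ⟨S, inferInstance, ι, hd, ?_⟩
  intro B _ π
  refine extend_starAlgHom ι hd π fun a => ?_
  rcases subsingleton_or_nontrivial B with hB | hB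
  · rw [Subsingleton.elim (π a) 0, norm_zero]
    exact norm_nonneg _
  · exact hj a ⟨B, π⟩

end

end Pool.Agent.H287Z.QG
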