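import Mathlib
import Pool.Agent.H287Z.QG.Defs
import Pool.Agent.H287Z.QG.Env

set_option autoImplicit false
set_option linter.unusedSectionVars false

open scoped TensorProduct

noncomputable section

namespace Pool.Agent.H287Z.QG

section
variable {𝒜 : Type} [Ring 𝒜] [StarRing 𝒜] [Algebra ℂ 𝒜] [StarModule ℂ 𝒜]

/-- algebraic data of a compact matrix quantum group of Kac type -/
structure AlgQG {n : Type} [Fintype n] [DecidableEq n] (u : Matrix n n 𝒜)
    (Δ : 𝒜 →⋆ₐ[ℂ] 𝒜 ⊗[ℂ] 𝒜) (ε : 𝒜 →⋆ₐ[ℂ] ℂ) (S : 𝒜 →⋆ₐ[ℂ] 𝒜ᵐᵒᵖ) : Prop where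
  unit : u ∈ unitary (Matrix n n 𝒜)
  gen : StarAlgebra.adjoin ℂ {a | ∃ i j, a = u i j} = ⊤
  hΔ : ∀ i j, Δ (u i j) = ∑ k, u i k ⊗ₜ[ℂ] u k j
  hε : ∀ i j, ε (u i j) = if i = j then 1 else 0
  hS : ∀ i j, S (u i j) = MulOpposite.op (star (u j i))

theorem mem_unitary_iff_sum {n : Type} [Fintype n] [DecidableEq n] {R : Type} [Ring R] [StarRing R]
    (u : Matrix n n R) : u ∈ unitary (Matrix n n R) ↔
      (∀ i j, ∑ k, star (u k i) * u k j = if i = j then 1 else 0) ∧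
      (∀ i j, ∑ k, u i k * star (u j k) = if i = j then 1 else 0) := by
  rw [Unitary.mem_iff, ← Matrix.ext_iff, ← Matrix.ext_iff]
  simp only [Matrix.mul_apply, Matrix.star_apply, Matrix.one_apply]

theorem map_mem_unitary {n : Type} [Fintype n] [DecidableEq n] {B : Type} [Ring B] [StarRing B]
    [Algebra ℂ B] {u : Matrix n n 𝒜} (hu : u ∈ unitary (Matrix n n 𝒜)) (π : 𝒜 →⋆ₐ[ℂ] B) :
    u.map π ∈ unitary (Matrix n n B) := by
  rw [mem_unitary_iff_sum] at hu ⊢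
  constructor
  · intro i j
    have := congrArg π (hu.1 i j)
    simpa [map_sum, map_mul, map_star, apply_ite π] using this
  · intro i j
    have := congrArg π (hu.2 i j)
    simpa [map_sum, map_mul, map_star, apply_ite π] using this

theorem norm_entry_le {n : Type} [Fintype n] [DecidableEq n] {B : Type} [CStarAlgebra B]
    {u : Matrix n n B} (hu : u ∈ unitary (Matrix n n B)) (i j : n) : ‖u i j‖ ≤ 1 := by
  let _ : PartialOrder B := CStarAlgebra.spectralOrder B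
  have _ : StarOrderedRing B := CStarAlgebra.spectralOrderedRing B
  have h := ((mem_unitary_iff_sum u).1 hu).1 j j
  rw [if_pos rfl] at h
  have h1 : star (u i j) * u i j ≤ 1 := by
    rw [← h]
    exact Finset.single_le_sum (f := fun k => star (u k j) * u k j)
      (fun k _ => star_mul_self_nonneg _) (Finset.mem_univ i)
  have h2 : ‖star (u i j) * u i j‖ ≤ 1 :=
    (CStarAlgebra.norm_le_one_iff_of_nonneg _ (star_mul_self_nonneg _)).2 h1
  rw [CStarRing.norm_star_mul_self] at h2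
  nlinarith [norm_nonneg (u i j)]

variable {n : Type} [Fintype n] [DecidableEq n] {u : Matrix n n 𝒜}
    {Δ : 𝒜 →⋆ₐ[ℂ] 𝒜 ⊗[ℂ] 𝒜} {ε : 𝒜 →⋆ₐ[ℂ] ℂ} {S : 𝒜 →⋆ₐ[ℂ] 𝒜ᵐᵒᵖ}

theorem AlgQG.conj_unit (h : AlgQG u Δ ε S) : u.map star ∈ unitary (Matrix n n 𝒜) := by
  have hu := (mem_unitary_iff_sum u).1 h.unit
  rw [mem_unitary_iff_sum]
  constructor
  · intro i j
    have h1 := congrArg (fun x => MulOpposite.unop (S x)) (hu.2 j i)
    simp only [map_sum, map_mul, map_star, h.hS, apply_ite S, map_one, map_zero,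
      Finset.unop_sum, MulOpposite.unop_mul, MulOpposite.unop_star, MulOpposite.unop_op,
      apply_ite MulOpposite.unop, MulOpposite.unop_one, MulOpposite.unop_zero] at h1
    simp only [Matrix.map_apply]
    rw [h1]
    simp only [eq_comm]
  · intro i j
    have h1 := congrArg (fun x => MulOpposite.unop (S x)) (hu.1 j i)
    simp only [map_sum, map_mul, map_star, h.hS, apply_ite S, map_one, map_zero,
      Finset.unop_sum, MulOpposite.unop_mul, MulOpposite.unop_star, MulOpposite.unop_op,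
      apply_ite MulOpposite.unop, MulOpposite.unop_one, MulOpposite.unop_zero] at h1
    simp only [Matrix.map_apply]
    rw [h1]
    simp only [eq_comm]

theorem AlgQG.reindex (h : AlgQG u Δ ε S) {m : Type} [Fintype m] [DecidableEq m] (e : m ≃ n) :
    AlgQG (u.submatrix e e) Δ ε S := by
  refine ⟨?_, ?_, ?_, ?_, ?_⟩
  · have hu := (mem_unitary_iff_sum u).1 h.unit
    rw [mem_unitary_iff_sum]
    constructor
    · intro i j
      simp only [Matrix.submatrix_apply]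
      rw [e.sum_comp (fun k => star (u k (e i)) * u k (e j)), hu.1]
      simp
    · intro i j
      simp only [Matrix.submatrix_apply]
      rw [e.sum_comp (fun k => u (e i) k * star (u (e j) k)), hu.2]
      simp
  · rw [← h.gen]
    congr 1
    ext a
    constructor
    · rintro ⟨i, j, rfl⟩
      exact ⟨e i, e j, rfl⟩
    · rintro ⟨i, j, rfl⟩
      exact ⟨e.symm i, e.symm j, by simp⟩
  · intro i j
    simp only [Matrix.submatrix_apply]
    rw [h.hΔ, e.sum_comp (fun k => u (e i) k ⊗ₜ[ℂ] u k (e j))]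
  · intro i j
    simp only [Matrix.submatrix_apply]
    rw [h.hε]
    simp
  · intro i j
    simp only [Matrix.submatrix_apply]
    rw [h.hS]

theorem AlgQG.induction (h : AlgQG u Δ ε S) {p : 𝒜 → Prop} (h1 : ∀ i j, p (u i j))
    (h2 : ∀ c : ℂ, p (algebraMap ℂ 𝒜 c)) (h3 : ∀ x y, p x → p y → p (x + y))
    (h4 : ∀ x y, p x → p y → p (x * y)) (h5 : ∀ x, p x → p (star x)) (a : 𝒜) : p a := by
  have ha : a ∈ StarAlgebra.adjoin ℂ {a | ∃ i j, a = u i j} := by rw [h.gen]; trivial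
  induction ha using StarAlgebra.adjoin_induction with
  | mem x hx => obtain ⟨i, j, rfl⟩ := hx; exact h1 i j
  | algebraMap r => exact h2 r
  | add x y _ _ hx hy => exact h3 x y hx hy
  | mul x y _ _ hx hy => exact h4 x y hx hy
  | star x _ hx => exact h5 x hx

theorem AlgQG.bounded (h : AlgQG u Δ ε S) (a : 𝒜) :
    ∃ C : ℝ, ∀ (B : Type) [CStarAlgebra B] (π : 𝒜 →⋆ₐ[ℂ] B), ‖π a‖ ≤ C := by
  refine h.induction (p := fun a => ∃ C : ℝ, ∀ (B : Type) [CStarAlgebra B]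
    (π : 𝒜 →⋆ₐ[ℂ] B), ‖π a‖ ≤ C) ?_ ?_ ?_ ?_ ?_ a
  · intro i j
    exact ⟨1, fun B _ π => norm_entry_le (map_mem_unitary h.unit π) i j⟩
  · intro c
    refine ⟨‖c‖, fun B _ π => ?_⟩
    rw [AlgHomClass.commutes, Algebra.algebraMap_eq_smul_one, norm_smul]
    rcases subsingleton_or_nontrivial B with hB | hB
    · rw [Subsingleton.elim (1 : B) 0, norm_zero, mul_zero]; exact norm_nonneg _
    · rw [norm_one, mul_one]
  · rintro x y ⟨C, hC⟩ ⟨D, hD⟩
    exact ⟨C + D, fun B _ π => by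
      rw [map_add]; exact (norm_add_le _ _).trans (add_le_add (hC B π) (hD B π))⟩
  · rintro x y ⟨C, hC⟩ ⟨D, hD⟩
    exact ⟨C * D, fun B _ π => by
      rw [map_mul]
      exact (norm_mul_le _ _).trans
        (mul_le_mul (hC B π) (hD B π) (norm_nonneg _) ((norm_nonneg _).trans (hC B π)))⟩
  · rintro x ⟨C, hC⟩
    exact ⟨C, fun B _ π => by rw [map_star, norm_star]; exact hC B π⟩

/-- the *-homomorphism on the algebraic tensor product given by two commuting ones -/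
def tlift {B : Type} [Ring B] [StarRing B] [Algebra ℂ B] [StarModule ℂ B] (π₁ π₂ : 𝒜 →⋆ₐ[ℂ] B)
    (hc : ∀ a b, π₁ a * π₂ b = π₂ b * π₁ a) : 𝒜 ⊗[ℂ] 𝒜 →⋆ₐ[ℂ] B :=
  { Algebra.TensorProduct.lift π₁.toAlgHom π₂.toAlgHom hc with
    map_star' := by
      intro x
      induction x with
      | zero => simp
      | add x y hx hy =>
        simp only [star_add, AlgHom.toRingHom_eq_coe, RingHom.toMonoidHom_eq_coe,
          OneHom.toFun_eq_coe, MonoidHom.toOneHom_coe, MonoidHom.coe_coe, RingHom.coe_coe,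
          map_add] at hx hy ⊢
        rw [hx, hy]
      | tmul a b =>
        show Algebra.TensorProduct.lift π₁.toAlgHom π₂.toAlgHom hc (star a ⊗ₜ star b) =
          star (Algebra.TensorProduct.lift π₁.toAlgHom π₂.toAlgHom hc (a ⊗ₜ b))
        rw [Algebra.TensorProduct.lift_tmul, Algebra.TensorProduct.lift_tmul]
        show π₁ (star a) * π₂ (star b) = star (π₁ a * π₂ b)
        rw [star_mul, hc, map_star, map_star] }

theorem tlift_tmul {B : Type} [Ring B] [StarRing B] [Algebra ℂ B] [StarModule ℂ B]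
    (π₁ π₂ : 𝒜 →⋆ₐ[ℂ] B) (hc : ∀ a b, π₁ a * π₂ b = π₂ b * π₁ a) (a b : 𝒜) :
    tlift π₁ π₂ hc (a ⊗ₜ b) = π₁ a * π₂ b :=
  Algebra.TensorProduct.lift_tmul π₁.toAlgHom π₂.toAlgHom hc a b

/-- the opposite of a *-homomorphism -/
def opHom {B : Type} [Ring B] [StarRing B] [Algebra ℂ B] (π : 𝒜 →⋆ₐ[ℂ] B) :
    𝒜ᵐᵒᵖ →⋆ₐ[ℂ] Bᵐᵒᵖ :=
  { AlgHom.op π.toAlgHom with
    map_star' := fun x => by
      show MulOpposite.op (π (star x.unop)) = MulOpposite.op (star (π x.unop))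
      rw [map_star] }

theorem opHom_op {B : Type} [Ring B] [StarRing B] [Algebra ℂ B] (π : 𝒜 →⋆ₐ[ℂ] B) (a : 𝒜) :
    opHom π (MulOpposite.op a) = MulOpposite.op (π a) := rfl

end

/-- The entry `u i j` as an element of `Pol(G)`. -/
def ent {N : ℕ} {A : Type} [CStarAlgebra A] (u : Matrix (Fin N) (Fin N) A) :
    Matrix (Fin N) (Fin N) (Pol u) :=
  fun i j => ⟨u i j, StarAlgebra.subset_adjoin ℂ _ ⟨i, j, rfl⟩⟩

theorem isPol_ent {N : ℕ} {A : Type} [CStarAlgebra A] (u : Matrix (Fin N) (Fin N) A) :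
    IsPol u (ent u) (Pol u).subtype :=
  ⟨Subtype.val_injective, Subtype.range_coe, rfl⟩

theorem IsFull.ext {N : ℕ} {A : Type} [CStarAlgebra A] {u : Matrix (Fin N) (Fin N) A}
    (h : IsFull (Pol u).subtype) (B : Type) [CStarAlgebra B] (φ : Pol u →⋆ₐ[ℂ] B) :
    ∃ ψ : A →⋆ₐ[ℂ] B, ∀ a : Pol u, ψ a = φ a := by
  obtain ⟨ψ, hψ⟩ := h B φ
  exact ⟨ψ, fun a => by rw [← hψ]; rfl⟩

theorem package {𝒜 : Type} [Ring 𝒜] [StarRing 𝒜] [Algebra ℂ 𝒜] [StarModule ℂ 𝒜] {N : ℕ}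
    {u : Matrix (Fin N) (Fin N) 𝒜}
    {Δ : 𝒜 →⋆ₐ[ℂ] 𝒜 ⊗[ℂ] 𝒜} {ε : 𝒜 →⋆ₐ[ℂ] ℂ} {S : 𝒜 →⋆ₐ[ℂ] 𝒜ᵐᵒᵖ} (h : AlgQG u Δ ε S)
    {B₀ : Type} [CStarAlgebra B₀] (lam : 𝒜 →⋆ₐ[ℂ] B₀) (hinj : Function.Injective lam) :
    ∃ (A : Type) (_ : CStarAlgebra A) (U : Matrix (Fin N) (Fin N) A) (e : 𝒜 ≃⋆ₐ[ℂ] Pol U),
      (∀ i j, e (u i j) = ent U i j) ∧ IsCMQG U ∧ IsFull (Pol U).subtype := by
  obtain ⟨A, _, ι, hd, huniv⟩ := exists_env ε h.bounded
  have hι : Function.Injective ι := by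
    obtain ⟨ψ, hψ⟩ := huniv B₀ lam
    intro a b hab
    apply hinj
    rw [← hψ, ← hψ, hab]
  have hPol : Pol (u.map ι) = StarAlgHom.range ι := by
    apply le_antisymm
    · refine StarAlgebra.adjoin_le ?_
      rintro _ ⟨i, j, rfl⟩
      exact ⟨u i j, rfl⟩
    · rintro _ ⟨a, rfl⟩
      refine h.induction (p := fun a => ι a ∈ Pol (u.map ι)) ?_ ?_ ?_ ?_ ?_ a
      · intro i j
        exact StarAlgebra.subset_adjoin ℂ _ ⟨i, j, rfl⟩
      · intro c
        rw [AlgHomClass.commutes]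
        exact algebraMap_mem _ c
      · intro x y hx hy
        rw [map_add]; exact add_mem hx hy
      · intro x y hx hy
        rw [map_mul]; exact mul_mem hx hy
      · intro x hx
        rw [map_star]; exact star_mem hx
  have hmem : ∀ a, ι a ∈ Pol (u.map ι) := fun a => by rw [hPol]; exact ⟨a, rfl⟩
  let f : 𝒜 →⋆ₐ[ℂ] Pol (u.map ι) := ι.codRestrict _ hmem
  have hf : Function.Bijective f := by
    constructor
    · intro a b hab
      exact hι (congrArg Subtype.val hab)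
    · rintro ⟨x, hx⟩
      rw [hPol] at hx
      obtain ⟨a, rfl⟩ := hx
      exact ⟨a, rfl⟩
  let e : 𝒜 ≃⋆ₐ[ℂ] Pol (u.map ι) := StarAlgEquiv.ofBijective f hf
  refine ⟨A, inferInstance, u.map ι, e, fun i j => rfl, ⟨⟨?_, ?_⟩, ?_, ?_, ?_, ?_⟩, ?_⟩
  · exact map_mem_unitary h.unit ι
  · have := map_mem_unitary h.conj_unit ι
    have h2 : (u.map star).map ι = (u.map ι).map star := by
      ext i j
      simp [map_star]
    rwa [h2] at this
  · rw [hPol]
    exact hd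
  · intro B _ π₁ π₂ hc
    obtain ⟨ψ, hψ⟩ := huniv B ((tlift (π₁.comp ι) (π₂.comp ι) fun a b => hc _ _).comp Δ)
    refine ⟨ψ, fun i j => ?_⟩
    rw [Matrix.map_apply, hψ, StarAlgHom.comp_apply, h.hΔ, map_sum]
    refine Finset.sum_congr rfl fun k _ => ?_
    rw [tlift_tmul]
    rfl
  · obtain ⟨ψ, hψ⟩ := huniv ℂ ε
    exact ⟨ψ, fun i j => by rw [Matrix.map_apply, hψ, h.hε]⟩
  · obtain ⟨ψ, hψ⟩ := huniv Aᵐᵒᵖ ((opHom ι).comp S)
    refine ⟨ψ, fun i j => ?_⟩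
    rw [Matrix.map_apply, hψ, StarAlgHom.comp_apply, h.hS, opHom_op, map_star]
    rfl
  · intro B _ φ
    obtain ⟨ψ, hψ⟩ := huniv B (φ.comp f)
    refine ⟨ψ, StarAlgHom.ext fun a => ?_⟩
    obtain ⟨x, rfl⟩ := hf.2 a
    exact hψ x

end Pool.Agent.H287Z.QG
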