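import Mathlib
import Pool.Agent.H287Z.QG.Package

set_option autoImplicit false
set_option linter.unusedSectionVars false
set_option linter.unusedSimpArgs false

open scoped TensorProduct

noncomputable section

namespace Pool.Agent.H287Z.QG

variable {𝒜 : Type} [Ring 𝒜] [StarRing 𝒜] [Algebra ℂ 𝒜] [StarModule ℂ 𝒜]

/-- `𝒜` is the group *-algebra of `Γ`, with basis `L`. -/
structure GroupAlg {Γ : Type} [Group Γ] (L : Γ →* 𝒜) : Prop where
  star_eq : ∀ g, star (L g) = L g⁻¹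
  span : Submodule.span ℂ (Set.range L) = ⊤
  li : LinearIndependent ℂ L

section
variable {Γ : Type} [Group Γ] {L : Γ →* 𝒜}

theorem GroupAlg.induction (h : GroupAlg L) {p : 𝒜 → Prop} (h1 : ∀ g, p (L g)) (h0 : p 0)
    (h2 : ∀ x y, p x → p y → p (x + y)) (h3 : ∀ (c : ℂ) x, p x → p (c • x)) (a : 𝒜) : p a := by
  have ha : a ∈ Submodule.span ℂ (Set.range L) := by rw [h.span]; trivial
  induction ha using Submodule.span_induction with
  | mem x hx => obtain ⟨g, rfl⟩ := hx; exact h1 g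
  | zero => exact h0
  | add x y _ _ hx hy => exact h2 x y hx hy
  | smul c x _ hx => exact h3 c x hx

theorem GroupAlg.exists_linear (h : GroupAlg L) {C : Type} [AddCommGroup C] [Module ℂ C]
    (φ : Γ → C) : ∃ Φ : 𝒜 →ₗ[ℂ] C, ∀ g, Φ (L g) = φ g := by
  let b : Module.Basis Γ ℂ 𝒜 := Module.Basis.mk h.li h.span.ge
  refine ⟨b.constr ℂ φ, fun g => ?_⟩
  have : L g = b g := by simp [b]
  rw [this, Module.Basis.constr_basis]

theorem GroupAlg.exists_lift (h : GroupAlg L) {C : Type} [Ring C] [StarRing C] [Algebra ℂ C]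
    [StarModule ℂ C] (φ : Γ →* C) (hφ : ∀ g, star (φ g) = φ g⁻¹) :
    ∃ Φ : 𝒜 →⋆ₐ[ℂ] C, ∀ g, Φ (L g) = φ g := by
  obtain ⟨Φ, hΦ⟩ := h.exists_linear φ
  have hone : Φ 1 = 1 := by rw [← map_one L, hΦ, map_one]
  have hmul : ∀ x y, Φ (x * y) = Φ x * Φ y := by
    intro x y
    refine h.induction (p := fun x => Φ (x * y) = Φ x * Φ y) ?_ (by simp) ?_ ?_ x
    · intro g
      refine h.induction (p := fun y => Φ (L g * y) = Φ (L g) * Φ y) ?_ (by simp) ?_ ?_ y
      · intro k
        rw [← map_mul, hΦ, hΦ, hΦ, map_mul]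
      · intro x y hx hy
        rw [mul_add, map_add, map_add, hx, hy, mul_add]
      · intro c x hx
        rw [mul_smul_comm, map_smul, map_smul, hx, mul_smul_comm]
    · intro x z hx hz
      rw [add_mul, map_add, map_add, hx, hz, add_mul]
    · intro c x hx
      rw [smul_mul_assoc, map_smul, map_smul, hx, smul_mul_assoc]
  have hstar : ∀ x, Φ (star x) = star (Φ x) := by
    intro x
    refine h.induction (p := fun x => Φ (star x) = star (Φ x)) ?_ (by simp) ?_ ?_ x
    · intro g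
      rw [h.star_eq, hΦ, hΦ, hφ]
    · intro x y hx hy
      rw [star_add, map_add, map_add, hx, hy, star_add]
    · intro c x hx
      rw [star_smul, map_smul, map_smul, hx, star_smul]
  refine ⟨{ toFun := Φ, map_one' := hone, map_mul' := hmul, map_zero' := map_zero Φ,
            map_add' := map_add Φ, commutes' := ?_, map_star' := hstar }, hΦ⟩
  intro r
  rw [Algebra.algebraMap_eq_smul_one, map_smul, hone, Algebra.algebraMap_eq_smul_one]

theorem GroupAlg.map (h : GroupAlg L) {C : Type} [Ring C] [StarRing C] [Algebra ℂ C]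
    [StarModule ℂ C] (e : 𝒜 ≃⋆ₐ[ℂ] C) :
    GroupAlg ((e.toAlgEquiv.toAlgHom.toRingHom.toMonoidHom).comp L) := by
  refine ⟨?_, ?_, ?_⟩
  · intro g
    show star (e (L g)) = e (L g⁻¹)
    rw [← map_star, h.star_eq]
  · rw [eq_top_iff]
    intro y _
    obtain ⟨x, rfl⟩ := e.surjective y
    refine h.induction (p := fun x => e x ∈ Submodule.span ℂ
      (Set.range ((e.toAlgEquiv.toAlgHom.toRingHom.toMonoidHom).comp L))) ?_ ?_ ?_ ?_ x
    · intro g
      exact Submodule.subset_span ⟨g, rfl⟩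
    · rw [map_zero]; exact zero_mem _
    · intro x y hx hy
      rw [map_add]; exact add_mem hx hy
    · intro c x hx
      rw [map_smul]; exact Submodule.smul_mem _ c hx
  · exact h.li.map' e.toAlgEquiv.toLinearEquiv.toLinearMap e.toAlgEquiv.toLinearEquiv.ker

end

/-- conjugation by a self-adjoint involution -/
def conjHom (J : 𝒜) (h1 : J * J = 1) (h2 : star J = J) : 𝒜 →⋆ₐ[ℂ] 𝒜 where
  toFun x := J * x * J
  map_one' := by rw [mul_one, h1]
  map_mul' x y := by
    calc J * (x * y) * J = J * x * (J * J) * y * J := by rw [h1]; simp only [mul_assoc, one_mul]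
      _ = J * x * J * (J * y * J) := by simp only [mul_assoc]
  map_zero' := by simp
  map_add' x y := by rw [mul_add, add_mul]
  commutes' r := by
    rw [Algebra.algebraMap_eq_smul_one, mul_smul_comm, smul_mul_assoc, mul_one, h1]
  map_star' x := by rw [star_mul, star_mul, h2, mul_assoc]

theorem conjHom_apply (J : 𝒜) (h1 : J * J = 1) (h2 : star J = J) (x : 𝒜) :
    conjHom J h1 h2 x = J * x * J := rfl

/-- two commuting self-adjoint involutions -/
structure Klein (α β : 𝒜) : Prop where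
  aa : α * α = 1
  bb : β * β = 1
  ba : β * α = α * β
  sa : star α = α
  sb : star β = β

def Wm (α β : 𝒜) : Matrix (Fin 2) (Fin 2) 𝒜 :=
  !![(1 / 2 : ℂ) • (1 + α), (1 / 2 : ℂ) • (β - α * β);
     (1 / 2 : ℂ) • (1 - α), (1 / 2 : ℂ) • (β + α * β)]

def Jm (α β : 𝒜) : 𝒜 ⊗[ℂ] 𝒜 :=
  (1 / 2 : ℂ) • ((1 : 𝒜) ⊗ₜ[ℂ] (1 : 𝒜) + β ⊗ₜ[ℂ] (1 : 𝒜) + (1 : 𝒜) ⊗ₜ[ℂ] α - β ⊗ₜ[ℂ] α)

def Qm (α β : 𝒜) : 𝒜 := (1 / 2 : ℂ) • (1 + β + α - α * β)

namespace Klein

variable {α β : 𝒜} (h : Klein α β)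
include h

theorem aa' (x : 𝒜) : α * (α * x) = x := by rw [← mul_assoc, h.aa, one_mul]
theorem bb' (x : 𝒜) : β * (β * x) = x := by rw [← mul_assoc, h.bb, one_mul]
theorem ba' (x : 𝒜) : β * (α * x) = α * (β * x) := by rw [← mul_assoc, h.ba, mul_assoc]

theorem star_W (i j : Fin 2) : star (Wm α β i j) = Wm α β i j := by
  fin_cases i <;> fin_cases j <;>
    simp [Wm, star_smul, star_mul, h.sa, h.sb, h.ba]

theorem W_row (i j : Fin 2) : ∑ k, Wm α β i k * Wm α β j k = if i = j then 1 else 0 := by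
  fin_cases i <;> fin_cases j <;>
    simp [Wm, Fin.sum_univ_two, mul_add, add_mul, mul_sub, sub_mul, mul_assoc, h.aa, h.bb, h.ba,
      h.aa', h.bb', h.ba'] <;> module

theorem W_col (i j : Fin 2) : ∑ k, Wm α β k i * Wm α β k j = if i = j then 1 else 0 := by
  fin_cases i <;> fin_cases j <;>
    simp [Wm, Fin.sum_univ_two, mul_add, add_mul, mul_sub, sub_mul, mul_assoc, h.aa, h.bb, h.ba,
      h.aa', h.bb', h.ba'] <;> module

theorem J_sq : Jm α β * Jm α β = 1 := by
  simp only [Jm, mul_add, add_mul, mul_sub, sub_mul, smul_mul_assoc, mul_smul_comm,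
    Algebra.TensorProduct.tmul_mul_tmul, one_mul, mul_one, h.aa, h.bb,
    Algebra.TensorProduct.one_def]
  module

theorem star_J : star (Jm α β) = Jm α β := by
  simp [Jm, star_smul, h.sa, h.sb]

theorem Q_sq : Qm α β * Qm α β = 1 := by
  simp only [Qm, mul_add, add_mul, mul_sub, sub_mul, smul_mul_assoc, mul_smul_comm,
    one_mul, mul_one, mul_assoc, h.aa, h.bb, h.ba, h.aa', h.bb', h.ba']
  module

theorem star_Q : star (Qm α β) = Qm α β := by
  simp [Qm, star_smul, star_mul, h.sa, h.sb, h.ba]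

theorem Q_W (i j : Fin 2) : Qm α β * Wm α β i j = Wm α β j i := by
  fin_cases i <;> fin_cases j <;>
    simp [Wm, Qm, mul_add, add_mul, mul_sub, sub_mul, mul_assoc, h.aa, h.bb, h.ba,
      h.aa', h.bb', h.ba'] <;> module

theorem W_Q (i j : Fin 2) : Wm α β i j * Qm α β = Wm α β j i := by
  fin_cases i <;> fin_cases j <;>
    simp [Wm, Qm, mul_add, add_mul, mul_sub, sub_mul, mul_assoc, h.aa, h.bb, h.ba,
      h.aa', h.bb', h.ba'] <;> module

theorem J_W (D : 𝒜 →⋆ₐ[ℂ] 𝒜 ⊗[ℂ] 𝒜) (ha : D α = α ⊗ₜ α) (hb : D β = β ⊗ₜ β) (i j : Fin 2) :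
    Jm α β * D (Wm α β i j) = ∑ m, Wm α β i m ⊗ₜ[ℂ] Wm α β m j := by
  fin_cases i <;> fin_cases j <;>
    simp [Wm, Jm, Fin.sum_univ_two, ha, hb, mul_add, add_mul, mul_sub, sub_mul, mul_assoc, h.aa,
      h.bb, h.ba, h.aa', h.bb', h.ba', Algebra.TensorProduct.one_def, TensorProduct.tmul_add,
      TensorProduct.add_tmul, TensorProduct.tmul_sub, TensorProduct.sub_tmul,
      TensorProduct.smul_tmul', TensorProduct.tmul_smul, ← TensorProduct.smul_tmul'] <;> module

theorem W_J (D : 𝒜 →⋆ₐ[ℂ] 𝒜 ⊗[ℂ] 𝒜) (ha : D α = α ⊗ₜ α) (hb : D β = β ⊗ₜ β) (i j : Fin 2) :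
    D (Wm α β i j) * Jm α β = ∑ m, Wm α β i m ⊗ₜ[ℂ] Wm α β m j := by
  fin_cases i <;> fin_cases j <;>
    simp [Wm, Jm, Fin.sum_univ_two, ha, hb, mul_add, add_mul, mul_sub, sub_mul, mul_assoc, h.aa,
      h.bb, h.ba, h.aa', h.bb', h.ba', Algebra.TensorProduct.one_def, TensorProduct.tmul_add,
      TensorProduct.add_tmul, TensorProduct.tmul_sub, TensorProduct.sub_tmul,
      TensorProduct.smul_tmul', TensorProduct.tmul_smul, ← TensorProduct.smul_tmul'] <;> module

theorem S_W (S : 𝒜 →⋆ₐ[ℂ] 𝒜ᵐᵒᵖ) (ha : S α = MulOpposite.op α) (hb : S β = MulOpposite.op β)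
    (i j : Fin 2) : S (Wm α β i j) = MulOpposite.op (Wm α β i j) := by
  have hab : S (α * β) = MulOpposite.op (α * β) := by
    rw [map_mul, ha, hb, ← MulOpposite.op_mul, h.ba]
  fin_cases i <;> fin_cases j <;> simp [Wm, -map_mul, ha, hb, hab]

omit h in
theorem eps_W (ε : 𝒜 →⋆ₐ[ℂ] ℂ) (ha : ε α = 1) (hb : ε β = 1)
    (i j : Fin 2) : ε (Wm α β i j) = if i = j then 1 else 0 := by
  fin_cases i <;> fin_cases j <;> simp [Wm, ha, hb] <;> norm_num

end Klein

/-- the fundamental corepresentation -/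
def Um (α β γ : 𝒜) : Matrix (Fin 2 × Fin 2) (Fin 2 × Fin 2) 𝒜 :=
  fun p q => Wm α β p.1 q.1 * γ * Wm α β p.2 q.2

theorem Um_unitary {α β γ : 𝒜} (h : Klein α β) (hγ : γ * γ = 1) (hs : star γ = γ) :
    Um α β γ ∈ unitary (Matrix (Fin 2 × Fin 2) (Fin 2 × Fin 2) 𝒜) := by
  rw [mem_unitary_iff_sum]
  constructor
  · rintro ⟨i, k⟩ ⟨j, l⟩
    rw [Fintype.sum_prod_type_right]
    have h1 : ∀ n : Fin 2, ∑ m : Fin 2, star (Um α β γ (m, n) (i, k)) * Um α β γ (m, n) (j, l)
        = if i = j then Wm α β n k * Wm α β n l else 0 := by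
      intro n
      have : ∀ m : Fin 2, star (Um α β γ (m, n) (i, k)) * Um α β γ (m, n) (j, l) =
          Wm α β n k * γ * (Wm α β m i * Wm α β m j) * γ * Wm α β n l := by
        intro m
        simp only [Um, star_mul, h.star_W, hs, mul_assoc]
      simp only [this]
      rw [← Finset.sum_mul, ← Finset.sum_mul, ← Finset.mul_sum, h.W_col]
      split_ifs
      · rw [mul_one, mul_assoc (Wm α β n k), hγ, mul_one]
      · simp
    simp only [h1]
    by_cases hij : i = j
    · simp only [hij, if_true, h.W_col, Prod.mk.injEq, true_and]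
    · simp [hij]
  · rintro ⟨i, k⟩ ⟨j, l⟩
    rw [Fintype.sum_prod_type]
    have h1 : ∀ m : Fin 2, ∑ n : Fin 2, Um α β γ (i, k) (m, n) * star (Um α β γ (j, l) (m, n))
        = if k = l then Wm α β i m * Wm α β j m else 0 := by
      intro m
      have : ∀ n : Fin 2, Um α β γ (i, k) (m, n) * star (Um α β γ (j, l) (m, n)) =
          Wm α β i m * γ * (Wm α β k n * Wm α β l n) * γ * Wm α β j m := by
        intro n
        simp only [Um, star_mul, h.star_W, hs, mul_assoc]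
      simp only [this]
      rw [← Finset.sum_mul, ← Finset.sum_mul, ← Finset.mul_sum, h.W_row]
      split_ifs
      · rw [mul_one, mul_assoc (Wm α β i m), hγ, mul_one]
      · simp
    simp only [h1]
    by_cases hkl : k = l
    · simp only [hkl, if_true, h.W_row, Prod.mk.injEq, and_true]
    · simp [hkl]

end Pool.Agent.H287Z.QG
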