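import Mathlib
import Pool.Agent.H287Z.QG.Twist

set_option autoImplicit false
set_option linter.unusedSectionVars false
set_option linter.unusedSimpArgs false

open scoped TensorProduct InnerProductSpace ComplexConjugate

noncomputable section

namespace Pool.Agent.H287Z.QG

/-- The Hilbert space `ℓ²(G)`. -/
abbrev E2 (G : Type) : Type := lp (fun _ : G => ℂ) 2

/-- The operator `f ↦ f ∘ e` on `ℓ²(G)` given by a bijection `e` of `G`. -/
def permOp {G : Type} (e : G ≃ G) : E2 G →L[ℂ] E2 G :=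
  LinearIsometry.toContinuousLinearMap
    { toFun := fun f => ⟨fun h => f (e h), by
        have h1 := (lp.memℓp f).summable (by norm_num)
        refine memℓp_gen ?_
        exact (e.summable_iff (f := fun h => ‖f h‖ ^ (2 : ENNReal).toReal)).2 h1⟩
      map_add' := fun f g => by ext h; rfl
      map_smul' := fun c f => by ext h; rfl
      norm_map' := fun f => by
        have h1 : (0 : ℝ) < (2 : ENNReal).toReal := by norm_num
        rw [lp.norm_eq_tsum_rpow h1, lp.norm_eq_tsum_rpow h1]
        congr 1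
        exact e.tsum_eq (fun h => ‖f h‖ ^ (2 : ENNReal).toReal) }

section
variable {G : Type}

theorem permOp_apply (e : G ≃ G) (f : E2 G) (h : G) : (permOp e f) h = f (e h) := rfl

theorem star_permOp (e : G ≃ G) : star (permOp e) = permOp e.symm := by
  rw [ContinuousLinearMap.star_eq_adjoint]
  symm
  rw [ContinuousLinearMap.eq_adjoint_iff]
  intro x y
  have h1 := lp.hasSum_inner (𝕜 := ℂ) (permOp e.symm x) y
  have h2 := lp.hasSum_inner (𝕜 := ℂ) x (permOp e y)
  have h3 := (e.symm.hasSum_iff (f := fun i => ⟪x i, (permOp e y) i⟫_ℂ)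
    (a := ⟪x, permOp e y⟫_ℂ)).2 h2
  refine h1.unique ?_
  refine h3.congr_fun ?_
  intro i
  show ⟪(permOp e.symm x) i, y i⟫_ℂ = ⟪x (e.symm i), (permOp e y) (e.symm i)⟫_ℂ
  rw [permOp_apply, permOp_apply, e.apply_symm_apply]

theorem memℓp_mul (f : G → ℂ) (C : ℝ) (hf : ∀ x, ‖f x‖ ≤ C) (ξ : E2 G) :
    Memℓp (fun x => f x * ξ x) 2 := by
  refine ((lp.memℓp ξ).const_smul (C : ℂ)).mono' ?_
  intro x
  have h0 : 0 ≤ C := (norm_nonneg _).trans (hf x)
  simp only [Pi.smul_apply, smul_eq_mul, norm_mul, Complex.norm_real, Real.norm_eq_abs,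
    abs_of_nonneg h0]
  exact mul_le_mul_of_nonneg_right (hf x) (norm_nonneg _)

/-- multiplication by a bounded function -/
def mulOp (f : G → ℂ) (C : ℝ) (hf : ∀ x, ‖f x‖ ≤ C) : E2 G →L[ℂ] E2 G :=
  LinearMap.mkContinuous
    { toFun := fun ξ => ⟨fun x => f x * ξ x, memℓp_mul f C hf ξ⟩
      map_add' := fun ξ η => by ext x; exact mul_add _ _ _
      map_smul' := fun c ξ => by
        ext x
        show f x * (c * ξ x) = c * (f x * ξ x)
        ring } |C| (by
    intro ξ
    have h1 : ‖((C : ℂ) • ξ : E2 G)‖ = |C| * ‖ξ‖ := by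
      rw [norm_smul, Complex.norm_real, Real.norm_eq_abs]
    rw [← h1]
    refine lp.norm_mono (by norm_num) fun x => ?_
    have h0 : 0 ≤ C := (norm_nonneg _).trans (hf x)
    show ‖f x * ξ x‖ ≤ ‖(C : ℂ) * ξ x‖
    simp only [norm_mul, Complex.norm_real, Real.norm_eq_abs, abs_of_nonneg h0]
    exact mul_le_mul_of_nonneg_right (hf x) (norm_nonneg _))

theorem mulOp_apply (f : G → ℂ) (C : ℝ) (hf : ∀ x, ‖f x‖ ≤ C) (ξ : E2 G) (x : G) :
    (mulOp f C hf ξ) x = f x * ξ x := rfl

theorem star_mulOp (f : G → ℂ) (C : ℝ) (hf : ∀ x, ‖f x‖ ≤ C) (g : G → ℂ) (D : ℝ)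
    (hg : ∀ x, ‖g x‖ ≤ D) (h : ∀ x, g x = conj (f x)) : star (mulOp f C hf) = mulOp g D hg := by
  rw [ContinuousLinearMap.star_eq_adjoint]
  symm
  rw [ContinuousLinearMap.eq_adjoint_iff]
  intro x y
  rw [lp.inner_eq_tsum, lp.inner_eq_tsum]
  refine tsum_congr fun i => ?_
  rw [mulOp_apply, mulOp_apply, h]
  simp only [RCLike.inner_apply, map_mul, Complex.conj_conj]
  ring

open Classical in
/-- the projection onto `ℓ²(S)` -/
def projOp (S : Set G) : E2 G →L[ℂ] E2 G :=
  mulOp (fun x => if x ∈ S then 1 else 0) 1 (fun x => by split_ifs <;> simp)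

open Classical in
theorem projOp_apply (S : Set G) (ξ : E2 G) (x : G) :
    (projOp S ξ) x = (if x ∈ S then 1 else 0) * ξ x := rfl

theorem star_projOp (S : Set G) : star (projOp S) = projOp S :=
  star_mulOp _ _ _ _ _ _ fun x => by split_ifs <;> simp

theorem projOp_mul_self (S : Set G) : projOp S * projOp S = projOp S := by
  ext ξ x
  show (projOp S (projOp S ξ)) x = (projOp S ξ) x
  rw [projOp_apply, projOp_apply]
  split_ifs <;> simp

theorem projOp_mul_of_disjoint {S T : Set G} (h : Disjoint S T) : projOp S * projOp T = 0 := by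
  ext ξ x
  show (projOp S (projOp T ξ)) x = 0
  rw [projOp_apply, projOp_apply]
  by_cases h1 : x ∈ S
  · rw [if_neg (Set.disjoint_left.1 h h1)]
    simp
  · rw [if_neg h1, zero_mul]

open Classical in
/-- the basis vector -/
def dirac (g : G) : E2 G := lp.single 2 g (1 : ℂ)

open Classical in
theorem dirac_apply (g h : G) : dirac g h = if h = g then 1 else 0 := by
  unfold dirac
  rw [lp.single_apply, Pi.single_apply]

theorem inner_dirac (g : G) (ξ : E2 G) : ⟪dirac g, ξ⟫_ℂ = ξ g := by
  classical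
  unfold dirac
  rw [lp.inner_single_left]
  simp

end

theorem norm_sq_le_of_sum {B : Type} [CStarAlgebra B] {n : ℕ} (x : Fin n → B)
    (h1 : ∀ i j, i ≠ j → star (x i) * x j = 0) (h2 : ∀ i, ‖x i‖ ≤ 1) : ‖∑ i, x i‖ ^ 2 ≤ n := by
  rw [sq, ← CStarRing.norm_star_mul_self, star_sum, Finset.sum_mul]
  refine (norm_sum_le _ _).trans ?_
  have : ∀ i, ‖star (x i) * ∑ j, x j‖ ≤ 1 := by
    intro i
    rw [Finset.mul_sum, Finset.sum_eq_single i (fun j _ hj => h1 i j hj.symm) (by simp),
      CStarRing.norm_star_mul_self]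
    nlinarith [h2 i, norm_nonneg (x i)]
  calc ∑ i, ‖star (x i) * ∑ j, x j‖ ≤ ∑ _i : Fin n, (1 : ℝ) := Finset.sum_le_sum fun i _ => this i
    _ = n := by simp

theorem norm_proj_le {B : Type} [CStarAlgebra B] {P : B} (h1 : star P = P) (h2 : P * P = P) :
    ‖P‖ ≤ 1 := by
  have h : ‖P‖ * ‖P‖ = ‖P‖ := by rw [← CStarRing.norm_star_mul_self, h1, h2]
  nlinarith [norm_nonneg P]

section
variable (G : Type) [Group G]

/-- the left regular representation -/
def lam : G →* (E2 G →L[ℂ] E2 G) where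
  toFun g := permOp (Equiv.mulLeft g⁻¹)
  map_one' := by
    ext f h
    show f ((1 : G)⁻¹ * h) = f h
    rw [inv_one, one_mul]
  map_mul' g g' := by
    ext f h
    show f ((g * g')⁻¹ * h) = f (g'⁻¹ * (g⁻¹ * h))
    rw [mul_inv_rev, mul_assoc]

variable {G}

theorem lam_apply (g : G) (f : E2 G) (h : G) : (lam G g f) h = f (g⁻¹ * h) := rfl

theorem star_lam (g : G) : star (lam G g) = lam G g⁻¹ := by
  show star (permOp (Equiv.mulLeft g⁻¹)) = permOp (Equiv.mulLeft g⁻¹⁻¹)
  rw [star_permOp, Equiv.mulLeft_symm]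

theorem norm_lam_le (g : G) : ‖lam G g‖ ≤ 1 := by
  have h : ‖lam G g‖ * ‖lam G g‖ ≤ 1 := by
    rw [← CStarRing.norm_star_mul_self, star_lam, ← map_mul, inv_mul_cancel, map_one]
    exact ContinuousLinearMap.norm_id_le
  nlinarith [norm_nonneg (lam G g)]

theorem norm_sum_lam_le {n : ℕ} (g : Fin n → G) (W : Fin n → Set G)
    (hW : ∀ i j, i ≠ j → Disjoint (W i) (W j))
    (hR : ∀ i j, i ≠ j → Disjoint {k | g i * k ∉ W i} {k | g j * k ∉ W j}) :
    ‖∑ i, lam G (g i)‖ ≤ 2 * Real.sqrt n := by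
  have hsplit : ∀ i, lam G (g i) =
      projOp (W i) * lam G (g i) + lam G (g i) * projOp {k | g i * k ∉ W i} := by
    intro i
    ext ξ x
    show (lam G (g i) ξ) x = (projOp (W i) (lam G (g i) ξ)) x +
      (lam G (g i) (projOp {k | g i * k ∉ W i} ξ)) x
    rw [projOp_apply, lam_apply, lam_apply, projOp_apply]
    by_cases hx : x ∈ W i <;> simp [hx]
  have h1 : ‖∑ i, projOp (W i) * lam G (g i)‖ ^ 2 ≤ n := by
    refine norm_sq_le_of_sum _ ?_ ?_
    · intro i j hij
      rw [star_mul, star_projOp, mul_assoc, ← mul_assoc (projOp (W i)),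
        projOp_mul_of_disjoint (hW i j hij), zero_mul, mul_zero]
    · intro i
      exact (norm_mul_le _ _).trans (mul_le_one₀ (norm_proj_le (star_projOp _)
        (projOp_mul_self _)) (norm_nonneg _) (norm_lam_le _))
  have h2 : ‖∑ i, lam G (g i) * projOp {k | g i * k ∉ W i}‖ ^ 2 ≤ n := by
    rw [← norm_star, star_sum]
    refine norm_sq_le_of_sum _ ?_ ?_
    · intro i j hij
      rw [star_star, star_mul, star_projOp, mul_assoc, ← mul_assoc (projOp _),
        projOp_mul_of_disjoint (hR i j hij), zero_mul, mul_zero]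
    · intro i
      rw [norm_star]
      exact (norm_mul_le _ _).trans (mul_le_one₀ (norm_lam_le _) (norm_nonneg _)
        (norm_proj_le (star_projOp _) (projOp_mul_self _)))
  rw [Finset.sum_congr rfl fun i _ => hsplit i, Finset.sum_add_distrib]
  refine (norm_add_le _ _).trans ?_
  have e1 := Real.le_sqrt_of_sq_le h1
  have e2 := Real.le_sqrt_of_sq_le h2
  linarith

theorem linearIndependent_lam : LinearIndependent ℂ (lam G) := by
  classical
  rw [linearIndependent_iff']
  intro s c hs g hg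
  have h0 : ∀ (x y : E2 G →L[ℂ] E2 G), ((x + y) (dirac 1)) g = (x (dirac 1)) g + (y (dirac 1)) g :=
    fun x y => rfl
  let φ : (E2 G →L[ℂ] E2 G) →ₗ[ℂ] ℂ :=
    { toFun := fun x => (x (dirac 1)) g
      map_add' := fun x y => rfl
      map_smul' := fun c x => rfl }
  have hφ : ∀ k, φ (lam G k) = if k = g then 1 else 0 := by
    intro k
    show (lam G k (dirac 1)) g = _
    rw [lam_apply, dirac_apply]
    simp only [inv_mul_eq_one]
  have h1 := congrArg φ hs
  rw [map_sum, map_zero] at h1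
  simp only [map_smul, hφ, smul_eq_mul, mul_ite, mul_one, mul_zero, Finset.sum_ite_eq', hg,
    if_true] at h1
  exact h1

end

section
variable {G : Type} [Group G] {B : Type} [Ring B] [StarRing B] [Algebra ℂ B] [StarModule ℂ B]

/-- the *-algebra generated by a unitary representation -/
def GA (φ : G →* B) : StarSubalgebra ℂ B := StarAlgebra.adjoin ℂ (Set.range φ)

/-- the canonical basis of the group algebra -/
def LG (φ : G →* B) : G →* GA φ where
  toFun g := ⟨φ g, StarAlgebra.subset_adjoin ℂ _ ⟨g, rfl⟩⟩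
  map_one' := Subtype.ext (map_one φ)
  map_mul' g h := Subtype.ext (map_mul φ g h)

theorem groupAlg_LG (φ : G →* B) (hs : ∀ g, star (φ g) = φ g⁻¹) (hli : LinearIndependent ℂ φ) :
    GroupAlg (LG φ) := by
  have hstar : ∀ g, star (LG φ g) = LG φ g⁻¹ := fun g => Subtype.ext (hs g)
  refine ⟨hstar, ?_, ?_⟩
  · rw [eq_top_iff]
    rintro ⟨x, hx⟩ -
    set V := Submodule.span ℂ (Set.range (LG φ)) with hV
    have hmul : ∀ x ∈ V, ∀ y ∈ V, x * y ∈ V := by
      intro x hx y hy
      have : V * V ≤ V := by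
        rw [hV, Submodule.span_mul_span, Submodule.span_le]
        rintro _ ⟨_, ⟨g, rfl⟩, _, ⟨h, rfl⟩, rfl⟩
        exact Submodule.subset_span ⟨g * h, map_mul _ _ _⟩
      exact this (Submodule.mul_mem_mul hx hy)
    have hst : ∀ z ∈ V, star z ∈ V := by
      intro z hz
      induction hz using Submodule.span_induction with
      | mem x hx =>
        obtain ⟨g, rfl⟩ := hx
        rw [hstar]; exact Submodule.subset_span ⟨_, rfl⟩
      | zero => rw [star_zero]; exact zero_mem _
      | add x y _ _ hx hy => rw [star_add]; exact add_mem hx hy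
      | smul c x _ hx => rw [star_smul]; exact V.smul_mem _ hx
    induction hx using StarAlgebra.adjoin_induction with
    | mem x hx => obtain ⟨g, rfl⟩ := hx; exact Submodule.subset_span ⟨g, rfl⟩
    | algebraMap r =>
      have : (1 : GA φ) ∈ V := Submodule.subset_span ⟨1, map_one _⟩
      have h2 := V.smul_mem r this
      rw [← Algebra.algebraMap_eq_smul_one] at h2
      exact h2
    | add x y _ _ hx hy => exact add_mem hx hy
    | mul x y _ _ hx hy => exact hmul _ hx _ hy
    | star x hx' hx => exact hst ⟨x, hx'⟩ hx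
  · exact LinearIndependent.of_comp (GA φ).subtype.toAlgHom.toLinearMap hli

end

end Pool.Agent.H287Z.QG
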