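import Mathlib
import Pool.Agent.H287Z.QG.Package

set_option autoImplicit false
set_option linter.unusedSectionVars false
set_option linter.unusedSimpArgs false

open scoped TensorProduct

noncomputable section

namespace Pool.Agent.H287Z.QG

/-- group-like vectors are linearly independent -/
theorem linearIndepOn_grouplike {V : Type} [AddCommGroup V] [Module ℂ V] (D : V →ₗ[ℂ] V ⊗[ℂ] V) :
    LinearIndepOn ℂ id {x : V | D x = x ⊗ₜ x ∧ x ≠ 0} := by
  classical
  unfold LinearIndepOn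
  rw [linearIndependent_iff']
  intro s
  induction s using Finset.induction_on with
  | empty => intro g _ i hi; exact absurd hi (Finset.notMem_empty _)
  | insert a s ha ih =>
    intro g hg
    have hs : ∀ i ∈ s, g i = 0 := by
      intro i hi
      have hne : (i : V) - a ≠ 0 := by
        rw [sub_ne_zero]
        intro h
        exact ha (Subtype.ext h ▸ hi)
      obtain ⟨φ, hφ⟩ : ∃ φ : Module.Dual ℂ V, φ ((i : V) - a) ≠ 0 := by
        by_contra h
        push Not at h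
        exact hne ((Module.forall_dual_apply_eq_zero_iff ℂ _).1 h)
      let T : V →ₗ[ℂ] V := (TensorProduct.lid ℂ V).toLinearMap ∘ₗ
        TensorProduct.map φ LinearMap.id ∘ₗ D
      have hT : ∀ x : {x : V | D x = x ⊗ₜ x ∧ x ≠ 0}, T x = φ x • (x : V) := by
        intro x
        simp only [T, LinearMap.comp_apply, x.2.1, TensorProduct.map_tmul, LinearMap.id_apply,
          LinearEquiv.coe_coe, TensorProduct.lid_tmul]
      have h1 := congrArg T hg
      rw [map_sum, map_zero] at h1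
      simp only [map_smul, id, hT] at h1 hg
      rw [Finset.sum_insert ha] at h1 hg
      have h2 : ∑ j ∈ s, (g j * (φ j - φ a)) • (j : V) = 0 := by
        have h3 : ∑ j ∈ s, (g j * (φ j - φ a)) • (j : V) =
            (g a • φ a • (a : V) + ∑ j ∈ s, g j • φ j • (j : V)) -
              φ a • (g a • (a : V) + ∑ j ∈ s, g j • (j : V)) := by
          rw [smul_add, Finset.smul_sum, smul_comm (φ a) (g a), add_sub_add_left_eq_sub,
            ← Finset.sum_sub_distrib]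
          refine Finset.sum_congr rfl fun j _ => ?_
          rw [smul_smul, smul_smul, ← sub_smul]
          congr 1
          ring
        rw [h3, h1, hg, smul_zero, sub_zero]
      have h4 := ih (fun j => g j * (φ j - φ a)) h2 i hi
      rw [map_sub] at hφ
      exact (mul_eq_zero.1 h4).resolve_right hφ
    intro i hi
    rcases Finset.mem_insert.1 hi with rfl | hi
    · rw [Finset.sum_insert ha, Finset.sum_eq_zero (fun j hj => by rw [hs j hj, zero_smul]),
        add_zero] at hg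
      exact (smul_eq_zero.1 hg).resolve_right i.2.2
    · exact hs i hi

theorem exists_delta {V : Type} [AddCommGroup V] [Module ℂ V] {S : Set V}
    (h : LinearIndepOn ℂ id S) {y : V} (hy : y ∈ S) :
    ∃ φ : V →ₗ[ℂ] ℂ, φ y = 1 ∧ ∀ x ∈ S, x ≠ y → φ x = 0 := by
  have h1 := h.notMem_span hy
  obtain ⟨f, hf, hf'⟩ := Submodule.exists_dual_map_eq_bot_of_notMem h1 inferInstance
  refine ⟨(f y)⁻¹ • f, ?_, ?_⟩
  · rw [LinearMap.smul_apply, smul_eq_mul]
    exact inv_mul_cancel₀ hf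
  · intro x hx hxy
    have : f x ∈ Submodule.map f (Submodule.span ℂ (id '' (S \ {y}))) :=
      Submodule.mem_map_of_mem (Submodule.subset_span ⟨x, ⟨hx, hxy⟩, rfl⟩)
    rw [hf', Submodule.mem_bot] at this
    rw [LinearMap.smul_apply, this, smul_zero]

variable {𝒜 : Type} [Ring 𝒜] [StarRing 𝒜] [Algebra ℂ 𝒜] [StarModule ℂ 𝒜]
variable {n : Type} [Fintype n] [DecidableEq n] {u : Matrix n n 𝒜}
    {Δ : 𝒜 →⋆ₐ[ℂ] 𝒜 ⊗[ℂ] 𝒜} {ε : 𝒜 →⋆ₐ[ℂ] ℂ} {S : 𝒜 →⋆ₐ[ℂ] 𝒜ᵐᵒᵖ}

/-- scalar matrices as matrices over an algebra -/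
def sc (R : Type) [Ring R] [Algebra ℂ R] {ι κ : Type} (T : Matrix ι κ ℂ) : Matrix ι κ R :=
  T.map (algebraMap ℂ R)

theorem sc_mul (R : Type) [Ring R] [Algebra ℂ R] {ι κ μ : Type} [Fintype κ] (T : Matrix ι κ ℂ)
    (T' : Matrix κ μ ℂ) : sc R (T * T') = sc R T * sc R T' := Matrix.map_mul

theorem sc_one (R : Type) [Ring R] [Algebra ℂ R] {ι : Type} [DecidableEq ι] :
    sc R (1 : Matrix ι ι ℂ) = 1 := Matrix.map_one _ (map_zero _) (map_one _)

theorem sc_conjTranspose {ι κ : Type} (T : Matrix ι κ ℂ) :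
    (sc 𝒜 T).conjTranspose = sc 𝒜 T.conjTranspose := by
  ext i j
  simp only [sc, Matrix.conjTranspose_apply, Matrix.map_apply]
  rw [algebraMap_star_comm]

theorem map_sc {R R' : Type} [Ring R] [Algebra ℂ R] [Ring R'] [Algebra ℂ R'] (f : R →ₐ[ℂ] R')
    {ι κ : Type} (T : Matrix ι κ ℂ) : (sc R T).map f = sc R' T := by
  ext i j
  simp [sc]

theorem sc_mul_apply {R : Type} [Ring R] [Algebra ℂ R] {ι κ μ ν : Type} [Fintype κ] [Fintype μ]
    (T : Matrix ι κ ℂ) (w : Matrix κ μ R) (T' : Matrix μ ν ℂ) (i : ι) (j : ν) :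
    (sc R T * w * sc R T') i j = ∑ k, ∑ l, (T i k * T' l j) • w k l := by
  simp only [Matrix.mul_apply, sc, Matrix.map_apply, Finset.sum_mul]
  rw [Finset.sum_comm]
  refine Finset.sum_congr rfl fun k _ => Finset.sum_congr rfl fun l _ => ?_
  rw [← Algebra.smul_def, ← Algebra.commutes, ← Algebra.smul_def, smul_smul, mul_comm]

theorem corep_iff {ι : Type} [Fintype ι] (w : Matrix ι ι 𝒜) :
    (∀ i j, Δ (w i j) = ∑ k, w i k ⊗ₜ[ℂ] w k j) ↔
      w.map Δ.toAlgHom = w.map (Algebra.TensorProduct.includeLeft : 𝒜 →ₐ[ℂ] 𝒜 ⊗[ℂ] 𝒜) *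
        w.map (Algebra.TensorProduct.includeRight : 𝒜 →ₐ[ℂ] 𝒜 ⊗[ℂ] 𝒜) := by
  rw [← Matrix.ext_iff]
  simp [Matrix.mul_apply]

theorem map_mul_alg {R R' : Type} [Ring R] [Algebra ℂ R] [Ring R'] [Algebra ℂ R'] (f : R →ₐ[ℂ] R')
    {ι κ μ : Type} [Fintype κ] (x : Matrix ι κ R) (y : Matrix κ μ R) :
    (x * y).map f = x.map f * y.map f := by
  ext i j
  simp [Matrix.mul_apply, map_sum]

/-- compression of a corepresentation by an isometry whose range projection is an intertwiner -/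
theorem IsCorep.compress {ι κ : Type} [Fintype ι] [DecidableEq ι] [Fintype κ] [DecidableEq κ]
    {w : Matrix ι ι 𝒜} (hw : IsCorep Δ w) (T : Matrix ι κ ℂ) (hT : T.conjTranspose * T = 1)
    (hP : sc 𝒜 (T * T.conjTranspose) * w = w * sc 𝒜 (T * T.conjTranspose)) :
    IsCorep Δ (sc 𝒜 T.conjTranspose * w * sc 𝒜 T) ∧
      sc 𝒜 T * (sc 𝒜 T.conjTranspose * w * sc 𝒜 T) = w * sc 𝒜 T := by
  have hT' : ∀ (R : Type) [Ring R] [Algebra ℂ R], sc R T.conjTranspose * sc R T = 1 := by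
    intro R _ _
    rw [← sc_mul, hT, sc_one]
  have key : ∀ (R : Type) [Ring R] [Algebra ℂ R] (f : 𝒜 →ₐ[ℂ] R),
      sc R T * (sc R T.conjTranspose * w.map f * sc R T) = w.map f * sc R T := by
    intro R _ _ f
    have h1 := congrArg (fun x => x.map f) hP
    simp only [map_mul_alg, map_sc, sc_mul] at h1
    calc sc R T * (sc R T.conjTranspose * w.map f * sc R T)
        = (sc R T * sc R T.conjTranspose * w.map f) * sc R T := by simp only [Matrix.mul_assoc]
      _ = w.map f * sc R T * (sc R T.conjTranspose * sc R T) := by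
          rw [h1]; simp only [Matrix.mul_assoc]
      _ = _ := by rw [hT', Matrix.mul_one]
  have key0 : sc 𝒜 T * (sc 𝒜 T.conjTranspose * w * sc 𝒜 T) = w * sc 𝒜 T := by
    simpa using key 𝒜 (AlgHom.id ℂ 𝒜)
  refine ⟨⟨?_, ?_⟩, key0⟩
  · obtain ⟨h1, h2⟩ := Unitary.mem_iff.1 hw.1
    have hs : star (sc 𝒜 T.conjTranspose * w * sc 𝒜 T) =
        sc 𝒜 T.conjTranspose * star w * sc 𝒜 T := by
      rw [Matrix.star_eq_conjTranspose, Matrix.conjTranspose_mul, Matrix.conjTranspose_mul,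
        sc_conjTranspose, sc_conjTranspose, Matrix.conjTranspose_conjTranspose,
        Matrix.star_eq_conjTranspose, Matrix.mul_assoc]
    rw [Unitary.mem_iff, hs]
    constructor
    · calc sc 𝒜 T.conjTranspose * star w * sc 𝒜 T * (sc 𝒜 T.conjTranspose * w * sc 𝒜 T)
          = sc 𝒜 T.conjTranspose * star w * (sc 𝒜 T * (sc 𝒜 T.conjTranspose * w * sc 𝒜 T)) := by
            simp only [Matrix.mul_assoc]
        _ = sc 𝒜 T.conjTranspose * (star w * w) * sc 𝒜 T := by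
            rw [key0]; simp only [Matrix.mul_assoc]
        _ = 1 := by rw [h1, Matrix.mul_one, hT']
    · rw [sc_mul] at hP
      calc sc 𝒜 T.conjTranspose * w * sc 𝒜 T * (sc 𝒜 T.conjTranspose * star w * sc 𝒜 T)
          = sc 𝒜 T.conjTranspose * (w * (sc 𝒜 T * sc 𝒜 T.conjTranspose)) * star w * sc 𝒜 T := by
            simp only [Matrix.mul_assoc]
        _ = (sc 𝒜 T.conjTranspose * sc 𝒜 T) * sc 𝒜 T.conjTranspose * (w * star w) * sc 𝒜 T := by
            rw [← hP]; simp only [Matrix.mul_assoc]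
        _ = 1 := by rw [h2, hT', Matrix.one_mul, Matrix.mul_one, hT']
  · have h := (corep_iff w).1 hw.2
    unfold IsComul
    rw [corep_iff]
    simp only [map_mul_alg, map_sc, h]
    have := key _ (Algebra.TensorProduct.includeRight : 𝒜 →ₐ[ℂ] 𝒜 ⊗[ℂ] 𝒜)
    simp only [Matrix.mul_assoc] at this ⊢
    rw [this]

theorem AlgQG.spin (h : AlgQG u Δ ε S) (Q : Matrix.unitaryGroup n ℂ) :
    AlgQG (sc 𝒜 (Q : Matrix n n ℂ) * u * sc 𝒜 (star (Q : Matrix n n ℂ))) Δ ε S := by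
  have hQ1 : (Q : Matrix n n ℂ) * star (Q : Matrix n n ℂ) = 1 := (Unitary.mem_iff.1 Q.2).2
  have hQ2 : star (Q : Matrix n n ℂ) * (Q : Matrix n n ℂ) = 1 := (Unitary.mem_iff.1 Q.2).1
  have hc := IsCorep.compress (Δ := Δ) ⟨h.unit, h.hΔ⟩ (star (Q : Matrix n n ℂ))
    (by rw [← Matrix.star_eq_conjTranspose, star_star, hQ1])
    (by rw [← Matrix.star_eq_conjTranspose, star_star, hQ2, sc_one, Matrix.one_mul,
      Matrix.mul_one])
  rw [← Matrix.star_eq_conjTranspose, star_star] at hc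
  refine ⟨hc.1.1, ?_, hc.1.2, ?_, ?_⟩
  · rw [eq_top_iff, ← h.gen]
    refine StarAlgebra.adjoin_le ?_
    rintro _ ⟨i, j, rfl⟩
    have h1 : u = sc 𝒜 (star (Q : Matrix n n ℂ)) *
        (sc 𝒜 (Q : Matrix n n ℂ) * u * sc 𝒜 (star (Q : Matrix n n ℂ))) *
        sc 𝒜 (Q : Matrix n n ℂ) := by
      rw [hc.2, Matrix.mul_assoc, ← sc_mul, hQ2, sc_one, Matrix.mul_one]
    have h2 := congrFun (congrFun h1 i) j
    rw [h2, sc_mul_apply]
    refine sum_mem fun k _ => sum_mem fun l _ => ?_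
    exact SMulMemClass.smul_mem _ (StarAlgebra.subset_adjoin ℂ _ ⟨k, l, rfl⟩)
  · intro i j
    rw [sc_mul_apply]
    simp only [map_sum, map_smul, h.hε, smul_eq_mul, mul_ite, mul_one, mul_zero,
      Finset.sum_ite_eq, Finset.mem_univ, if_true]
    rw [← Matrix.mul_apply, hQ1, Matrix.one_apply]
  · intro i j
    rw [sc_mul_apply, sc_mul_apply, Finset.sum_comm]
    simp only [map_sum, map_smul, h.hS, star_sum, star_smul, Finset.op_sum, MulOpposite.op_smul,
      Matrix.star_apply, star_mul', star_star]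
    refine Finset.sum_congr rfl fun k _ => Finset.sum_congr rfl fun l _ => ?_
    rw [mul_comm]

theorem diag_facts {B : Type} [Ring B] [Algebra ℂ B] (hu : u ∈ unitary (Matrix n n 𝒜))
    (π : 𝒜 →ₐ[ℂ] B) (hπ : ∀ i j, i ≠ j → π (u i j) = 0) :
    (∀ i, π (u i i) * π (star (u i i)) = 1) ∧ (∀ i, π (star (u i i)) * π (u i i) = 1) ∧
      ∀ i j, i ≠ j → π (star (u i j)) = 0 := by
  obtain ⟨h1, h2⟩ := (mem_unitary_iff_sum u).1 hu
  have a1 : ∀ i j, π (u i i) * π (star (u j i)) = if i = j then 1 else 0 := by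
    intro i j
    have := congrArg π (h2 i j)
    rw [map_sum, Finset.sum_eq_single i, map_mul, apply_ite π, map_one, map_zero] at this
    · exact this
    · intro k _ hk
      rw [map_mul, hπ i k hk.symm, zero_mul]
    · simp
  have a2 : ∀ i, π (star (u i i)) * π (u i i) = 1 := by
    intro i
    have := congrArg π (h1 i i)
    rw [map_sum, Finset.sum_eq_single i, map_mul, if_pos rfl, map_one] at this
    · exact this
    · intro k _ hk
      rw [map_mul, hπ k i hk, mul_zero]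
    · simp
  refine ⟨fun i => by simpa using a1 i i, a2, fun i j hij => ?_⟩
  have := a1 j i
  rw [if_neg hij.symm] at this
  calc π (star (u i j)) = π (star (u j j)) * (π (u j j) * π (star (u i j))) := by
        rw [← mul_assoc, a2, one_mul]
    _ = 0 := by rw [this, mul_zero]

/-- The universal diagonal quotient. -/
theorem AlgQG.exists_torus (h : AlgQG u Δ ε S) :
    ∃ (H : Type) (_ : Ring H) (_ : Algebra ℂ H) (p : 𝒜 →ₐ[ℂ] H) (D : H →ₐ[ℂ] H ⊗[ℂ] H)
      (η : H →ₐ[ℂ] ℂ), Function.Surjective p ∧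
      (∀ a, D (p a) = Algebra.TensorProduct.map p p (Δ a)) ∧ (∀ a, η (p a) = ε a) ∧
      (∀ x, Algebra.TensorProduct.comm ℂ H H (D x) = D x) ∧
      (∀ i, D (p (u i i)) = p (u i i) ⊗ₜ p (u i i)) ∧
      (∀ i, D (p (star (u i i))) = p (star (u i i)) ⊗ₜ p (star (u i i))) ∧
      ∀ (B : Type) [Ring B] [Algebra ℂ B] (π : 𝒜 →ₐ[ℂ] B), (∀ i j, i ≠ j → π (u i j) = 0) →
        ∃ π' : H →ₐ[ℂ] B, ∀ a, π' (p a) = π a := by
  let I : TwoSidedIdeal 𝒜 := TwoSidedIdeal.span {a | ∃ i j, i ≠ j ∧ a = u i j}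
  let p : 𝒜 →ₐ[ℂ] I.ringCon.Quotient := I.ringCon.mkₐ ℂ
  have hsurj : Function.Surjective p := RingCon.mkₐ_surjective _
  have huniv : ∀ (B : Type) [Ring B] [Algebra ℂ B] (π : 𝒜 →ₐ[ℂ] B),
      (∀ i j, i ≠ j → π (u i j) = 0) → ∃ π' : I.ringCon.Quotient →ₐ[ℂ] B, ∀ a, π' (p a) = π a := by
    intro B _ _ π hπ
    have hle : I ≤ TwoSidedIdeal.ker π := by
      rw [TwoSidedIdeal.span_le]
      rintro _ ⟨i, j, hij, rfl⟩
      exact (TwoSidedIdeal.mem_ker _).2 (hπ i j hij)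
    refine ⟨I.ringCon.liftₐ π ?_, fun a => rfl⟩
    intro x y hxy
    have h1 : x - y ∈ I := (I.rel_iff x y).1 hxy
    have h2 := (TwoSidedIdeal.mem_ker _).1 (hle h1)
    rw [map_sub, sub_eq_zero] at h2
    exact h2
  have hp0 : ∀ i j, i ≠ j → p (u i j) = 0 := by
    intro i j hij
    have h1 : u i j ∈ I := TwoSidedIdeal.subset_span ⟨i, j, hij, rfl⟩
    rw [← map_zero p]
    exact (RingCon.eq _).2 h1
  obtain ⟨-, -, hp1⟩ := diag_facts h.unit p hp0
  let D₀ : 𝒜 →ₐ[ℂ] _ := (Algebra.TensorProduct.map p p).comp Δ.toAlgHom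
  have hD₀ : ∀ a, D₀ a = Algebra.TensorProduct.map p p (Δ a) := fun a => rfl
  have e1 : ∀ i j, D₀ (u i j) = p (u i i) ⊗ₜ p (u i j) := by
    intro i j
    rw [hD₀, h.hΔ, map_sum, Finset.sum_eq_single i]
    · simp
    · intro k _ hk
      simp [hp0 i k hk.symm]
    · simp
  have e2 : ∀ i j, D₀ (star (u i j)) = p (star (u i i)) ⊗ₜ p (star (u i j)) := by
    intro i j
    rw [hD₀, map_star, h.hΔ, star_sum, map_sum, Finset.sum_eq_single i]
    · simp
    · intro k _ hk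
      simp [hp1 i k hk.symm]
    · simp
  obtain ⟨D, hD⟩ := huniv _ D₀ (fun i j hij => by rw [e1, hp0 i j hij, TensorProduct.tmul_zero])
  obtain ⟨η, hη⟩ := huniv ℂ ε.toAlgHom (fun i j hij => by
    show ε (u i j) = 0
    rw [h.hε, if_neg hij])
  refine ⟨I.ringCon.Quotient, inferInstance, inferInstance, p, D, η, hsurj, fun a => hD a,
    fun a => hη a, ?_, fun i => by rw [hD, e1], fun i => by rw [hD, e2], huniv⟩
  intro x
  obtain ⟨a, rfl⟩ := hsurj x
  rw [hD]
  refine (h.induction (p := fun a => Algebra.TensorProduct.comm ℂ _ _ (D₀ a) = D₀ a ∧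
    Algebra.TensorProduct.comm ℂ _ _ (D₀ (star a)) = D₀ (star a)) ?_ ?_ ?_ ?_ ?_ a).1
  · intro i j
    by_cases hij : i = j
    · subst hij
      rw [e1, e2]
      simp
    · rw [e1, e2, hp0 i j hij, hp1 i j hij]
      simp
  · intro c
    rw [← algebraMap_star_comm]
    simp only [AlgHom.commutes, AlgEquiv.commutes, and_self]
  · intro x y hx hy
    simp only [star_add, map_add, hx.1, hx.2, hy.1, hy.2, and_self]
  · intro x y hx hy
    simp only [star_mul, map_mul, hx.1, hx.2, hy.1, hy.2, and_self]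
  · intro x hx
    rw [star_star]
    exact ⟨hx.2, hx.1⟩

/-- If the universal diagonal quotient is finite-dimensional, the diagonal group is finite. -/
theorem finite_of_finiteDimensional (hu : u ∈ unitary (Matrix n n 𝒜))
    (hε : ∀ i j, ε (u i j) = if i = j then 1 else 0) {H : Type} [Ring H] [Algebra ℂ H]
    [FiniteDimensional ℂ H] (p : 𝒜 →ₐ[ℂ] H) (D : H →ₐ[ℂ] H ⊗[ℂ] H) (η : H →ₐ[ℂ] ℂ)
    (hη : ∀ a, η (p a) = ε a) (h1 : ∀ i, D (p (u i i)) = p (u i i) ⊗ₜ p (u i i))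
    (h2 : ∀ i, D (p (star (u i i))) = p (star (u i i)) ⊗ₜ p (star (u i i)))
    {B : Type} [Ring B] [Algebra ℂ B] (π : 𝒜 →ₐ[ℂ] B) (hπ : ∀ i j, i ≠ j → π (u i j) = 0)
    (π' : H →ₐ[ℂ] B) (hπ' : ∀ a, π' (p a) = π a) :
    ((Subgroup.closure {g : Bˣ | ∃ i, (g : B) = π (u i i)} : Subgroup Bˣ) : Set Bˣ).Finite := by
  have hfin : {x : H | D.toLinearMap x = x ⊗ₜ x ∧ x ≠ 0}.Finite :=
    LinearIndependent.setFinite (linearIndepOn_grouplike D.toLinearMap)
  let T : Set H := {x : H | D x = x ⊗ₜ x ∧ η x = 1}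
  have hT : T.Finite := hfin.subset fun x hx => ⟨hx.1, fun h0 => by
    have := hx.2
    rw [h0, map_zero] at this
    exact zero_ne_one this⟩
  have hmul : ∀ x ∈ T, ∀ y ∈ T, x * y ∈ T := by
    intro x hx y hy
    refine ⟨?_, ?_⟩
    · rw [map_mul, hx.1, hy.1, Algebra.TensorProduct.tmul_mul_tmul]
    · rw [map_mul, hx.2, hy.2, one_mul]
  obtain ⟨d1, d2, -⟩ := diag_facts hu π hπ
  have key : ∀ g ∈ Subgroup.closure {g : Bˣ | ∃ i, (g : B) = π (u i i)},
      (g : B) ∈ π' '' T ∧ ((g⁻¹ : Bˣ) : B) ∈ π' '' T := by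
    intro g hg
    induction hg using Subgroup.closure_induction with
    | mem g hg =>
      obtain ⟨i, hi⟩ := hg
      refine ⟨⟨p (u i i), ⟨h1 i, by rw [hη, hε, if_pos rfl]⟩, by rw [hπ', hi]⟩,
        ⟨p (star (u i i)), ⟨h2 i, by rw [hη, map_star, hε, if_pos rfl, star_one]⟩, ?_⟩⟩
      rw [hπ']
      symm
      rw [Units.inv_eq_of_mul_eq_one_right]
      rw [hi, d1]
    | one =>
      have : (1 : H) ∈ T := ⟨by rw [map_one, Algebra.TensorProduct.one_def], map_one η⟩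
      exact ⟨⟨1, this, by simp⟩, ⟨1, this, by simp⟩⟩
    | mul x y _ _ hx hy =>
      obtain ⟨⟨a, ha, ha'⟩, ⟨b, hb, hb'⟩⟩ := hx
      obtain ⟨⟨c, hc, hc'⟩, ⟨d, hd, hd'⟩⟩ := hy
      refine ⟨⟨a * c, hmul _ ha _ hc, by rw [map_mul, ha', hc', Units.val_mul]⟩,
        ⟨d * b, hmul _ hd _ hb, by rw [map_mul, hd', hb', mul_inv_rev, Units.val_mul]⟩⟩
    | inv x _ hx =>
      rw [inv_inv]
      exact ⟨hx.2, hx.1⟩
  refine Set.Finite.of_finite_image (f := fun g : Bˣ => (g : B)) ((hT.image π').subset ?_)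
    Units.val_injective.injOn
  rintro _ ⟨g, hg, rfl⟩
  exact (key g hg).1

end Pool.Agent.H287Z.QG
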