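import Mathlib
import Pool.Agent.H287Z.QG.Twist
import Pool.Agent.H287Z.QG.Torus

set_option autoImplicit false
set_option linter.unusedSectionVars false
set_option linter.unusedSimpArgs false

open scoped TensorProduct

noncomputable section

namespace Pool.Agent.H287Z.QG

variable {𝒜 : Type} [Ring 𝒜] [StarRing 𝒜] [Algebra ℂ 𝒜] [StarModule ℂ 𝒜]

/-- generators of a quotient of the triangle group `(2, 3, ∞)` -/
structure Tri {Γ : Type} [Group Γ] (a b c : Γ) : Prop where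
  aa : a * a = 1
  bb : b * b = 1
  cc : c * c = 1
  ba : b * a = a * b
  bc : c * b * c = b * c * b
  gen : Subgroup.closure {a, b, c} = ⊤

variable {Γ : Type} [Group Γ] {L : Γ →* 𝒜} {a b c : Γ}

theorem Tri.klein (h : GroupAlg L) (t : Tri a b c) : Klein (L a) (L b) := by
  refine ⟨?_, ?_, ?_, ?_, ?_⟩
  · rw [← map_mul, t.aa, map_one]
  · rw [← map_mul, t.bb, map_one]
  · rw [← map_mul, t.ba, map_mul]
  · rw [h.star_eq, inv_eq_of_mul_eq_one_right t.aa]
  · rw [h.star_eq, inv_eq_of_mul_eq_one_right t.bb]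

theorem mem_closure_of_tri {M : Type} [Monoid M] (t : Tri a b c) (f : Γ →* M) (T : Set M)
    (h1 : (1 : M) ∈ T) (ha : ∀ x ∈ T, f a * x ∈ T) (hb : ∀ x ∈ T, f b * x ∈ T)
    (hc : ∀ x ∈ T, f c * x ∈ T) (g : Γ) : f g ∈ T := by
  have hg : g ∈ Subgroup.closure {a, b, c} := by rw [t.gen]; trivial
  have key : ∀ x ∈ ({a, b, c} : Set Γ), ∀ y ∈ T, f x * y ∈ T := by
    intro x hx
    rcases hx with rfl | rfl | rfl
    exacts [ha, hb, hc]
  have hinv : ∀ x ∈ ({a, b, c} : Set Γ), x⁻¹ = x := by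
    intro x hx
    rcases hx with rfl | rfl | rfl
    exacts [inv_eq_of_mul_eq_one_right t.aa, inv_eq_of_mul_eq_one_right t.bb,
      inv_eq_of_mul_eq_one_right t.cc]
  induction hg using Subgroup.closure_induction_left with
  | one => rw [map_one]; exact h1
  | mul_left x hx y _ ih => rw [map_mul]; exact key x hx _ ih
  | inv_mul_cancel x hx y _ ih => rw [hinv x hx, map_mul]; exact key x hx _ ih

theorem exists_twist (h : GroupAlg L) (t : Tri a b c) :
    ∃ (Δ : 𝒜 →⋆ₐ[ℂ] 𝒜 ⊗[ℂ] 𝒜) (ε : 𝒜 →⋆ₐ[ℂ] ℂ) (S : 𝒜 →⋆ₐ[ℂ] 𝒜ᵐᵒᵖ),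
      AlgQG (Um (L a) (L b) (L c)) Δ ε S ∧
      (∀ g, Δ (L g) = Jm (L a) (L b) * (L g ⊗ₜ L g) * Jm (L a) (L b)) ∧ ∀ g, ε (L g) = 1 := by
  have k := t.klein h
  have hγ : L c * L c = 1 := by rw [← map_mul, t.cc, map_one]
  have hs : star (L c) = L c := by rw [h.star_eq, inv_eq_of_mul_eq_one_right t.cc]
  obtain ⟨D, hD⟩ := h.exists_lift (C := 𝒜 ⊗[ℂ] 𝒜)
    { toFun := fun g => L g ⊗ₜ L g
      map_one' := by rw [map_one, Algebra.TensorProduct.one_def]
      map_mul' := fun x y => by rw [map_mul, Algebra.TensorProduct.tmul_mul_tmul] }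
    (fun g => by
      show star (L g ⊗ₜ[ℂ] L g) = L g⁻¹ ⊗ₜ[ℂ] L g⁻¹
      rw [TensorProduct.star_tmul, h.star_eq])
  obtain ⟨ε, hε⟩ := h.exists_lift (C := ℂ) 1 (fun g => by simp)
  obtain ⟨S₀, hS₀⟩ := h.exists_lift (C := 𝒜ᵐᵒᵖ)
    { toFun := fun g => MulOpposite.op (L g⁻¹)
      map_one' := by rw [inv_one, map_one, MulOpposite.op_one]
      map_mul' := fun x y => by rw [mul_inv_rev, map_mul, MulOpposite.op_mul] }
    (fun g => by
      show star (MulOpposite.op (L g⁻¹)) = MulOpposite.op (L g⁻¹⁻¹)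
      rw [← MulOpposite.op_star, h.star_eq])
  have hD' : ∀ g, D (L g) = L g ⊗ₜ L g := hD
  have hε' : ∀ g, ε (L g) = 1 := hε
  have hS' : ∀ g, S₀ (L g) = MulOpposite.op (L g⁻¹) := hS₀
  have hQ1 : MulOpposite.op (Qm (L a) (L b)) * MulOpposite.op (Qm (L a) (L b)) = 1 := by
    rw [← MulOpposite.op_mul, k.Q_sq, MulOpposite.op_one]
  have hQ2 : star (MulOpposite.op (Qm (L a) (L b))) = MulOpposite.op (Qm (L a) (L b)) := by
    rw [← MulOpposite.op_star, k.star_Q]
  refine ⟨(conjHom _ k.J_sq k.star_J).comp D, ε, (conjHom _ hQ1 hQ2).comp S₀,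
    ⟨Um_unitary k hγ hs, ?_, ?_, ?_, ?_⟩, ?_, hε'⟩
  · rw [eq_top_iff]
    set T := StarAlgebra.adjoin ℂ {x | ∃ i j, x = Um (L a) (L b) (L c) i j} with hT
    have hU : ∀ i j k l, Wm (L a) (L b) i j * L c * Wm (L a) (L b) k l ∈ T := fun i j k l =>
      StarAlgebra.subset_adjoin ℂ _ ⟨(i, k), (j, l), rfl⟩
    have e1 : Wm (L a) (L b) 0 0 + Wm (L a) (L b) 1 0 = 1 := by
      simp [Wm]; module
    have e2 : Wm (L a) (L b) 0 0 - Wm (L a) (L b) 1 0 = L a := by
      simp [Wm]; module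
    have e3 : Wm (L a) (L b) 0 1 + Wm (L a) (L b) 1 1 = L b := by
      simp [Wm]; module
    have hW : ∀ i j, Wm (L a) (L b) i j * L c ∈ T := by
      intro i j
      have := add_mem (hU i j 0 0) (hU i j 1 0)
      rwa [← mul_add, e1, mul_one] at this
    have hc : L c ∈ T := by
      have := add_mem (hW 0 0) (hW 1 0)
      rwa [← add_mul, e1, one_mul] at this
    have ha : L a ∈ T := by
      have := mul_mem (sub_mem (hW 0 0) (hW 1 0)) hc
      rwa [← sub_mul, e2, mul_assoc, hγ, mul_one] at this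
    have hb : L b ∈ T := by
      have := mul_mem (add_mem (hW 0 1) (hW 1 1)) hc
      rwa [← add_mul, e3, mul_assoc, hγ, mul_one] at this
    intro x _
    refine h.induction (p := fun x => x ∈ T) ?_ (zero_mem _) (fun x y => add_mem)
      (fun c x hx => SMulMemClass.smul_mem c hx) x
    exact mem_closure_of_tri t L T (one_mem _) (fun x hx => mul_mem ha hx)
      (fun x hx => mul_mem hb hx) (fun x hx => mul_mem hc hx)
  · rintro ⟨i, k'⟩ ⟨j, l⟩
    rw [StarAlgHom.comp_apply, conjHom_apply]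
    simp only [Um, map_mul]
    rw [← mul_assoc, ← mul_assoc, k.J_W D (hD' a) (hD' b), mul_assoc, k.W_J D (hD' a) (hD' b),
      hD', Fintype.sum_prod_type, Finset.sum_mul, Finset.sum_mul]
    refine Finset.sum_congr rfl fun m _ => ?_
    rw [Finset.mul_sum]
    refine Finset.sum_congr rfl fun m' _ => ?_
    simp only [Algebra.TensorProduct.tmul_mul_tmul]
  · rintro ⟨i, k'⟩ ⟨j, l⟩
    simp only [Um, map_mul, hε', Klein.eps_W ε (hε' a) (hε' b), Prod.mk.injEq]
    by_cases h1 : i = j <;> by_cases h2 : k' = l <;> simp [h1, h2]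
  · rintro ⟨i, k'⟩ ⟨j, l⟩
    have ha : S₀ (L a) = MulOpposite.op (L a) := by rw [hS', inv_eq_of_mul_eq_one_right t.aa]
    have hb : S₀ (L b) = MulOpposite.op (L b) := by rw [hS', inv_eq_of_mul_eq_one_right t.bb]
    have hc : S₀ (L c) = MulOpposite.op (L c) := by rw [hS', inv_eq_of_mul_eq_one_right t.cc]
    rw [StarAlgHom.comp_apply, conjHom_apply]
    simp only [Um, map_mul, k.S_W S₀ ha hb, hc, ← MulOpposite.op_mul, star_mul, k.star_W, hs]
    congr 1
    rw [← k.Q_W k' l, ← k.W_Q i j]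
    simp only [mul_assoc]
  · intro g
    rw [StarAlgHom.comp_apply, conjHom_apply, hD']

theorem R_eq {α β : 𝒜} (h : Klein α β) :
    Jm α β * Algebra.TensorProduct.comm ℂ 𝒜 𝒜 (Jm α β) = (1 / 4 : ℂ) •
      ((1 + α + β + α * β) ⊗ₜ[ℂ] (1 : 𝒜) + (1 + α - β - α * β) ⊗ₜ[ℂ] α +
        (1 - α + β - α * β) ⊗ₜ[ℂ] β + (1 - α - β + α * β) ⊗ₜ[ℂ] (α * β)) := by
  simp only [Jm, map_smul, map_add, map_sub, Algebra.TensorProduct.comm_tmul, mul_add, add_mul,
    mul_sub, sub_mul, smul_mul_assoc, mul_smul_comm, Algebra.TensorProduct.tmul_mul_tmul,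
    one_mul, mul_one, h.ba, TensorProduct.add_tmul, TensorProduct.sub_tmul]
  module

theorem finite_range_of_cases {M : Type} [Monoid M] (t : Tri a b c) (f : Γ →* M)
    (hc : f a = 1 ∨ f a = f b ∨ f c = 1 ∨ f c = f a ∨ f c = f b ∨ f c = f a * f b) :
    (Set.range f).Finite := by
  have aa : f a * f a = 1 := by rw [← map_mul, t.aa, map_one]
  have bb : f b * f b = 1 := by rw [← map_mul, t.bb, map_one]
  have cc : f c * f c = 1 := by rw [← map_mul, t.cc, map_one]
  have ba : f b * f a = f a * f b := by rw [← map_mul, t.ba, map_mul]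
  have bc : f c * (f b * f c) = f b * (f c * f b) := by
    rw [← mul_assoc, ← mul_assoc, ← map_mul, ← map_mul, t.bc, map_mul, map_mul]
  have aa' : ∀ x, f a * (f a * x) = x := fun x => by rw [← mul_assoc, aa, one_mul]
  have bb' : ∀ x, f b * (f b * x) = x := fun x => by rw [← mul_assoc, bb, one_mul]
  have cc' : ∀ x, f c * (f c * x) = x := fun x => by rw [← mul_assoc, cc, one_mul]
  have ba' : ∀ x, f b * (f a * x) = f a * (f b * x) := fun x => by
    rw [← mul_assoc, ba, mul_assoc]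
  have case1 : (f a = 1 ∨ f a = f b) → (Set.range f).Finite := by
    intro h
    let T : Set M := {1, f b, f c, f b * f c, f c * f b, f b * (f c * f b)}
    have hb : ∀ x ∈ T, f b * x ∈ T := by
      intro x hx
      rcases hx with rfl | rfl | rfl | rfl | rfl | rfl <;> simp [T, bb, bb']
    have hc : ∀ x ∈ T, f c * x ∈ T := by
      intro x hx
      have e : f c * (f b * (f c * f b)) = f b * f c := by rw [← bc, cc']
      rcases hx with rfl | rfl | rfl | rfl | rfl | rfl <;> simp [T, cc, cc', bc, e]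
    have ha : ∀ x ∈ T, f a * x ∈ T := by
      rcases h with h | h
      · intro x hx; rwa [h, one_mul]
      · rw [h]; exact hb
    refine (Set.toFinite T).subset ?_
    rintro _ ⟨g, rfl⟩
    exact mem_closure_of_tri t f T (by simp [T]) ha hb hc g
  have case2 : (f c = 1 ∨ f c = f a ∨ f c = f b ∨ f c = f a * f b) → (Set.range f).Finite := by
    intro h
    let T : Set M := {1, f a, f b, f a * f b}
    have ha : ∀ x ∈ T, f a * x ∈ T := by
      intro x hx
      rcases hx with rfl | rfl | rfl | rfl <;> simp [T, aa, aa']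
    have hb : ∀ x ∈ T, f b * x ∈ T := by
      intro x hx
      rcases hx with rfl | rfl | rfl | rfl <;> simp [T, bb, ba, ba']
    have hc : ∀ x ∈ T, f c * x ∈ T := by
      rcases h with h | h | h | h
      · intro x hx; rwa [h, one_mul]
      · rw [h]; exact ha
      · rw [h]; exact hb
      · intro x hx
        rw [h, mul_assoc]
        exact ha _ (hb _ hx)
    refine (Set.toFinite T).subset ?_
    rintro _ ⟨g, rfl⟩
    exact mem_closure_of_tri t f T (by simp [T]) ha hb hc g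
  rcases hc with h | h | h
  · exact case1 (Or.inl h)
  · exact case1 (Or.inr h)
  · exact case2 h

theorem finiteDimensional_torus (h : GroupAlg L) (t : Tri a b c)
    {Δ : 𝒜 →⋆ₐ[ℂ] 𝒜 ⊗[ℂ] 𝒜} {ε : 𝒜 →⋆ₐ[ℂ] ℂ}
    (hΔ : ∀ g, Δ (L g) = Jm (L a) (L b) * (L g ⊗ₜ L g) * Jm (L a) (L b)) (hε : ∀ g, ε (L g) = 1)
    {H : Type} [Ring H] [Algebra ℂ H] (p : 𝒜 →ₐ[ℂ] H) (D : H →ₐ[ℂ] H ⊗[ℂ] H)
    (η : H →ₐ[ℂ] ℂ) (hp : Function.Surjective p)
    (hD : ∀ a, D (p a) = Algebra.TensorProduct.map p p (Δ a)) (hη : ∀ a, η (p a) = ε a)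
    (hcomm : ∀ x, Algebra.TensorProduct.comm ℂ H H (D x) = D x) : FiniteDimensional ℂ H := by
  have k := t.klein h
  let f : Γ →* H := p.toRingHom.toMonoidHom.comp L
  have hf : ∀ g, f g = p (L g) := fun g => rfl
  suffices hfin : (Set.range f).Finite by
    have hsp : Submodule.span ℂ (Set.range f) = ⊤ := by
      rw [eq_top_iff]
      intro y _
      obtain ⟨x, rfl⟩ := hp y
      refine h.induction (p := fun x => p x ∈ Submodule.span ℂ (Set.range f)) ?_ ?_ ?_ ?_ x
      · intro g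
        exact Submodule.subset_span ⟨g, rfl⟩
      · rw [map_zero]; exact zero_mem _
      · intro x y hx hy
        rw [map_add]; exact add_mem hx hy
      · intro c x hx
        rw [map_smul]; exact Submodule.smul_mem _ c hx
    exact ⟨Submodule.fg_def.2 ⟨_, hfin, hsp⟩⟩
  refine finite_range_of_cases t f ?_
  by_contra hcon
  simp only [not_or] at hcon
  obtain ⟨na, nab, nc, nca, ncb, ncab⟩ := hcon
  set J : H ⊗[ℂ] H := Algebra.TensorProduct.map p p (Jm (L a) (L b)) with hJ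
  set J' : H ⊗[ℂ] H := Algebra.TensorProduct.comm ℂ H H J with hJ'
  have hJJ : J * J = 1 := by rw [hJ, ← map_mul, k.J_sq, map_one]
  have hJJ' : J' * J' = 1 := by rw [hJ', ← map_mul, hJJ, map_one]
  have hDf : ∀ g, D (f g) = J * (f g ⊗ₜ f g) * J := by
    intro g
    rw [hf, hD, hΔ, map_mul, map_mul, Algebra.TensorProduct.map_tmul]
  let D₀ : H →ₗ[ℂ] H ⊗[ℂ] H :=
    LinearMap.mulLeft ℂ J ∘ₗ LinearMap.mulRight ℂ J ∘ₗ D.toLinearMap
  have hD₀ : ∀ g, f g ∈ {x : H | D₀ x = x ⊗ₜ x ∧ x ≠ 0} := by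
    intro g
    constructor
    · show J * (D (f g) * J) = _
      rw [hDf, mul_assoc (J * _), hJJ, mul_one, ← mul_assoc, hJJ, one_mul]
    · intro h0
      have := hη (L g)
      rw [← hf, h0, map_zero, hε] at this
      exact zero_ne_one this
  have hdelta : ∀ g, ∃ φ : H →ₗ[ℂ] ℂ, φ (f g) = 1 ∧ ∀ g', f g' ≠ f g → φ (f g') = 0 := by
    intro g
    obtain ⟨φ, h1, h2⟩ := exists_delta (linearIndepOn_grouplike D₀) (hD₀ g)
    exact ⟨φ, h1, fun g' hg' => h2 _ (hD₀ g') hg'⟩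
  have hR : J * J' * (f c ⊗ₜ f c) = (f c ⊗ₜ f c) * (J * J') := by
    have h1 := hcomm (f c)
    rw [hDf, map_mul, map_mul, ← hJ', Algebra.TensorProduct.comm_tmul] at h1
    calc J * J' * (f c ⊗ₜ f c) = J * (J' * (f c ⊗ₜ f c) * J') * J' := by
          simp only [mul_assoc, hJJ', mul_one]
      _ = (J * J) * (f c ⊗ₜ f c) * (J * J') := by rw [h1]; simp only [mul_assoc]
      _ = _ := by rw [hJJ, one_mul]
  have hRe : J * J' = (1 / 4 : ℂ) •
      ((1 + f a + f b + f a * f b) ⊗ₜ[ℂ] (1 : H) + (1 + f a - f b - f a * f b) ⊗ₜ[ℂ] f a +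
        (1 - f a + f b - f a * f b) ⊗ₜ[ℂ] f b + (1 - f a - f b + f a * f b) ⊗ₜ[ℂ] (f a * f b)) := by
    have h1 : J' = Algebra.TensorProduct.map p p
        (Algebra.TensorProduct.comm ℂ 𝒜 𝒜 (Jm (L a) (L b))) := by
      simp only [hJ', hJ, Jm, map_smul, map_add, map_sub, Algebra.TensorProduct.comm_tmul,
        Algebra.TensorProduct.map_tmul]
    rw [h1, hJ, ← map_mul, R_eq k]
    simp only [map_smul, map_add, map_sub, map_mul, map_one, Algebra.TensorProduct.map_tmul, hf]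
  obtain ⟨φ₁, h11, h12⟩ := hdelta (c * b)
  obtain ⟨φ₂, h21, h22⟩ := hdelta c
  have aa : f a * f a = 1 := by rw [← map_mul, t.aa, map_one]
  have bb : f b * f b = 1 := by rw [← map_mul, t.bb, map_one]
  have cc : f c * f c = 1 := by rw [← map_mul, t.cc, map_one]
  have ba : f b * f a = f a * f b := by rw [← map_mul, t.ba, map_mul]
  have bc : f c * f b * f c = f b * f c * f b := by
    rw [← map_mul, ← map_mul, t.bc, map_mul, map_mul]
  have lc : ∀ x y : H, f c * x = f c * y → x = y := fun x y hxy => by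
    have := congrArg (fun z => f c * z) hxy
    simpa only [← mul_assoc, cc, one_mul] using this
  have rc : ∀ x y : H, x * f c = y * f c → x = y := fun x y hxy => by
    have := congrArg (fun z => z * f c) hxy
    simpa only [mul_assoc, cc, mul_one] using this
  have nb : f b ≠ 1 := by
    intro hb
    rw [hb, mul_one, one_mul, mul_one, cc] at bc
    exact nc bc.symm
  have nab1 : f a * f b ≠ 1 := by
    intro hab
    apply nab
    calc f a = f a * (f b * f b) := by rw [bb, mul_one]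
      _ = f b := by rw [← mul_assoc, hab, one_mul]
  have nabb : f a * f b ≠ f b := by
    intro hab
    apply na
    calc f a = f a * (f b * f b) := by rw [bb, mul_one]
      _ = 1 := by rw [← mul_assoc, hab, bb]
  -- if `x c = c b` then `c = b x b`
  have hx : ∀ x : H, x * f c = f c * f b → f c = f b * x * f b := by
    intro x hx
    have h1 : x = f b * f c * f b := by
      rw [← bc, ← hx, mul_assoc, cc, mul_one]
    rw [h1]
    simp only [← mul_assoc, bb, one_mul]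
    rw [mul_assoc, bb, mul_one]
  have z1 : φ₁ (f c) = 0 := h12 c (by
    rw [map_mul]; intro e
    have := hx 1 (by rw [one_mul]; exact e)
    rw [mul_one, bb] at this
    exact nc this)
  have z2 : φ₁ (f a * f c) = 0 := by
    rw [← map_mul]
    refine h12 _ ?_
    rw [map_mul, map_mul]; intro e
    have := hx _ e
    rw [ba, mul_assoc, bb, mul_one] at this
    exact nca this
  have z3 : φ₁ (f b * f c) = 0 := by
    rw [← map_mul]
    refine h12 _ ?_
    rw [map_mul, map_mul]; intro e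
    have := hx _ e
    rw [bb, one_mul] at this
    exact ncb this
  have z4 : φ₁ (f a * f b * f c) = 0 := by
    rw [← map_mul, ← map_mul]
    refine h12 _ ?_
    rw [map_mul, map_mul, map_mul]; intro e
    have := hx _ e
    rw [← mul_assoc, ba, mul_assoc (f a), bb, mul_one] at this
    exact ncab this
  have y1 : φ₁ (f c * f b) = 1 := by rw [← map_mul]; exact h11
  have y2 : φ₁ (f c * f a) = 0 := by
    rw [← map_mul]
    refine h12 _ ?_
    rw [map_mul, map_mul]; intro e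
    exact nab (lc _ _ e)
  have y3 : φ₁ (f c * (f a * f b)) = 0 := by
    rw [← map_mul, ← map_mul]
    refine h12 _ ?_
    rw [map_mul, map_mul, map_mul]; intro e
    exact nabb (lc _ _ e)
  have w : ∀ g, f g ≠ 1 → φ₂ (f c * f g) = 0 := by
    intro g hg
    rw [← map_mul]
    refine h22 _ ?_
    rw [map_mul]; intro e
    exact hg (lc _ _ (by rw [e, mul_one]))
  have w1 := w a na
  have w2 := w b nb
  have w3 := w (a * b) (by rw [map_mul]; exact nab1)
  rw [map_mul f] at w3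
  let Φ : H ⊗[ℂ] H →ₗ[ℂ] ℂ := (TensorProduct.lid ℂ ℂ).toLinearMap ∘ₗ TensorProduct.map φ₁ φ₂
  have hΦ : ∀ x y, Φ (x ⊗ₜ y) = φ₁ x * φ₂ y := fun x y => by simp [Φ]
  have h1 := congrArg Φ hR
  rw [hRe] at h1
  simp only [smul_mul_assoc, mul_smul_comm, add_mul, mul_add, sub_mul, mul_sub,
    Algebra.TensorProduct.tmul_mul_tmul, map_smul, map_add, map_sub, hΦ, one_mul, mul_one,
    z1, z2, z3, z4, y1, y2, y3, w1, w2, w3, h21] at h1
  norm_num at h1

theorem tori_finite (h : GroupAlg L) (t : Tri a b c)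
    {Δ : 𝒜 →⋆ₐ[ℂ] 𝒜 ⊗[ℂ] 𝒜} {ε : 𝒜 →⋆ₐ[ℂ] ℂ} {S : 𝒜 →⋆ₐ[ℂ] 𝒜ᵐᵒᵖ}
    (hΔ : ∀ g, Δ (L g) = Jm (L a) (L b) * (L g ⊗ₜ L g) * Jm (L a) (L b)) (hε : ∀ g, ε (L g) = 1)
    {n : Type} [Fintype n] [DecidableEq n] {v : Matrix n n 𝒜} (hv : AlgQG v Δ ε S)
    {B : Type} [Ring B] [Algebra ℂ B] (π : 𝒜 →ₐ[ℂ] B) (hπ : ∀ i j, i ≠ j → π (v i j) = 0) :
    ((Subgroup.closure {g : Bˣ | ∃ i, (g : B) = π (v i i)} : Subgroup Bˣ) : Set Bˣ).Finite := by
  obtain ⟨H, _, _, p, D, η, hp, hD, hη, hcomm, h1, h2, huniv⟩ := hv.exists_torus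
  have := finiteDimensional_torus h t hΔ hε p D η hp hD hη hcomm
  obtain ⟨π', hπ'⟩ := huniv B π hπ
  exact finite_of_finiteDimensional hv.unit hv.hε p D η hη h1 h2 π hπ π' hπ'

end Pool.Agent.H287Z.QG
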