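import Mathlib
import Pool.Agent.H287Z.QG.Tri
import Pool.Agent.H287Z.QG.Ell2

set_option autoImplicit false
set_option linter.unusedSectionVars false
set_option linter.unusedSimpArgs false

open scoped TensorProduct InnerProductSpace

noncomputable section

namespace Pool.Agent.H287Z.QG

/-- the irrational numbers -/
def Ir : Type := {x : ℝ // Irrational x}

theorem Ir.ne_zero (x : Ir) : x.1 ≠ 0 := x.2.ne_zero
theorem Ir.ne_one (x : Ir) : x.1 ≠ 1 := x.2.ne_one

def pa : Equiv.Perm Ir :=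
  Function.Involutive.toPerm (fun x => ⟨-x.1, x.2.neg⟩) fun x => Subtype.ext (neg_neg x.1)

def pb : Equiv.Perm Ir :=
  Function.Involutive.toPerm (fun x => ⟨x.1⁻¹, x.2.inv⟩) fun x => Subtype.ext (inv_inv x.1)

def pc : Equiv.Perm Ir :=
  Function.Involutive.toPerm (fun x => ⟨1 - x.1, by simpa using x.2.natCast_sub 1⟩)
    fun x => Subtype.ext (sub_sub_cancel 1 x.1)

theorem pa_val (x : Ir) : (pa x).1 = -x.1 := rfl
theorem pb_val (x : Ir) : (pb x).1 = x.1⁻¹ := rfl
theorem pc_val (x : Ir) : (pc x).1 = 1 - x.1 := rfl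

/-- the group `PGL₂(ℤ)` acting on the irrational numbers -/
def Gam : Subgroup (Equiv.Perm Ir) := Subgroup.closure {pa, pb, pc}

def ga : Gam := ⟨pa, Subgroup.subset_closure (by simp)⟩
def gb : Gam := ⟨pb, Subgroup.subset_closure (by simp)⟩
def gc : Gam := ⟨pc, Subgroup.subset_closure (by simp)⟩

/-- the action -/
def act (g : Gam) (x : Ir) : Ir := g.1 x

theorem act_mul (g h : Gam) (x : Ir) : act (g * h) x = act g (act h x) := rfl
theorem act_one (x : Ir) : act 1 x = x := rfl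
theorem act_a (x : Ir) : (act ga x).1 = -x.1 := rfl
theorem act_b (x : Ir) : (act gb x).1 = x.1⁻¹ := rfl
theorem act_c (x : Ir) : (act gc x).1 = 1 - x.1 := rfl

theorem gam_ext {g h : Gam} (e : ∀ x, (act g x).1 = (act h x).1) : g = h :=
  Subtype.ext (Equiv.ext fun x => Subtype.ext (e x))

theorem tri : Tri ga gb gc := by
  refine ⟨gam_ext fun x => ?_, gam_ext fun x => ?_, gam_ext fun x => ?_, gam_ext fun x => ?_,
    gam_ext fun x => ?_, ?_⟩
  · simp only [act_mul, act_a, act_one, neg_neg]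
  · simp only [act_mul, act_b, act_one, inv_inv]
  · simp only [act_mul, act_c, act_one, sub_sub_cancel]
  · simp only [act_mul, act_a, act_b, inv_neg]
  · simp only [act_mul, act_b, act_c]
    have h0 := x.ne_zero
    have h1 : 1 - x.1 ≠ 0 := sub_ne_zero.2 x.ne_one.symm
    have h2 : x.1 - 1 ≠ 0 := sub_ne_zero.2 x.ne_one
    field_simp
    ring
  · have h := Subgroup.closure_closure_coe_preimage (k := ({pa, pb, pc} : Set (Equiv.Perm Ir)))
    rw [eq_top_iff]
    refine h.ge.trans (Subgroup.closure_mono ?_)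
    rintro ⟨x, hx⟩ h
    rcases h with rfl | rfl | rfl
    · exact Or.inl rfl
    · exact Or.inr (Or.inl rfl)
    · exact Or.inr (Or.inr rfl)

theorem act_pow (m : ℕ) (x : Ir) : (act ((gc * ga) ^ m) x).1 = x.1 + m := by
  induction m with
  | zero => simp [act_one]
  | succ m ih =>
    rw [pow_succ', act_mul, act_mul, act_c, act_a, ih]
    push_cast
    ring

theorem act_pow_inv (m : ℕ) (x : Ir) : (act ((gc * ga) ^ m)⁻¹ x).1 = x.1 - m := by
  have h := act_pow m (act ((gc * ga) ^ m)⁻¹ x)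
  rw [← act_mul, mul_inv_cancel, act_one] at h
  linarith

/-- the base point -/
def x0 : Ir := ⟨Real.sqrt 2, irrational_sqrt_two⟩

theorem exists_small_norm : ∃ g : Fin 5 → Gam, ‖∑ i, lam Gam (g i)‖ < 5 := by
  let g : Fin 5 → Gam := fun i => (gc * ga) ^ (3 * i.1) * gb * ((gc * ga) ^ (3 * i.1))⁻¹
  have hg : ∀ i x, (act (g i) x).1 = (x.1 - (3 * i.1 : ℕ))⁻¹ + (3 * i.1 : ℕ) := by
    intro i x
    simp only [g, act_mul, act_pow, act_b, act_pow_inv]
  let W : Fin 5 → Set Gam := fun i => {k | |(act k x0).1 - (3 * i.1 : ℕ)| < 1}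
  have key : ∀ i j : Fin 5, ∀ y : ℝ, |y - (3 * i.1 : ℕ)| ≤ 1 → |y - (3 * j.1 : ℕ)| ≤ 1 → i = j := by
    intro i j y h1 h2
    rw [abs_le] at h1 h2
    push_cast at h1 h2
    have h3 : (i.1 : ℝ) < j.1 + 1 := by linarith [h1.1, h1.2, h2.1, h2.2]
    have h4 : (j.1 : ℝ) < i.1 + 1 := by linarith [h1.1, h1.2, h2.1, h2.2]
    have h5 : i.1 < j.1 + 1 := by exact_mod_cast h3
    have h6 : j.1 < i.1 + 1 := by exact_mod_cast h4
    exact Fin.ext (by omega)
  have hR : ∀ i k, g i * k ∉ W i → |(act k x0).1 - (3 * i.1 : ℕ)| ≤ 1 := by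
    intro i k hk
    simp only [W, Set.mem_ofPred_eq, act_mul, hg, add_sub_cancel_right, not_lt, abs_inv] at hk
    by_contra h
    rw [not_le] at h
    have := inv_lt_one_of_one_lt₀ h
    linarith
  refine ⟨g, lt_of_le_of_lt (norm_sum_lam_le g W ?_ ?_) ?_⟩
  · intro i j hij
    rw [Set.disjoint_left]
    intro k h1 h2
    exact hij (key i j _ (le_of_lt h1) (le_of_lt h2))
  · intro i j hij
    rw [Set.disjoint_left]
    intro k h1 h2
    exact hij (key i j _ (hR i k h1) (hR j k h2))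
  · have : Real.sqrt ((5 : ℕ) : ℝ) < 5 / 2 := by
      rw [Real.sqrt_lt' (by norm_num)]
      norm_num
    exact (mul_lt_mul_of_pos_left this two_pos).trans_le (by norm_num)

theorem map_Um {𝒜 C : Type} [Ring 𝒜] [StarRing 𝒜] [Algebra ℂ 𝒜] [StarModule ℂ 𝒜]
    [Ring C] [StarRing C] [Algebra ℂ C] [StarModule ℂ C] (e : 𝒜 ≃⋆ₐ[ℂ] C) (α β γ : 𝒜)
    (p q : Fin 2 × Fin 2) : e (Um α β γ p q) = Um (e α) (e β) (e γ) p q := by
  have : ∀ i j, e (Wm α β i j) = Wm (e α) (e β) i j := by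
    intro i j
    fin_cases i <;> fin_cases j <;> simp [Wm]
  simp only [Um, map_mul, this]

/-- the index bijection -/
def idx : Fin 4 ≃ Fin 2 × Fin 2 := (finProdFinEquiv (m := 2) (n := 2)).symm

theorem example_exists :
    ∃ (A : Type) (_ : CStarAlgebra A) (U : Matrix (Fin 4) (Fin 4) A)
      (Δ : Pol U →⋆ₐ[ℂ] Pol U ⊗[ℂ] Pol U) (ε : Pol U →⋆ₐ[ℂ] ℂ) (S : Pol U →⋆ₐ[ℂ] (Pol U)ᵐᵒᵖ)
      (L : Gam →* Pol U), IsCMQG U ∧ IsFull (Pol U).subtype ∧ GroupAlg L ∧ AlgQG (ent U) Δ ε S ∧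
      (∀ g, Δ (L g) = Jm (L ga) (L gb) * (L g ⊗ₜ L g) * Jm (L ga) (L gb)) ∧ (∀ g, ε (L g) = 1) ∧
      ent U = (Um (L ga) (L gb) (L gc)).submatrix idx idx := by
  have h0 : GroupAlg (LG (lam Gam)) := groupAlg_LG _ star_lam linearIndependent_lam
  obtain ⟨Δ₀, ε₀, S₀, hq₀, -, -⟩ := exists_twist h0 tri
  obtain ⟨A, _, U, e, he, h1, h2⟩ := package (hq₀.reindex idx) (GA (lam Gam)).subtype
    Subtype.val_injective
  have h := h0.map e
  obtain ⟨Δ, ε, S, hq, hΔ, hε⟩ := exists_twist h tri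
  have hU : ent U = (Um (e (LG (lam Gam) ga)) (e (LG (lam Gam) gb))
      (e (LG (lam Gam) gc))).submatrix idx idx := by
    ext i j : 2
    rw [← he, Matrix.submatrix_apply, Matrix.submatrix_apply, map_Um]
  refine ⟨A, inferInstance, U, Δ, ε, S, _, h1, h2, h, ?_, hΔ, hε, hU⟩
  rw [hU]
  exact hq.reindex idx

section
variable {N : ℕ} {A : Type} [CStarAlgebra A] {U : Matrix (Fin N) (Fin N) A}

theorem val_spin (Q : Matrix.unitaryGroup (Fin N) ℂ) (i j : Fin N) :
    ((sc (Pol U) (Q : Matrix (Fin N) (Fin N) ℂ) * ent U *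
      sc (Pol U) (star (Q : Matrix (Fin N) (Fin N) ℂ))) i j : A) = spun U Q i j := by
  have h1 : (sc (Pol U) (Q : Matrix (Fin N) (Fin N) ℂ) * ent U *
      sc (Pol U) (star (Q : Matrix (Fin N) (Fin N) ℂ))).map (Pol U).subtype.toAlgHom =
      spun U Q := by
    rw [map_mul_alg, map_mul_alg, map_sc, map_sc]
    rfl
  exact congrFun (congrFun h1 i) j

theorem torusMap_offdiag (Q : Matrix.unitaryGroup (Fin N) ℂ) (i j : Fin N) (hij : i ≠ j) :
    torusMap U Q (spun U Q i j) = 0 := by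
  have h1 : spun U Q i j ∈ torusIdeal U Q := by
    rw [torusIdeal, TwoSidedIdeal.mem_sInf]
    intro I hI
    exact hI.2 i j hij
  rw [← map_zero (torusMap U Q)]
  exact (RingCon.eq _).2 h1

theorem gamma_finite {Γ : Type} [Group Γ] {L : Γ →* Pol U} {a b c : Γ} (h : GroupAlg L)
    (t : Tri a b c) {Δ : Pol U →⋆ₐ[ℂ] Pol U ⊗[ℂ] Pol U} {ε : Pol U →⋆ₐ[ℂ] ℂ}
    {S : Pol U →⋆ₐ[ℂ] (Pol U)ᵐᵒᵖ} (hq : AlgQG (ent U) Δ ε S)
    (hΔ : ∀ g, Δ (L g) = Jm (L a) (L b) * (L g ⊗ₜ L g) * Jm (L a) (L b)) (hε : ∀ g, ε (L g) = 1)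
    (Q : Matrix.unitaryGroup (Fin N) ℂ) : Finite (Gamma U Q) := by
  have h1 := tori_finite h t hΔ hε (hq.spin Q) ((torusMap U Q).comp (Pol U).subtype.toAlgHom)
    (fun i j hij => by
      show torusMap U Q ((sc (Pol U) (Q : Matrix (Fin N) (Fin N) ℂ) * ent U *
        sc (Pol U) (star (Q : Matrix (Fin N) (Fin N) ℂ))) i j : A) = 0
      rw [val_spin, torusMap_offdiag Q i j hij])
  have h2 : torusGen U Q = {g : (TorusAlg U Q)ˣ | ∃ i, (g : TorusAlg U Q) =
      ((torusMap U Q).comp (Pol U).subtype.toAlgHom) ((sc (Pol U) (Q : Matrix (Fin N) (Fin N) ℂ) *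
        ent U * sc (Pol U) (star (Q : Matrix (Fin N) (Fin N) ℂ))) i i)} := by
    ext g
    refine exists_congr fun i => ?_
    rw [← val_spin]
    rfl
  rw [← h2] at h1
  exact h1

end

theorem haar_twist {𝒜 : Type} [Ring 𝒜] [StarRing 𝒜] [Algebra ℂ 𝒜] [StarModule ℂ 𝒜]
    {Γ : Type} [Group Γ] [DecidableEq Γ] {L : Γ →* 𝒜} {a b c : Γ} (h : GroupAlg L)
    (t : Tri a b c) {Δ : 𝒜 →⋆ₐ[ℂ] 𝒜 ⊗[ℂ] 𝒜}
    (hΔ : ∀ g, Δ (L g) = Jm (L a) (L b) * (L g ⊗ₜ L g) * Jm (L a) (L b))
    (τ : 𝒜 →ₗ[ℂ] ℂ) (hτ : ∀ g, τ (L g) = if g = 1 then 1 else 0) (x : 𝒜) :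
    TensorProduct.lid ℂ 𝒜 (TensorProduct.map τ LinearMap.id (Δ x)) = τ x • 1 ∧
    TensorProduct.rid ℂ 𝒜 (TensorProduct.map LinearMap.id τ (Δ x)) = τ x • 1 := by
  have k := t.klein h
  refine h.induction (p := fun x =>
    TensorProduct.lid ℂ 𝒜 (TensorProduct.map τ LinearMap.id (Δ x)) = τ x • 1 ∧
    TensorProduct.rid ℂ 𝒜 (TensorProduct.map LinearMap.id τ (Δ x)) = τ x • 1) ?_ ?_ ?_ ?_ x
  · intro g
    have hinv : ∀ s : Γ, s * s = 1 → τ (L s * L g) = (if g = s then 1 else 0) ∧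
        τ (L g * L s) = (if g = s then 1 else 0) ∧
        τ (L s * L g * L s) = (if g = 1 then 1 else 0) := by
      intro s hs
      have hs' : s⁻¹ = s := inv_eq_of_mul_eq_one_right hs
      refine ⟨?_, ?_, ?_⟩
      · rw [← map_mul, hτ]
        simp only [mul_eq_one_iff_inv_eq, hs', eq_comm]
      · rw [← map_mul, hτ]
        simp only [mul_eq_one_iff_eq_inv, hs']
      · rw [← map_mul, ← map_mul, hτ]
        have : s * g * s = 1 ↔ g = 1 := by
          constructor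
          · intro e
            calc g = s⁻¹ * (s * g * s) * s⁻¹ := by group
              _ = 1 := by rw [e, mul_one, hs', hs]
          · rintro rfl
            rw [mul_one, hs]
        simp only [this]
    obtain ⟨a1, a2, a3⟩ := hinv a t.aa
    obtain ⟨b1, b2, b3⟩ := hinv b t.bb
    rw [hΔ]
    simp only [Jm, mul_add, add_mul, mul_sub, sub_mul, smul_mul_assoc, mul_smul_comm,
      Algebra.TensorProduct.tmul_mul_tmul, one_mul, mul_one, map_smul, map_add, map_sub,
      TensorProduct.map_tmul, LinearMap.id_apply, TensorProduct.lid_tmul, TensorProduct.rid_tmul,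
      a1, a2, a3, b1, b2, b3, hτ]
    constructor
    · by_cases h1 : g = 1
      · subst h1
        simp only [map_one, mul_one, one_mul, k.aa, if_true]
        module
      · by_cases h2 : g = b
        · subst h2
          simp only [if_neg h1, if_true, k.ba, mul_assoc, k.aa']
          module
        · simp only [if_neg h1, if_neg h2]
          module
    · by_cases h1 : g = 1
      · subst h1
        simp only [map_one, mul_one, one_mul, k.bb, if_true]
        module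
      · by_cases h2 : g = a
        · subst h2
          simp only [if_neg h1, if_true, k.ba, mul_assoc, k.bb, mul_one]
          module
        · simp only [if_neg h1, if_neg h2]
          module
  · simp
  · intro x y hx hy
    simp only [map_add, hx.1, hx.2, hy.1, hy.2, add_smul, and_self]
  · intro c x hx
    simp only [map_smul, hx.1, hx.2, smul_eq_mul, mul_smul, and_self]

end Pool.Agent.H287Z.QG
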