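import Mathlib
import Pool.Agent.H287Z.QG.PGL

set_option autoImplicit false
set_option linter.unusedSectionVars false
set_option linter.unusedSimpArgs false

open scoped TensorProduct InnerProductSpace ComplexOrder

noncomputable section

namespace Pool.Agent.H287Z.QG

theorem exists_mean_of_finite (G : Type) [Group G] [Finite G] :
    ∃ m : Set G → ℝ, (∀ S, 0 ≤ m S) ∧ m Set.univ = 1 ∧
      (∀ S T, Disjoint S T → m (S ∪ T) = m S + m T) ∧
      ∀ (g : G) (S : Set G), m ((fun x => g * x) '' S) = m S := by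
  have hpos : (0 : ℝ) < Nat.card G := by exact_mod_cast Nat.card_pos
  refine ⟨fun S => (S.ncard : ℝ) / Nat.card G, fun S => by positivity, ?_, ?_, ?_⟩
  · simp only [Set.ncard_univ]
    exact div_self hpos.ne'
  · intro S T hST
    simp only
    rw [Set.ncard_union_eq hST, Nat.cast_add, add_div]
  · intro g S
    simp only
    rw [Set.ncard_image_of_injective _ (mul_right_injective g)]

theorem amen_example :
    ∃ (A : Type) (_ : CStarAlgebra A) (U : Matrix (Fin 4) (Fin 4) A)
      (Δ : Pol U →⋆ₐ[ℂ] Pol U ⊗[ℂ] Pol U) (h : A →L[ℂ] ℂ),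
      IsCMQG U ∧ IsFull (Pol U).subtype ∧ IsComul Δ (ent U) ∧
      (h 1 = 1 ∧ (∀ a : A, 0 ≤ h (star a * a)) ∧ ∀ a : Pol U,
        TensorProduct.lid ℂ (Pol U) (TensorProduct.map
          (h.toLinearMap ∘ₗ (Pol U).subtype.toAlgHom.toLinearMap) LinearMap.id (Δ a)) =
            h a • (1 : Pol U) ∧
        TensorProduct.rid ℂ (Pol U) (TensorProduct.map LinearMap.id
          (h.toLinearMap ∘ₗ (Pol U).subtype.toAlgHom.toLinearMap) (Δ a)) = h a • (1 : Pol U)) ∧
      ¬ (∀ a : A, (∀ b : A, h (star (a * b) * (a * b)) = 0) → a = 0) ∧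
      ∀ Q, Finite (Gamma U Q) := by
  classical
  obtain ⟨A, _, U, Δ, ε, S, L, h1, h2, hL, hq, hΔ, hε, -⟩ := example_exists
  obtain ⟨Λ, hΛ⟩ := hL.exists_lift (lam Gam) star_lam
  obtain ⟨ψ, hψ⟩ := h2.ext _ Λ
  obtain ⟨E, hE⟩ := h2.ext ℂ ε
  let φ : A →ₗ[ℂ] ℂ :=
    { toFun := fun a => ⟪dirac (1 : Gam), ψ a (dirac 1)⟫_ℂ
      map_add' := fun x y => by rw [map_add, ContinuousLinearMap.add_apply, inner_add_right]
      map_smul' := fun c x => by
        rw [map_smul, ContinuousLinearMap.smul_apply, inner_smul_right]; rfl }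
  have hφc : Continuous φ := by
    show Continuous fun a => ⟪dirac (1 : Gam), ψ a (dirac 1)⟫_ℂ
    have : Continuous ψ := AddMonoidHomClass.continuous_of_bound ψ 1 fun a => by
      rw [one_mul]; exact NonUnitalStarAlgHom.norm_apply_le ψ a
    fun_prop
  let h : A →L[ℂ] ℂ := ⟨φ, hφc⟩
  have hh : ∀ a, h a = ⟪dirac (1 : Gam), ψ a (dirac 1)⟫_ℂ := fun a => rfl
  have hsq : ∀ a, h (star a * a) = ⟪ψ a (dirac 1), ψ a (dirac 1)⟫_ℂ := by
    intro a
    rw [hh, map_mul, map_star, ContinuousLinearMap.star_eq_adjoint, ContinuousLinearMap.mul_apply,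
      ContinuousLinearMap.adjoint_inner_right]
  have hτ : ∀ g, h (L g : A) = if g = 1 then 1 else 0 := by
    intro g
    rw [hh, hψ, hΛ, inner_dirac, lam_apply, dirac_apply]
    simp only [mul_one, inv_eq_one]
  refine ⟨A, inferInstance, U, Δ, h, h1, h2, hq.hΔ, ⟨?_, ?_, ?_⟩, ?_,
    fun Q => gamma_finite hL tri hq hΔ hε Q⟩
  · have := hτ 1
    rw [map_one, if_pos rfl] at this
    exact this
  · intro a
    rw [hsq, inner_self_eq_norm_sq_to_K]
    exact pow_nonneg (Complex.zero_le_real.2 (norm_nonneg (ψ a (dirac 1)))) 2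
  · intro a
    exact haar_twist hL tri hΔ (h.toLinearMap ∘ₗ (Pol U).subtype.toAlgHom.toLinearMap) hτ a
  · intro hc
    have hinj : Function.Injective ψ := by
      rw [injective_iff_map_eq_zero]
      intro a ha
      refine hc a fun b => ?_
      rw [hsq, map_mul, ha, zero_mul]
      simp
    obtain ⟨g, hg⟩ := exists_small_norm
    have e1 : ψ ((∑ i, L (g i) : Pol U) : A) = ∑ i, lam Gam (g i) := by
      rw [hψ, map_sum]
      simp only [hΛ]
    have e2 : E ((∑ i, L (g i) : Pol U) : A) = 5 := by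
      rw [hE, map_sum]
      simp [hε]
    have e3 := NonUnitalStarAlgHom.norm_map ψ hinj ((∑ i, L (g i) : Pol U) : A)
    have e4 := NonUnitalStarAlgHom.norm_apply_le E ((∑ i, L (g i) : Pol U) : A)
    rw [e2, ← e3, e1] at e4
    norm_num at e4
    linarith

end Pool.Agent.H287Z.QG
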