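import Mathlib
import Pool.Agent.H287Z.QG.Defs

set_option autoImplicit false

open scoped TensorProduct

noncomputable section

namespace Pool.Agent.H287Z.QG

variable {A : Type} [CStarAlgebra A]
variable {P : Type} [Ring P] [StarRing P] [Algebra ℂ P] [StarModule ℂ P]

/-- `B ⊗ B` inside `P ⊗ P`. -/
def tensorSq (B : StarSubalgebra ℂ P) : Submodule ℂ (P ⊗[ℂ] P) :=
  Submodule.span ℂ {t | ∃ x ∈ B, ∃ y ∈ B, t = x ⊗ₜ[ℂ] y}

/-- `G` is connected: it has no finite quantum group quotient `G → F` with `F ≠ {1}`, that is, the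
only finite-dimensional unital *-subalgebra `B` of `Pol(G)` with `Δ(B) ⊂ B ⊗ B` is `ℂ 1`. -/
def Connected (Δ : P →⋆ₐ[ℂ] P ⊗[ℂ] P) : Prop :=
  ∀ B : StarSubalgebra ℂ P, FiniteDimensional ℂ B → (∀ b ∈ B, Δ b ∈ tensorSq B) → B = ⊥

/-- `C(G)_central`: the norm closure of the linear span of the characters of the irreducible
finite-dimensional unitary corepresentations. -/
def Central (j : P →⋆ₐ[ℂ] A) (Δ : P →⋆ₐ[ℂ] P ⊗[ℂ] P) : Set A :=
  closure (Submodule.span ℂ {a | ∃ r : Irrep Δ, a = j (∑ i, r.mat i i)} : Set A)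

end Pool.Agent.H287Z.QG
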