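import Mathlib
import Pool.Agent.H287Z.QG.Ell2

set_option autoImplicit false
set_option linter.unusedSectionVars false
set_option linter.unusedSimpArgs false

open scoped TensorProduct

noncomputable section

namespace Pool.Agent.H287Z.QG

variable {R 𝒜 : Type} [Ring R] [StarRing R] [Algebra ℂ R] [StarModule ℂ R]
  [Ring 𝒜] [StarRing 𝒜] [Algebra ℂ 𝒜] [StarModule ℂ 𝒜] {Γ : Type} [Group Γ]

/-- `𝒜` is the algebraic crossed product of `R` by the action `α` of `Γ`. -/
structure CrossAlg (α : Γ → R →⋆ₐ[ℂ] R) (m : R →⋆ₐ[ℂ] 𝒜) (L : Γ →* 𝒜) : Prop where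
  star_eq : ∀ g, star (L g) = L g⁻¹
  comm : ∀ g f, L g * m f = m (α g f) * L g
  span : Submodule.span ℂ {a | ∃ f g, a = m f * L g} = ⊤
  inj : ∀ F : Γ →₀ R, (F.sum fun g f => m f * L g) = 0 → F = 0

section
variable {α : Γ → R →⋆ₐ[ℂ] R} {m : R →⋆ₐ[ℂ] 𝒜} {L : Γ →* 𝒜}

theorem CrossAlg.induction (h : CrossAlg α m L) {p : 𝒜 → Prop} (h1 : ∀ f g, p (m f * L g))
    (h0 : p 0) (h2 : ∀ x y, p x → p y → p (x + y)) (a : 𝒜) : p a := by
  have ha : a ∈ Submodule.span ℂ {a | ∃ f g, a = m f * L g} := by rw [h.span]; trivial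
  have key : ∀ c : ℂ, p (c • a) := by
    induction ha using Submodule.span_induction with
    | mem x hx =>
      obtain ⟨f, g, rfl⟩ := hx
      intro c
      rw [← smul_mul_assoc, ← map_smul]
      exact h1 _ _
    | zero => intro c; rw [smul_zero]; exact h0
    | add x y _ _ hx hy => intro c; rw [smul_add]; exact h2 _ _ (hx c) (hy c)
    | smul d x _ hx => intro c; rw [smul_smul]; exact hx _
  simpa using key 1

theorem CrossAlg.exists_linear (h : CrossAlg α m L) {C : Type} [AddCommGroup C] [Module ℂ C]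
    (φ : Γ → R →ₗ[ℂ] C) : ∃ Φ : 𝒜 →ₗ[ℂ] C, ∀ f g, Φ (m f * L g) = φ g f := by
  let T : (Γ →₀ R) →ₗ[ℂ] 𝒜 :=
    Finsupp.lsum ℂ fun g => (LinearMap.mulRight ℂ (L g)).comp m.toAlgHom.toLinearMap
  have hT : LinearMap.ker T = ⊥ := by
    rw [LinearMap.ker_eq_bot']
    intro F hF
    exact h.inj F hF
  obtain ⟨G, hG⟩ := T.exists_leftInverse_of_injective hT
  refine ⟨(Finsupp.lsum ℂ φ).comp G, fun f g => ?_⟩
  have h1 : m f * L g = T (Finsupp.single g f) := by
    simp [T]
  have h2 : G (T (Finsupp.single g f)) = Finsupp.single g f := LinearMap.congr_fun hG _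
  rw [h1, LinearMap.comp_apply, h2]
  simp

theorem CrossAlg.exists_lift (h : CrossAlg α m L) {C : Type} [Ring C] [StarRing C] [Algebra ℂ C]
    [StarModule ℂ C] (m' : R →⋆ₐ[ℂ] C) (L' : Γ →* C) (hs : ∀ g, star (L' g) = L' g⁻¹)
    (hc : ∀ g f, L' g * m' f = m' (α g f) * L' g) :
    ∃ Φ : 𝒜 →⋆ₐ[ℂ] C, (∀ f, Φ (m f) = m' f) ∧ ∀ g, Φ (L g) = L' g := by
  obtain ⟨Φ, hΦ⟩ := h.exists_linear
    fun g => (LinearMap.mulRight ℂ (L' g)).comp m'.toAlgHom.toLinearMap
  replace hΦ : ∀ f g, Φ (m f * L g) = m' f * L' g := hΦ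
  have hm : ∀ f, Φ (m f) = m' f := fun f => by simpa using hΦ f 1
  have hL : ∀ g, Φ (L g) = L' g := fun g => by simpa using hΦ 1 g
  have hone : Φ 1 = 1 := by rw [← map_one L, hL, map_one]
  have hmul : ∀ x y, Φ (x * y) = Φ x * Φ y := by
    intro x y
    refine h.induction (p := fun x => Φ (x * y) = Φ x * Φ y) ?_ (by simp) ?_ x
    · intro f g
      refine h.induction (p := fun y => Φ (m f * L g * y) = Φ (m f * L g) * Φ y) ?_ (by simp) ?_ y
      · intro f' k
        have e1 : m f * L g * (m f' * L k) = m (f * α g f') * L (g * k) := by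
          rw [map_mul, map_mul, mul_assoc, ← mul_assoc (L g), h.comm]
          simp only [mul_assoc]
        rw [e1, hΦ, hΦ, hΦ, map_mul, map_mul, mul_assoc (m' f) (L' g), ← mul_assoc (L' g), hc]
        simp only [mul_assoc]
      · intro x y hx hy
        rw [mul_add, map_add, map_add, hx, hy, mul_add]
    · intro x z hx hz
      rw [add_mul, map_add, map_add, hx, hz, add_mul]
  have hstar : ∀ x, Φ (star x) = star (Φ x) := by
    intro x
    refine h.induction (p := fun x => Φ (star x) = star (Φ x)) ?_ (by simp) ?_ x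
    · intro f g
      rw [star_mul, h.star_eq, ← map_star, h.comm, hΦ, hΦ, star_mul, hs, ← map_star, hc]
    · intro x y hx hy
      rw [star_add, map_add, map_add, hx, hy, star_add]
  refine ⟨{ toFun := Φ, map_one' := hone, map_mul' := hmul, map_zero' := map_zero Φ,
            map_add' := map_add Φ, commutes' := ?_, map_star' := hstar }, hm, hL⟩
  intro r
  rw [Algebra.algebraMap_eq_smul_one, map_smul, hone, Algebra.algebraMap_eq_smul_one]

open Classical in
theorem CrossAlg.exists_coef (h : CrossAlg α m L) (g : Γ) :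
    ∃ E : 𝒜 →ₗ[ℂ] R, ∀ f k, E (m f * L k) = if k = g then f else 0 := by
  obtain ⟨E, hE⟩ := h.exists_linear fun k => if k = g then LinearMap.id else 0
  refine ⟨E, fun f k => ?_⟩
  rw [hE]
  split_ifs <;> rfl

theorem CrossAlg.exists_finsupp (h : CrossAlg α m L) (a : 𝒜) :
    ∃ F : Γ →₀ R, a = F.sum fun g f => m f * L g := by
  refine h.induction (p := fun a => ∃ F : Γ →₀ R, a = F.sum fun g f => m f * L g) ?_ ?_ ?_ a
  · intro f g
    exact ⟨Finsupp.single g f, by simp⟩
  · exact ⟨0, by simp⟩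
  · rintro x y ⟨F, rfl⟩ ⟨G, rfl⟩
    refine ⟨F + G, ?_⟩
    rw [Finsupp.sum_add_index' (by simp) (by intros; rw [map_add, add_mul])]

end

section
variable {B : Type} [Ring B] [StarRing B] [Algebra ℂ B] [StarModule ℂ B]

/-- the *-algebra generated by a covariant pair -/
def CA (m : R →⋆ₐ[ℂ] B) (L : Γ →* B) : StarSubalgebra ℂ B :=
  StarAlgebra.adjoin ℂ (Set.range m ∪ Set.range L)

def mCA (m : R →⋆ₐ[ℂ] B) (L : Γ →* B) : R →⋆ₐ[ℂ] CA m L :=
  m.codRestrict _ fun f => StarAlgebra.subset_adjoin ℂ _ (Or.inl ⟨f, rfl⟩)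

def LCA (m : R →⋆ₐ[ℂ] B) (L : Γ →* B) : Γ →* CA m L where
  toFun g := ⟨L g, StarAlgebra.subset_adjoin ℂ _ (Or.inr ⟨g, rfl⟩)⟩
  map_one' := Subtype.ext (map_one L)
  map_mul' g h := Subtype.ext (map_mul L g h)

theorem crossAlg_CA (α : Γ → R →⋆ₐ[ℂ] R) (m : R →⋆ₐ[ℂ] B) (L : Γ →* B)
    (hs : ∀ g, star (L g) = L g⁻¹) (hc : ∀ g f, L g * m f = m (α g f) * L g)
    (hinj : ∀ F : Γ →₀ R, (F.sum fun g f => m f * L g) = 0 → F = 0) :
    CrossAlg α (mCA m L) (LCA m L) := by
  have hstar : ∀ g, star (LCA m L g) = LCA m L g⁻¹ := fun g => Subtype.ext (hs g)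
  have hcomm : ∀ g f, LCA m L g * mCA m L f = mCA m L (α g f) * LCA m L g :=
    fun g f => Subtype.ext (hc g f)
  refine ⟨hstar, hcomm, ?_, ?_⟩
  · rw [eq_top_iff]
    rintro ⟨x, hx⟩ -
    set V := Submodule.span ℂ {a | ∃ f g, a = mCA m L f * LCA m L g} with hV
    have hmul : ∀ x ∈ V, ∀ y ∈ V, x * y ∈ V := by
      intro x hx y hy
      have : V * V ≤ V := by
        rw [hV, Submodule.span_mul_span, Submodule.span_le]
        rintro _ ⟨_, ⟨f, g, rfl⟩, _, ⟨f', h, rfl⟩, rfl⟩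
        refine Submodule.subset_span ⟨f * α g f', g * h, ?_⟩
        show mCA m L f * LCA m L g * (mCA m L f' * LCA m L h) = _
        rw [map_mul, map_mul, mul_assoc, ← mul_assoc (LCA m L g), hcomm]
        simp only [mul_assoc]
      exact this (Submodule.mul_mem_mul hx hy)
    have hst : ∀ z ∈ V, star z ∈ V := by
      intro z hz
      induction hz using Submodule.span_induction with
      | mem x hx =>
        obtain ⟨f, g, rfl⟩ := hx
        rw [star_mul, hstar, ← map_star, hcomm]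
        exact Submodule.subset_span ⟨_, _, rfl⟩
      | zero => rw [star_zero]; exact zero_mem _
      | add x y _ _ hx hy => rw [star_add]; exact add_mem hx hy
      | smul c x _ hx => rw [star_smul]; exact V.smul_mem _ hx
    induction hx using StarAlgebra.adjoin_induction with
    | mem x hx =>
      rcases hx with ⟨f, rfl⟩ | ⟨g, rfl⟩
      · exact Submodule.subset_span ⟨f, 1, by rw [map_one, mul_one]; rfl⟩
      · exact Submodule.subset_span ⟨1, g, by rw [map_one, one_mul]; rfl⟩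
    | algebraMap r =>
      have : (1 : CA m L) ∈ V := Submodule.subset_span ⟨1, 1, by simp⟩
      have h2 := V.smul_mem r this
      rw [← Algebra.algebraMap_eq_smul_one] at h2
      exact h2
    | add x y _ _ hx hy => exact add_mem hx hy
    | mul x y _ _ hx hy => exact hmul _ hx _ hy
    | star x hx' hx => exact hst ⟨x, hx'⟩ hx
  · intro F hF
    apply hinj
    have := congrArg (CA m L).subtype hF
    rw [map_finsuppSum, map_zero] at this
    simp only [map_mul] at this
    exact this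

end

theorem CrossAlg.map {α : Γ → R →⋆ₐ[ℂ] R} {m : R →⋆ₐ[ℂ] 𝒜} {L : Γ →* 𝒜} (h : CrossAlg α m L)
    {C : Type} [Ring C] [StarRing C] [Algebra ℂ C] [StarModule ℂ C] (e : 𝒜 ≃⋆ₐ[ℂ] C) :
    CrossAlg α ((e : 𝒜 →⋆ₐ[ℂ] C).comp m)
      ((e.toAlgEquiv.toAlgHom.toRingHom.toMonoidHom).comp L) := by
  refine ⟨?_, ?_, ?_, ?_⟩
  · intro g
    show star (e (L g)) = e (L g⁻¹)
    rw [← map_star, h.star_eq]
  · intro g f
    show e (L g) * e (m f) = e (m (α g f)) * e (L g)
    rw [← map_mul, ← map_mul, h.comm]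
  · rw [eq_top_iff]
    intro y _
    obtain ⟨x, rfl⟩ := e.surjective y
    refine h.induction (p := fun x => e x ∈ Submodule.span ℂ
      {a | ∃ f g, a = ((e : 𝒜 →⋆ₐ[ℂ] C).comp m) f *
        ((e.toAlgEquiv.toAlgHom.toRingHom.toMonoidHom).comp L) g}) ?_ ?_ ?_ x
    · intro f g
      exact Submodule.subset_span ⟨f, g, map_mul e _ _⟩
    · rw [map_zero]; exact zero_mem _
    · intro x y hx hy
      rw [map_add]; exact add_mem hx hy
  · intro F hF
    apply h.inj
    apply e.injective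
    rw [map_finsuppSum, map_zero]
    simp only [map_mul]
    exact hF

/-- a *-homomorphism factors through an injective one as soon as the generators do -/
theorem exists_of_inj {n : Type} {C D : Type} [Ring C] [StarRing C] [Algebra ℂ C]
    [StarModule ℂ C] [Ring D] [StarRing D] [Algebra ℂ D] [StarModule ℂ D] (v : Matrix n n R)
    (gen : StarAlgebra.adjoin ℂ {a | ∃ i j, a = v i j} = ⊤) (μ : C →⋆ₐ[ℂ] D)
    (hμ : Function.Injective μ) (Φ : R →⋆ₐ[ℂ] D) (h : ∀ i j, ∃ c, μ c = Φ (v i j)) :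
    ∃ Ψ : R →⋆ₐ[ℂ] C, ∀ a, μ (Ψ a) = Φ a := by
  have hmem : ∀ a, ∃ c, μ c = Φ a := by
    intro a
    have ha : a ∈ StarAlgebra.adjoin ℂ {a | ∃ i j, a = v i j} := by rw [gen]; trivial
    induction ha using StarAlgebra.adjoin_induction with
    | mem x hx => obtain ⟨i, j, rfl⟩ := hx; exact h i j
    | algebraMap r => exact ⟨algebraMap ℂ C r, by simp [AlgHomClass.commutes]⟩
    | add x y _ _ hx hy =>
      obtain ⟨c, hc⟩ := hx
      obtain ⟨d, hd⟩ := hy
      exact ⟨c + d, by rw [map_add, map_add, hc, hd]⟩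
    | mul x y _ _ hx hy =>
      obtain ⟨c, hc⟩ := hx
      obtain ⟨d, hd⟩ := hy
      exact ⟨c * d, by rw [map_mul, map_mul, hc, hd]⟩
    | star x _ hx =>
      obtain ⟨c, hc⟩ := hx
      exact ⟨star c, by rw [map_star, map_star, hc]⟩
  choose ψ hψ using hmem
  refine ⟨{ toFun := ψ, map_one' := hμ ?_, map_mul' := fun x y => hμ ?_, map_zero' := hμ ?_,
            map_add' := fun x y => hμ ?_, commutes' := fun r => hμ ?_,
            map_star' := fun x => hμ ?_ }, hψ⟩
  · rw [hψ, map_one, map_one]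
  · rw [hψ, map_mul, map_mul, hψ, hψ]
  · rw [hψ, map_zero, map_zero]
  · rw [hψ, map_add, map_add, hψ, hψ]
  · rw [hψ, AlgHomClass.commutes, AlgHomClass.commutes]
  · rw [hψ, map_star, map_star, hψ]

end Pool.Agent.H287Z.QG
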