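import Mathlib
import Pool.Agent.H287Z.QG.Cross
import Pool.Agent.H287Z.QG.Torus

set_option autoImplicit false
set_option linter.unusedSectionVars false
set_option linter.unusedSimpArgs false

open scoped TensorProduct

noncomputable section

namespace Pool.Agent.H287Z.QG

/-- precomposition -/
def pre {X Y : Type} (θ : X → Y) : (Y → ℂ) →⋆ₐ[ℂ] (X → ℂ) where
  toFun f := fun x => f (θ x)
  map_one' := rfl
  map_mul' _ _ := rfl
  map_zero' := rfl
  map_add' _ _ := rfl
  commutes' _ := rfl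
  map_star' _ := rfl

section
variable {R : Type} [Ring R] [StarRing R] [Algebra ℂ R] [StarModule ℂ R]

def inL (R : Type) [Ring R] [StarRing R] [Algebra ℂ R] [StarModule ℂ R] : R →⋆ₐ[ℂ] R ⊗[ℂ] R :=
  { (Algebra.TensorProduct.includeLeft : R →ₐ[ℂ] R ⊗[ℂ] R) with
    map_star' := fun x => by
      show star x ⊗ₜ[ℂ] (1 : R) = star (x ⊗ₜ[ℂ] (1 : R))
      rw [TensorProduct.star_tmul, star_one] }

def inR (R : Type) [Ring R] [StarRing R] [Algebra ℂ R] [StarModule ℂ R] : R →⋆ₐ[ℂ] R ⊗[ℂ] R :=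
  { (Algebra.TensorProduct.includeRight : R →ₐ[ℂ] R ⊗[ℂ] R) with
    map_star' := fun x => by
      show (1 : R) ⊗ₜ[ℂ] star x = star ((1 : R) ⊗ₜ[ℂ] x)
      rw [TensorProduct.star_tmul, star_one] }

theorem inL_apply (x : R) : inL R x = x ⊗ₜ[ℂ] (1 : R) := rfl
theorem inR_apply (x : R) : inR R x = (1 : R) ⊗ₜ[ℂ] x := rfl

variable {C : Type} [Ring C] [StarRing C] [Algebra ℂ C] [StarModule ℂ C]

/-- `m ⊗ m` -/
def tmap (m : R →⋆ₐ[ℂ] C) : R ⊗[ℂ] R →⋆ₐ[ℂ] C ⊗[ℂ] C :=
  tlift ((inL C).comp m) ((inR C).comp m) fun a b => by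
    simp [inL_apply, inR_apply]

theorem tmap_tmul (m : R →⋆ₐ[ℂ] C) (a b : R) : tmap m (a ⊗ₜ b) = m a ⊗ₜ m b := by
  rw [tmap, tlift_tmul]
  simp [inL_apply, inR_apply]

variable {K : Type}

/-- functions of two variables -/
def mu (ev : R →⋆ₐ[ℂ] (K → ℂ)) : R ⊗[ℂ] R →⋆ₐ[ℂ] (K × K → ℂ) :=
  tlift ((pre Prod.fst).comp ev) ((pre Prod.snd).comp ev) fun _ _ => mul_comm _ _

theorem mu_tmul (ev : R →⋆ₐ[ℂ] (K → ℂ)) (a b : R) (x y : K) :
    mu ev (a ⊗ₜ b) (x, y) = ev a x * ev b y := by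
  rw [mu, tlift_tmul]
  rfl

theorem mu_injective (ev : R →⋆ₐ[ℂ] (K → ℂ)) (hinj : Function.Injective ev) :
    Function.Injective (mu ev) := by
  rw [injective_iff_map_eq_zero]
  intro t ht
  let b := Module.Free.chooseBasis ℂ R
  obtain ⟨F, rfl⟩ := TensorProduct.eq_repr_basis_right b t
  have h1 : ∀ x i, ev (F i) x = 0 := by
    intro x i
    have h2 : (F.sum fun i m => ev m x • b i) = 0 := by
      apply hinj
      ext y
      have := congrFun ht (x, y)
      rw [map_finsuppSum, Finsupp.sum, Finset.sum_apply] at this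
      rw [map_finsuppSum, Finsupp.sum, Finset.sum_apply, map_zero]
      simpa [mu_tmul] using this
    by_cases hi : i ∈ F.support
    · exact linearIndependent_iff'.1 b.linearIndependent F.support (fun i => ev (F i) x) h2 i hi
    · rw [Finsupp.notMem_support_iff.1 hi, map_zero]
      rfl
  have : F = 0 := by
    ext i
    apply hinj
    ext x
    rw [h1]
    simp
  rw [this]
  simp

/-- evaluation at a point -/
def evp (ev : R →⋆ₐ[ℂ] (K → ℂ)) (x : K) : R →⋆ₐ[ℂ] ℂ :=
  (Pi.evalStarAlgHom ℂ (fun _ : K => ℂ) x).comp ev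

theorem evp_apply (ev : R →⋆ₐ[ℂ] (K → ℂ)) (x : K) (a : R) : evp ev x a = ev a x := rfl

end

variable {R : Type} [Ring R] [StarRing R] [Algebra ℂ R] [StarModule ℂ R]
variable {K : Type} [Group K] {n : Type} [Fintype n] [DecidableEq n]

/-- `R` is the *-algebra of functions on `K` generated by the coefficients of a unitary
representation -/
structure FunAlg (vf : K →* Matrix n n ℂ) (ev : R →⋆ₐ[ℂ] (K → ℂ)) (v : Matrix n n R) : Prop where
  inv : ∀ k, vf k⁻¹ = star (vf k)
  inj : Function.Injective ev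
  gen : StarAlgebra.adjoin ℂ {a | ∃ i j, a = v i j} = ⊤
  val : ∀ i j k, ev (v i j) k = vf k i j

theorem exists_funAlg (vf : K →* Matrix n n ℂ) (hv : ∀ k, vf k⁻¹ = star (vf k)) :
    ∃ (R : Type) (_ : Ring R) (_ : StarRing R) (_ : Algebra ℂ R) (_ : StarModule ℂ R)
      (ev : R →⋆ₐ[ℂ] (K → ℂ)) (v : Matrix n n R), FunAlg vf ev v := by
  let S : StarSubalgebra ℂ (K → ℂ) := StarAlgebra.adjoin ℂ {f | ∃ i j, f = fun k => vf k i j}
  let v : Matrix n n S := fun i j => ⟨fun k => vf k i j, StarAlgebra.subset_adjoin ℂ _ ⟨i, j, rfl⟩⟩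
  refine ⟨S, inferInstance, inferInstance, inferInstance, inferInstance, S.subtype, v, hv,
    Subtype.val_injective, ?_, fun _ _ _ => rfl⟩
  rw [eq_top_iff]
  rintro ⟨x, hx⟩ -
  induction hx using StarAlgebra.adjoin_induction with
  | mem x hx => obtain ⟨i, j, rfl⟩ := hx; exact StarAlgebra.subset_adjoin ℂ _ ⟨i, j, rfl⟩
  | algebraMap r => exact algebraMap_mem _ r
  | add x y _ _ hx hy => exact add_mem hx hy
  | mul x y _ _ hx hy => exact mul_mem hx hy
  | star x hx' hx => exact star_mem hx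

namespace FunAlg

variable {vf : K →* Matrix n n ℂ} {ev : R →⋆ₐ[ℂ] (K → ℂ)} {v : Matrix n n R} (h : FunAlg vf ev v)
include h

theorem ext {a b : R} (e : ∀ x, ev a x = ev b x) : a = b := h.inj (funext e)

theorem comm (a b : R) : a * b = b * a := h.inj (by rw [map_mul, map_mul, mul_comm])

theorem induction {p : R → Prop} (h1 : ∀ i j, p (v i j))
    (h2 : ∀ c : ℂ, p (algebraMap ℂ R c)) (h3 : ∀ x y, p x → p y → p (x + y))
    (h4 : ∀ x y, p x → p y → p (x * y)) (h5 : ∀ x, p x → p (star x)) (a : R) : p a := by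
  have ha : a ∈ StarAlgebra.adjoin ℂ {a | ∃ i j, a = v i j} := by rw [h.gen]; trivial
  induction ha using StarAlgebra.adjoin_induction with
  | mem x hx => obtain ⟨i, j, rfl⟩ := hx; exact h1 i j
  | algebraMap r => exact h2 r
  | add x y _ _ hx hy => exact h3 x y hx hy
  | mul x y _ _ hx hy => exact h4 x y hx hy
  | star x _ hx => exact h5 x hx

theorem vf_unit (k : K) : vf k ∈ unitary (Matrix n n ℂ) := by
  rw [Unitary.mem_iff, ← h.inv, ← map_mul, ← map_mul, inv_mul_cancel, mul_inv_cancel, map_one]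
  exact ⟨rfl, rfl⟩

theorem unit : v ∈ unitary (Matrix n n R) := by
  rw [mem_unitary_iff_sum]
  constructor
  · intro i j
    refine h.ext fun x => ?_
    have := ((mem_unitary_iff_sum _).1 (h.vf_unit x)).1 i j
    rw [map_sum, Finset.sum_apply]
    simp only [map_mul, map_star, Pi.mul_apply, Pi.star_apply, h.val, this]
    split_ifs <;> simp
  · intro i j
    refine h.ext fun x => ?_
    have := ((mem_unitary_iff_sum _).1 (h.vf_unit x)).2 i j
    rw [map_sum, Finset.sum_apply]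
    simp only [map_mul, map_star, Pi.mul_apply, Pi.star_apply, h.val, this]
    split_ifs <;> simp

theorem bounded (a : R) : ∃ C : ℝ, ∀ k, ‖ev a k‖ ≤ C := by
  refine h.induction (p := fun a => ∃ C : ℝ, ∀ k, ‖ev a k‖ ≤ C) ?_ ?_ ?_ ?_ ?_ a
  · intro i j
    exact ⟨1, fun k => by rw [h.val]; exact norm_entry_le (h.vf_unit k) i j⟩
  · intro c
    exact ⟨‖c‖, fun k => by rw [AlgHomClass.commutes]; exact le_rfl⟩
  · rintro x y ⟨C, hC⟩ ⟨D, hD⟩
    exact ⟨C + D, fun k => by
      rw [map_add]; exact (norm_add_le _ _).trans (add_le_add (hC k) (hD k))⟩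
  · rintro x y ⟨C, hC⟩ ⟨D, hD⟩
    exact ⟨C * D, fun k => by
      rw [map_mul]
      exact (norm_mul_le _ _).trans
        (mul_le_mul (hC k) (hD k) (norm_nonneg _) ((norm_nonneg _).trans (hC k)))⟩
  · rintro x ⟨C, hC⟩
    exact ⟨C, fun k => by rw [map_star, Pi.star_apply, norm_star]; exact hC k⟩

theorem continuous [TopologicalSpace K] (hc : ∀ i j, Continuous fun k => vf k i j) (a : R) :
    Continuous (ev a) := by
  refine h.induction (p := fun a => Continuous (ev a)) ?_ ?_ ?_ ?_ ?_ a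
  · intro i j
    have : ev (v i j) = fun k => vf k i j := funext (h.val i j)
    rw [this]; exact hc i j
  · intro c
    rw [AlgHomClass.commutes]; exact continuous_const
  · intro x y hx hy
    rw [map_add]; exact hx.add hy
  · intro x y hx hy
    rw [map_mul]; exact hx.mul hy
  · intro x hx
    rw [map_star]; exact hx.star

theorem mu_comul (i j : n) :
    mu ev (∑ k, v i k ⊗ₜ[ℂ] v k j) = (pre fun p : K × K => p.1 * p.2).comp ev (v i j) := by
  ext ⟨x, y⟩
  rw [map_sum, Finset.sum_apply]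
  show _ = ev (v i j) (x * y)
  simp only [mu_tmul, h.val, map_mul, Matrix.mul_apply]

theorem exists_comul : ∃ Δ : R →⋆ₐ[ℂ] R ⊗[ℂ] R, (∀ a x y, mu ev (Δ a) (x, y) = ev a (x * y)) ∧
    IsComul Δ v := by
  obtain ⟨Δ, hΔ⟩ := exists_of_inj v h.gen (mu ev) (mu_injective ev h.inj)
    ((pre fun p : K × K => p.1 * p.2).comp ev) fun i j => ⟨_, h.mu_comul i j⟩
  refine ⟨Δ, fun a x y => by rw [hΔ]; rfl, fun i j => mu_injective ev h.inj ?_⟩
  rw [hΔ, h.mu_comul]

theorem exists_inv : ∃ ι : R →⋆ₐ[ℂ] R, (∀ a x, ev (ι a) x = ev a x⁻¹) ∧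
    ∀ i j, ι (v i j) = star (v j i) := by
  have key : ∀ i j, ev (star (v j i)) = (pre fun x : K => x⁻¹).comp ev (v i j) := by
    intro i j
    ext x
    show _ = ev (v i j) x⁻¹
    rw [map_star, Pi.star_apply, h.val, h.val, h.inv, Matrix.star_apply]
  obtain ⟨ι, hι⟩ := exists_of_inj v h.gen ev h.inj ((pre fun x : K => x⁻¹).comp ev)
    fun i j => ⟨_, key i j⟩
  refine ⟨ι, fun a x => by rw [hι]; rfl, fun i j => h.inj ?_⟩
  rw [hι, key]

theorem exists_conj (c : K) : ∃ α : R →⋆ₐ[ℂ] R, (∀ a x, ev (α a) x = ev a (c⁻¹ * x * c)) ∧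
    v.map α = sc R (star (vf c)) * v * sc R (vf c) := by
  have key : ∀ i j, ev ((sc R (star (vf c)) * v * sc R (vf c)) i j) =
      (pre fun x : K => c⁻¹ * x * c).comp ev (v i j) := by
    intro i j
    ext x
    show _ = ev (v i j) (c⁻¹ * x * c)
    rw [sc_mul_apply, h.val, map_mul, map_mul, h.inv]
    simp only [map_sum, map_smul, Finset.sum_apply, Pi.smul_apply, h.val, Matrix.mul_apply,
      smul_eq_mul, Finset.sum_mul]
    rw [Finset.sum_comm]
    refine Finset.sum_congr rfl fun k _ => Finset.sum_congr rfl fun l _ => ?_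
    ring
  obtain ⟨α, hα⟩ := exists_of_inj v h.gen ev h.inj ((pre fun x : K => c⁻¹ * x * c).comp ev)
    fun i j => ⟨_, key i j⟩
  refine ⟨α, fun a x => by rw [hα]; rfl, ?_⟩
  ext i j
  apply h.inj
  rw [Matrix.map_apply, hα, key]

end FunAlg

end Pool.Agent.H287Z.QG
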