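import Mathlib
import Pool.Agent.H287Z.QG.Torus

set_option autoImplicit false
set_option linter.unusedSectionVars false
set_option linter.unusedSimpArgs false

open scoped TensorProduct Matrix

noncomputable section

namespace Pool.Agent.H287Z.QG

variable {P : Type} [Ring P] [StarRing P] [Algebra ℂ P] [StarModule ℂ P]
variable {Δ : P →⋆ₐ[ℂ] P ⊗[ℂ] P}

theorem intertwines_iff {ι κ : Type} [Fintype ι] [Fintype κ] (T : Matrix κ ι ℂ) (r : Matrix ι ι P)
    (s : Matrix κ κ P) : Intertwines T r s ↔ sc P T * r = s * sc P T := Iff.rfl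

theorem sc_add {ι κ : Type} (T T' : Matrix ι κ ℂ) : sc P (T + T') = sc P T + sc P T' := by
  ext i j; simp [sc]

theorem sc_smul {ι κ : Type} (c : ℂ) (T : Matrix ι κ ℂ) : sc P (c • T) = c • sc P T := by
  ext i j; simp [sc, Algebra.smul_def]

theorem sc_sub {ι κ : Type} (T T' : Matrix ι κ ℂ) : sc P (T - T') = sc P T - sc P T' := by
  ext i j; simp [sc]

theorem comm_adjoint {ι : Type} [Fintype ι] [DecidableEq ι] {w : Matrix ι ι P}
    (hw : w ∈ unitary (Matrix ι ι P)) {T : Matrix ι ι ℂ} (h : sc P T * w = w * sc P T) :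
    sc P Tᴴ * w = w * sc P Tᴴ := by
  obtain ⟨h1, h2⟩ := Unitary.mem_iff.1 hw
  have h3 := congrArg star h
  rw [star_mul, star_mul, Matrix.star_eq_conjTranspose (sc P T), sc_conjTranspose] at h3
  calc sc P Tᴴ * w = w * (star w * sc P Tᴴ) * w := by rw [← mul_assoc, h2, one_mul]
    _ = w * sc P Tᴴ * (star w * w) := by rw [h3]; simp only [mul_assoc]
    _ = _ := by rw [h1, mul_one]

theorem exists_split {ι : Type} [Fintype ι] [DecidableEq ι] {w : Matrix ι ι P}
    (hw : w ∈ unitary (Matrix ι ι P)) {T : Matrix ι ι ℂ} (h : sc P T * w = w * sc P T)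
    (hT : ∀ c : ℂ, T ≠ c • 1) :
    ∃ (p : ι → Prop) (_ : DecidablePred p) (S₁ : Matrix ι {i // p i} ℂ)
      (S₂ : Matrix ι {i // ¬ p i} ℂ), (∃ i, p i) ∧ (∃ i, ¬ p i) ∧ S₁ᴴ * S₁ = 1 ∧ S₂ᴴ * S₂ = 1 ∧
      S₁ * S₁ᴴ + S₂ * S₂ᴴ = 1 ∧ sc P (S₁ * S₁ᴴ) * w = w * sc P (S₁ * S₁ᴴ) := by
  classical
  obtain ⟨H, hH, hc, hne⟩ : ∃ H : Matrix ι ι ℂ, H.IsHermitian ∧ sc P H * w = w * sc P H ∧
      ∀ c : ℂ, H ≠ c • 1 := by
    have h' := comm_adjoint hw h
    by_cases h1 : ∀ c : ℂ, T + Tᴴ ≠ c • 1
    · refine ⟨T + Tᴴ, Matrix.isHermitian_add_transpose_self T, ?_, h1⟩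
      rw [sc_add, add_mul, mul_add, h, h']
    · push Not at h1
      obtain ⟨c, hc⟩ := h1
      refine ⟨Complex.I • (T - Tᴴ), ?_, ?_, ?_⟩
      · unfold Matrix.IsHermitian
        rw [Matrix.conjTranspose_smul, Matrix.conjTranspose_sub,
          Matrix.conjTranspose_conjTranspose, Complex.star_def, Complex.conj_I, neg_smul,
          ← smul_neg, neg_sub]
      · rw [sc_smul, sc_sub, smul_mul_assoc, mul_smul_comm, sub_mul, mul_sub, h, h']
      · intro d hd
        apply hT ((c - Complex.I * d) / 2)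
        have e : T = (1 / 2 : ℂ) • ((T + Tᴴ) - Complex.I • (Complex.I • (T - Tᴴ))) := by
          rw [smul_smul, Complex.I_mul_I]
          module
        rw [e, hc, hd]
        module
  set U : Matrix ι ι ℂ := (hH.eigenvectorUnitary : Matrix ι ι ℂ) with hU
  have hU1 : Uᴴ * U = 1 := (Unitary.mem_iff.1 hH.eigenvectorUnitary.2).1
  have hU2 : U * Uᴴ = 1 := (Unitary.mem_iff.1 hH.eigenvectorUnitary.2).2
  set d : ι → ℂ := RCLike.ofReal ∘ hH.eigenvalues with hd
  have hspec : H = U * Matrix.diagonal d * Uᴴ := by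
    have := hH.spectral_theorem
    rw [Unitary.conjStarAlgAut_apply] at this
    exact this
  obtain ⟨i₀, i₁, hi⟩ : ∃ i₀ i₁, d i₁ ≠ d i₀ := by
    by_contra hcon
    push Not at hcon
    rcases isEmpty_or_nonempty ι with hι | ⟨⟨i₀⟩⟩
    · exact hne 0 (Subsingleton.elim _ _)
    · apply hne (d i₀)
      have : Matrix.diagonal d = d i₀ • (1 : Matrix ι ι ℂ) := by
        ext i j
        by_cases hij : i = j
        · subst hij; simp [hcon i₀ i]
        · simp [hij]
      rw [hspec, this, Matrix.mul_smul, Matrix.mul_one, Matrix.smul_mul, hU2]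
  have hsub : ∀ (q : ι → Prop) [DecidablePred q],
      (U.submatrix id (Subtype.val : {i // q i} → ι))ᴴ *
        U.submatrix id (Subtype.val : {i // q i} → ι) = 1 ∧
      U.submatrix id (Subtype.val : {i // q i} → ι) *
        (U.submatrix id (Subtype.val : {i // q i} → ι))ᴴ =
          U * Matrix.diagonal (fun i => if q i then (1 : ℂ) else 0) * Uᴴ := by
    intro q _
    constructor
    · ext i j
      have := congrFun (congrFun hU1 i.1) j.1
      simp only [Matrix.mul_apply, Matrix.conjTranspose_apply, Matrix.submatrix_apply, id,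
        Matrix.one_apply, Subtype.ext_iff] at this ⊢
      exact this
    · ext i j
      rw [Matrix.mul_apply, Matrix.mul_apply]
      simp only [Matrix.conjTranspose_apply, Matrix.submatrix_apply, id, Matrix.mul_diagonal,
        mul_ite, mul_one, mul_zero, ite_mul, zero_mul]
      rw [← Finset.sum_filter]
      exact (Finset.sum_subtype (Finset.univ.filter q) (by simp)
        (fun k => U i k * star (U j k))).symm
  let p : ι → Prop := fun i => d i = d i₀
  refine ⟨p, inferInstance, U.submatrix id Subtype.val, U.submatrix id Subtype.val, ⟨i₀, rfl⟩,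
    ⟨i₁, hi⟩, (hsub p).1, (hsub fun i => ¬ p i).1, ?_, ?_⟩
  · rw [(hsub p).2, (hsub fun i => ¬ p i).2, ← Matrix.add_mul, ← Matrix.mul_add,
      Matrix.diagonal_add]
    have : (fun i => (if p i then (1 : ℂ) else 0) + if ¬ p i then 1 else 0) = fun _ => 1 := by
      funext i
      by_cases hp : p i <;> simp [hp]
    rw [this, Matrix.diagonal_one, Matrix.mul_one, hU2]
  · rw [(hsub p).2]
    have s1 : sc P Uᴴ * sc P U = 1 := by rw [← sc_mul, hU1, sc_one]
    have s2 : sc P U * sc P Uᴴ = 1 := by rw [← sc_mul, hU2, sc_one]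
    set w' := sc P Uᴴ * w * sc P U with hw'
    have e1 : sc P (Matrix.diagonal d) * w' = w' * sc P (Matrix.diagonal d) := by
      rw [hspec, sc_mul, sc_mul] at hc
      calc sc P (Matrix.diagonal d) * w'
          = sc P Uᴴ * (sc P U * sc P (Matrix.diagonal d) * sc P Uᴴ * w) * sc P U := by
            rw [hw']
            simp only [← mul_assoc, s1, one_mul]
        _ = _ := by
            rw [hc, hw']
            simp only [mul_assoc, s1, mul_one]
    have hdiag : ∀ f : ι → ℂ, sc P (Matrix.diagonal f) =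
        Matrix.diagonal fun i => algebraMap ℂ P (f i) := by
      intro f
      exact Matrix.diagonal_map (map_zero _)
    have e2 : ∀ i j, d i ≠ d j → w' i j = 0 := by
      intro i j hij
      have := congrFun (congrFun e1 i) j
      rw [hdiag, Matrix.diagonal_mul, Matrix.mul_diagonal, ← Algebra.commutes, ← Algebra.smul_def,
        ← Algebra.smul_def, ← sub_eq_zero, ← sub_smul] at this
      exact (smul_eq_zero.1 this).resolve_left (sub_ne_zero.2 hij)
    have e3 : sc P (Matrix.diagonal fun i => if p i then (1 : ℂ) else 0) * w' =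
        w' * sc P (Matrix.diagonal fun i => if p i then (1 : ℂ) else 0) := by
      ext i j
      rw [hdiag, Matrix.diagonal_mul, Matrix.mul_diagonal]
      by_cases hij : d i = d j
      · have : p i ↔ p j := by simp only [p, hij]
        simp only [this, Algebra.commutes]
      · rw [e2 i j hij, mul_zero, zero_mul]
    have e4 : w = sc P U * w' * sc P Uᴴ := by
      rw [hw']
      simp only [← mul_assoc, s2, one_mul]
      rw [mul_assoc, s2, mul_one]
    rw [sc_mul, sc_mul, e4]
    calc sc P U * sc P (Matrix.diagonal fun i => if p i then (1 : ℂ) else 0) * sc P Uᴴ *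
          (sc P U * w' * sc P Uᴴ)
        = sc P U * (sc P (Matrix.diagonal fun i => if p i then (1 : ℂ) else 0) * w') *
            sc P Uᴴ := by
          simp only [mul_assoc]
          rw [← mul_assoc (sc P Uᴴ), s1, one_mul]
      _ = _ := by
          rw [e3]
          simp only [mul_assoc]
          rw [← mul_assoc (sc P Uᴴ), s1, one_mul]

/-- complete reducibility -/
theorem exists_decomp (n : ℕ) : ∀ (ι : Type) [Fintype ι] [DecidableEq ι] (w : Matrix ι ι P),
    Fintype.card ι ≤ n → IsCorep Δ w →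
    ∃ l : List (Σ r : Irrep Δ, Matrix ι (Fin r.dim) ℂ),
      (∀ x ∈ l, x.2ᴴ * x.2 = 1 ∧ Intertwines x.2 x.1.mat w) ∧
      (l.map fun x => x.2 * x.2ᴴ).sum = 1 := by
  induction n with
  | zero =>
    intro ι _ _ w hc _
    have : IsEmpty ι := Fintype.card_eq_zero_iff.1 (by omega)
    exact ⟨[], by simp, Subsingleton.elim _ _⟩
  | succ n ih =>
    intro ι _ _ w hc hw
    rcases isEmpty_or_nonempty ι with hι | hι
    · exact ⟨[], by simp, Subsingleton.elim _ _⟩
    by_cases hirr : ∀ T : Matrix ι ι ℂ, sc P T * w = w * sc P T → ∃ c : ℂ, T = c • 1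
    · let e : Fin (Fintype.card ι) ≃ ι := (Fintype.equivFin ι).symm
      let T : Matrix ι (Fin (Fintype.card ι)) ℂ := (1 : Matrix ι ι ℂ).submatrix id e
      have h1 : Tᴴ * T = 1 := by
        ext i j
        simp [T, Matrix.mul_apply, Matrix.one_apply, eq_comm]
      have h2 : T * Tᴴ = 1 := by
        ext i j
        refine (e.sum_comp (fun k => (1 : Matrix ι ι ℂ) i k * star ((1 : Matrix ι ι ℂ) j k))).trans ?_
        simp [Matrix.one_apply, eq_comm]
      obtain ⟨c1, c2⟩ := hw.compress T h1 (by rw [h2, sc_one, Matrix.one_mul, Matrix.mul_one])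
      let r : Irrep Δ :=
        { dim := Fintype.card ι
          mat := sc P Tᴴ * w * sc P T
          dim_pos := Fintype.card_pos
          isCorep := c1
          irred := by
            intro X hX
            rw [intertwines_iff] at hX
            have s1 : sc P T * sc P Tᴴ = 1 := by rw [← sc_mul, h2, sc_one]
            obtain ⟨c, hc⟩ := hirr (T * X * Tᴴ) (by
              rw [sc_mul, sc_mul]
              calc sc P T * sc P X * sc P Tᴴ * w
                  = sc P T * (sc P X * (sc P Tᴴ * w * sc P T)) * sc P Tᴴ := by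
                    simp only [Matrix.mul_assoc, s1, Matrix.mul_one]
                _ = _ := by
                    rw [hX]
                    simp only [← Matrix.mul_assoc, s1, Matrix.one_mul])
            refine ⟨c, ?_⟩
            calc X = (Tᴴ * T) * X * (Tᴴ * T) := by rw [h1, Matrix.one_mul, Matrix.mul_one]
              _ = Tᴴ * (T * X * Tᴴ) * T := by simp only [Matrix.mul_assoc]
              _ = c • 1 := by rw [hc, Matrix.mul_smul, Matrix.mul_one, Matrix.smul_mul, h1] }
      refine ⟨[⟨r, T⟩], ?_, by simpa using h2⟩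
      intro x hx
      rw [List.mem_singleton] at hx
      subst hx
      exact ⟨h1, c2⟩
    · push Not at hirr
      obtain ⟨T, hT, hT'⟩ := hirr
      obtain ⟨p, _, S₁, S₂, ⟨i₀, hi₀⟩, ⟨i₁, hi₁⟩, h1, h2, h3, h4⟩ := exists_split hw.1 hT hT'
      have h5 : sc P (S₂ * S₂ᴴ) * w = w * sc P (S₂ * S₂ᴴ) := by
        have : S₂ * S₂ᴴ = 1 - S₁ * S₁ᴴ := by rw [← h3]; abel
        rw [this, sc_sub, sc_one, sub_mul, mul_sub, h4, one_mul, mul_one]
      obtain ⟨a1, a2⟩ := hw.compress S₁ h1 h4
      obtain ⟨b1, b2⟩ := hw.compress S₂ h2 h5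
      have c1 : Fintype.card {i // p i} < Fintype.card ι := Fintype.card_subtype_lt hi₁
      have c2 : Fintype.card {i // ¬ p i} < Fintype.card ι :=
        Fintype.card_subtype_lt (p := fun i => ¬ p i) (x := i₀) (not_not.2 hi₀)
      have step : ∀ (κ : Type) [Fintype κ] [DecidableEq κ] (S : Matrix ι κ ℂ), Sᴴ * S = 1 →
          Fintype.card κ ≤ n → IsCorep Δ (sc P Sᴴ * w * sc P S) →
          sc P S * (sc P Sᴴ * w * sc P S) = w * sc P S →
          ∃ l : List (Σ r : Irrep Δ, Matrix ι (Fin r.dim) ℂ),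
            (∀ x ∈ l, x.2ᴴ * x.2 = 1 ∧ Intertwines x.2 x.1.mat w) ∧
            (l.map fun x => x.2 * x.2ᴴ).sum = S * Sᴴ := by
        intro κ _ _ S hS hκ hc1 hc2
        obtain ⟨l, hl1, hl2⟩ := ih κ _ hκ hc1
        refine ⟨l.map fun x => ⟨x.1, S * x.2⟩, ?_, ?_⟩
        · intro x hx
          obtain ⟨y, hy, rfl⟩ := List.mem_map.1 hx
          obtain ⟨e1, e2⟩ := hl1 y hy
          constructor
          · show (S * y.2)ᴴ * (S * y.2) = 1
            rw [Matrix.conjTranspose_mul, Matrix.mul_assoc, ← Matrix.mul_assoc Sᴴ, hS,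
              Matrix.one_mul, e1]
          · show sc P (S * y.2) * y.1.mat = w * sc P (S * y.2)
            rw [intertwines_iff] at e2
            rw [sc_mul, Matrix.mul_assoc, e2, ← Matrix.mul_assoc, hc2, Matrix.mul_assoc]
        · have : ∀ l : List (Σ r : Irrep Δ, Matrix κ (Fin r.dim) ℂ),
              ((l.map fun x => (⟨x.1, S * x.2⟩ : Σ r : Irrep Δ, Matrix ι (Fin r.dim) ℂ)).map
                fun x => x.2 * x.2ᴴ).sum = S * (l.map fun x => x.2 * x.2ᴴ).sum * Sᴴ := by
            intro l
            induction l with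
            | nil => simp
            | cons y l ihl =>
              simp only [List.map_cons, List.sum_cons, ihl, Matrix.mul_add, Matrix.add_mul,
                Matrix.conjTranspose_mul, Matrix.mul_assoc]
          rw [this, hl2, Matrix.mul_one]
      obtain ⟨l₁, u1, u2⟩ := step _ S₁ h1 (by omega) a1 a2
      obtain ⟨l₂, v1, v2⟩ := step _ S₂ h2 (by omega) b1 b2
      refine ⟨l₁ ++ l₂, ?_, ?_⟩
      · intro x hx
        rcases List.mem_append.1 hx with hx | hx
        exacts [u1 x hx, v1 x hx]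
      · rw [List.map_append, List.sum_append, u2, v2, h3]

theorem eq_sum_of_decomp {ι : Type} [Fintype ι] [DecidableEq ι] (w : Matrix ι ι P)
    (l : List (Σ r : Irrep Δ, Matrix ι (Fin r.dim) ℂ))
    (h1 : ∀ x ∈ l, Intertwines x.2 x.1.mat w) :
    w * sc P (l.map fun x => x.2 * x.2ᴴ).sum =
      (l.map fun x => sc P x.2 * x.1.mat * sc P x.2ᴴ).sum := by
  induction l with
  | nil =>
    have : sc P (0 : Matrix ι ι ℂ) = 0 := by ext i j; simp [sc]
    simp [this]
  | cons y l ih =>
    have e := h1 y (by simp)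
    rw [intertwines_iff] at e
    rw [List.map_cons, List.sum_cons, List.map_cons, List.sum_cons, sc_add, mul_add,
      ih (fun x hx => h1 x (by simp [hx])), e, sc_mul, Matrix.mul_assoc]

end Pool.Agent.H287Z.QG
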