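import Mathlib
import Pool.Agent.H287Z.QG.Defs

set_option autoImplicit false

open scoped TensorProduct

noncomputable section

namespace Pool.Agent.H287Z.QG

variable {P : Type} [Ring P] [StarRing P] [Algebra ℂ P] [StarModule ℂ P]

/-- The corepresentation `1 ⊕ w ⊕ w̄`. -/
def sumMat {N : ℕ} (w : Matrix (Fin N) (Fin N) P) :
    Matrix (Unit ⊕ Fin N ⊕ Fin N) (Unit ⊕ Fin N ⊕ Fin N) P :=
  Matrix.fromBlocks 1 0 0 (Matrix.fromBlocks w 0 0 (w.map star))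

/-- The `k`-th tensor power: the entry at `(I, J)` is `x_{I₁J₁} ⋯ x_{I_kJ_k}`. -/
def tpow {ι : Type} (x : Matrix ι ι P) (k : ℕ) : Matrix (Fin k → ι) (Fin k → ι) P :=
  fun I J => (List.ofFn fun t => x (I t) (J t)).prod

/-- `r ⊂ s`: some isometry intertwines `r` and `s`. -/
def IsSub {ι κ : Type} [Fintype ι] [DecidableEq ι] [Fintype κ] (r : Matrix ι ι P)
    (s : Matrix κ κ P) : Prop :=
  ∃ T : Matrix κ ι ℂ, T.conjTranspose * T = 1 ∧ Intertwines T r s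

/-- `ℓ(r) ≤ k`: `r ⊂ (1 ⊕ w ⊕ w̄)^{⊗ m}` for some `m ≤ k`. -/
def LengthLE {N : ℕ} (w : Matrix (Fin N) (Fin N) P) {Δ : P →⋆ₐ[ℂ] P ⊗[ℂ] P} (r : Irrep Δ)
    (k : ℕ) : Prop :=
  ∃ m ≤ k, IsSub r.mat (tpow (sumMat w) m)

/-- Two irreducible corepresentations are equivalent: a unitary intertwines them. -/
def Equivalent {Δ : P →⋆ₐ[ℂ] P ⊗[ℂ] P} (r s : Irrep Δ) : Prop :=
  ∃ T : Matrix (Fin s.dim) (Fin r.dim) ℂ, T.conjTranspose * T = 1 ∧ T * T.conjTranspose = 1 ∧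
    Intertwines T r.mat s.mat

/-- The dual has polynomial growth: `b_k ≤ C k^d` for `k ≥ 1`, that is, `∑ dim(r)² ≤ C k^d` for
every finite set of pairwise inequivalent irreducible corepresentations of length at most `k`. -/
def DualPolyGrowth {N : ℕ} (w : Matrix (Fin N) (Fin N) P) (Δ : P →⋆ₐ[ℂ] P ⊗[ℂ] P) : Prop :=
  ∃ C d : ℕ, ∀ k : ℕ, 1 ≤ k → ∀ s : Finset (Irrep Δ), (∀ r ∈ s, LengthLE w r k) →
    (∀ r ∈ s, ∀ r' ∈ s, Equivalent r r' → r = r') → ∑ r ∈ s, r.dim ^ 2 ≤ C * k ^ d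

/-- The ball of radius `k` for the word length in `S ∪ S⁻¹`. -/
def ball {G : Type} [Group G] (S : Set G) (k : ℕ) : Set G :=
  {g | ∃ l : List G, l.length ≤ k ∧ (∀ x ∈ l, x ∈ S ∨ x⁻¹ ∈ S) ∧ l.prod = g}

/-- The group generated by `S` has polynomial growth for the word length in `S ∪ S⁻¹`. -/
def PolyGrowth {G : Type} [Group G] (S : Set G) : Prop :=
  ∃ C d : ℕ, ∀ k : ℕ, 1 ≤ k → (ball S k).encard ≤ (C * k ^ d : ℕ)

end Pool.Agent.H287Z.QG
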