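import Mathlib
import Pool.Agent.H287Z.QG.GrowthDefs
import Pool.Agent.H287Z.QG.Decomp
import Pool.Agent.H287Z.QG.PGL

set_option autoImplicit false
set_option linter.unusedSectionVars false
set_option linter.unusedSimpArgs false

open scoped TensorProduct Matrix

noncomputable section

namespace Pool.Agent.H287Z.QG

variable {P : Type} [Ring P] [StarRing P] [Algebra ℂ P] [StarModule ℂ P]
variable {Δ : P →⋆ₐ[ℂ] P ⊗[ℂ] P}

theorem isCorep_fromBlocks {ι κ : Type} [Fintype ι] [DecidableEq ι] [Fintype κ] [DecidableEq κ]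
    {x : Matrix ι ι P} {y : Matrix κ κ P} (hx : IsCorep Δ x) (hy : IsCorep Δ y) :
    IsCorep Δ (Matrix.fromBlocks x 0 0 y) := by
  constructor
  · obtain ⟨a1, a2⟩ := Unitary.mem_iff.1 hx.1
    obtain ⟨b1, b2⟩ := Unitary.mem_iff.1 hy.1
    rw [Matrix.star_eq_conjTranspose] at a1 a2 b1 b2
    rw [Unitary.mem_iff, Matrix.star_eq_conjTranspose, Matrix.fromBlocks_conjTranspose,
      Matrix.fromBlocks_multiply, Matrix.fromBlocks_multiply]
    simp [a1, a2, b1, b2, Matrix.fromBlocks_one]
  · rintro (i | i) (j | j)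
    · simp [Fintype.sum_sum_type, hx.2 i j]
    · simp [Fintype.sum_sum_type]
    · simp [Fintype.sum_sum_type]
    · simp [Fintype.sum_sum_type, hy.2 i j]

theorem isCorep_one : IsCorep Δ (1 : Matrix Unit Unit P) := by
  refine ⟨one_mem _, fun i j => ?_⟩
  simp [Algebra.TensorProduct.one_def]

theorem AlgQG.isCorep_sumMat {N : ℕ} {w : Matrix (Fin N) (Fin N) P} {ε : P →⋆ₐ[ℂ] ℂ}
    {S : P →⋆ₐ[ℂ] Pᵐᵒᵖ} (h : AlgQG w Δ ε S) : IsCorep Δ (sumMat w) := by
  refine isCorep_fromBlocks isCorep_one (isCorep_fromBlocks ⟨h.unit, h.hΔ⟩ ⟨h.conj_unit, ?_⟩)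
  intro i j
  simp only [Matrix.map_apply, map_star, h.hΔ, star_sum, TensorProduct.star_tmul]

theorem tpow_succ {ι : Type} (x : Matrix ι ι P) (k : ℕ) (I J : Fin (k + 1) → ι) :
    tpow x (k + 1) I J = x (I 0) (J 0) * tpow x k (Fin.tail I) (Fin.tail J) := by
  simp only [tpow, List.ofFn_succ, List.prod_cons]
  rfl

theorem tpow_zero {ι : Type} (x : Matrix ι ι P) (I J : Fin 0 → ι) : tpow x 0 I J = 1 := by
  simp [tpow]

theorem sum_pi_succ {ι M : Type} [Fintype ι] [AddCommMonoid M] (k : ℕ)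
    (f : (Fin (k + 1) → ι) → M) :
    ∑ K, f K = ∑ a : ι, ∑ K : Fin k → ι, f (Fin.cons a K) := by
  rw [← (Fin.consEquiv fun _ : Fin (k + 1) => ι).sum_comp, Fintype.sum_prod_type]
  rfl

theorem eq_iff_succ {ι : Type} {k : ℕ} (I J : Fin (k + 1) → ι) :
    I = J ↔ I 0 = J 0 ∧ Fin.tail I = Fin.tail J := by
  constructor
  · rintro rfl; exact ⟨rfl, rfl⟩
  · rintro ⟨h1, h2⟩
    rw [← Fin.cons_self_tail I, ← Fin.cons_self_tail J, h1, h2]

theorem IsCorep.tpow {ι : Type} [Fintype ι] [DecidableEq ι] {x : Matrix ι ι P}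
    (hx : IsCorep Δ x) (k : ℕ) : IsCorep Δ (tpow x k) := by
  obtain ⟨a1, a2⟩ := (mem_unitary_iff_sum x).1 hx.1
  induction k with
  | zero =>
    constructor
    · rw [mem_unitary_iff_sum]
      constructor <;> intro I J <;> simp [tpow_zero, Subsingleton.elim I J]
    · intro I J
      simp [tpow_zero, Algebra.TensorProduct.one_def]
  | succ k ih =>
    obtain ⟨b1, b2⟩ := (mem_unitary_iff_sum _).1 ih.1
    constructor
    · rw [mem_unitary_iff_sum]
      constructor
      · intro I J
        rw [sum_pi_succ, Finset.sum_comm]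
        simp only [tpow_succ, Fin.cons_zero, Fin.tail_cons, star_mul]
        have : ∀ K : Fin k → ι, ∑ a : ι, star (QG.tpow x k K (Fin.tail I)) * star (x a (I 0)) *
            (x a (J 0) * QG.tpow x k K (Fin.tail J)) = if I 0 = J 0 then
              star (QG.tpow x k K (Fin.tail I)) * QG.tpow x k K (Fin.tail J) else 0 := by
          intro K
          have e : ∀ a : ι, star (QG.tpow x k K (Fin.tail I)) * star (x a (I 0)) *
              (x a (J 0) * QG.tpow x k K (Fin.tail J)) = star (QG.tpow x k K (Fin.tail I)) *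
              (star (x a (I 0)) * x a (J 0)) * QG.tpow x k K (Fin.tail J) := fun a => by
            simp only [mul_assoc]
          simp only [e]
          rw [← Finset.sum_mul, ← Finset.mul_sum, a1]
          split_ifs <;> simp
        simp only [this, eq_iff_succ I J]
        by_cases h0 : I 0 = J 0
        · simp only [h0, if_true, b1, true_and]
        · simp [h0]
      · intro I J
        rw [sum_pi_succ]
        simp only [tpow_succ, Fin.cons_zero, Fin.tail_cons, star_mul]
        have : ∀ a : ι, ∑ K : Fin k → ι, x (I 0) a * QG.tpow x k (Fin.tail I) K *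
            (star (QG.tpow x k (Fin.tail J) K) * star (x (J 0) a)) =
              if Fin.tail I = Fin.tail J then x (I 0) a * star (x (J 0) a) else 0 := by
          intro a
          have e : ∀ K : Fin k → ι, x (I 0) a * QG.tpow x k (Fin.tail I) K *
              (star (QG.tpow x k (Fin.tail J) K) * star (x (J 0) a)) = x (I 0) a *
              (QG.tpow x k (Fin.tail I) K * star (QG.tpow x k (Fin.tail J) K)) *
                star (x (J 0) a) := fun K => by simp only [mul_assoc]
          simp only [e]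
          rw [← Finset.sum_mul, ← Finset.mul_sum, b2]
          split_ifs <;> simp
        simp only [this, eq_iff_succ I J]
        by_cases h0 : Fin.tail I = Fin.tail J
        · simp only [h0, if_true, a2, and_true]
        · simp [h0]
    · intro I J
      rw [sum_pi_succ, tpow_succ, map_mul, hx.2, ih.2, Finset.sum_mul]
      refine Finset.sum_congr rfl fun a _ => ?_
      rw [Finset.mul_sum]
      refine Finset.sum_congr rfl fun K _ => ?_
      simp only [tpow_succ, Fin.cons_zero, Fin.tail_cons, Algebra.TensorProduct.tmul_mul_tmul]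

/-- the span of the coefficients -/
def Cf {ι : Type} (x : Matrix ι ι P) : Submodule ℂ P :=
  Submodule.span ℂ (Set.range fun p : ι × ι => x p.1 p.2)

theorem mem_Cf {ι : Type} (x : Matrix ι ι P) (i j : ι) : x i j ∈ Cf x :=
  Submodule.subset_span ⟨(i, j), rfl⟩

theorem conj_mem_Cf {ι κ μ : Type} [Fintype ι] (x : Matrix ι ι P) (T : Matrix κ ι ℂ)
    (T' : Matrix ι μ ℂ) (i : κ) (j : μ) : (sc P T * x * sc P T') i j ∈ Cf x := by
  rw [sc_mul_apply]
  exact sum_mem fun k _ => sum_mem fun l _ => Submodule.smul_mem _ _ (mem_Cf x k l)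

theorem Equivalent.Cf_eq {r s : Irrep Δ} (h : Equivalent r s) : Cf r.mat = Cf s.mat := by
  obtain ⟨T, h1, h2, h3⟩ := h
  rw [intertwines_iff] at h3
  apply le_antisymm
  · rw [Cf, Submodule.span_le]
    rintro _ ⟨p, rfl⟩
    have : r.mat = sc P Tᴴ * s.mat * sc P T := by
      rw [Matrix.mul_assoc, ← h3, ← Matrix.mul_assoc, ← sc_mul, h1, sc_one, Matrix.one_mul]
    show r.mat p.1 p.2 ∈ Cf s.mat
    rw [this]
    exact conj_mem_Cf _ _ _ _ _
  · rw [Cf, Submodule.span_le]
    rintro _ ⟨p, rfl⟩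
    have : s.mat = sc P T * r.mat * sc P Tᴴ := by
      rw [h3, Matrix.mul_assoc, ← sc_mul, h2, sc_one, Matrix.mul_one]
    show s.mat p.1 p.2 ∈ Cf r.mat
    rw [this]
    exact conj_mem_Cf _ _ _ _ _

theorem exists_reps (L : List (Irrep Δ)) : ∃ s : Finset (Irrep Δ), (∀ r ∈ s, r ∈ L) ∧
    (∀ r ∈ s, ∀ r' ∈ s, Equivalent r r' → r = r') ∧ ∀ r ∈ L, ∃ r' ∈ s, Cf r.mat = Cf r'.mat := by
  classical
  induction L with
  | nil => exact ⟨∅, by simp, by simp, by simp⟩
  | cons r L ih =>
    obtain ⟨s, h1, h2, h3⟩ := ih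
    by_cases h : ∃ r' ∈ s, Equivalent r r' ∨ Equivalent r' r
    · obtain ⟨r', hr', h⟩ := h
      refine ⟨s, fun x hx => List.mem_cons_of_mem _ (h1 x hx), h2, ?_⟩
      intro x hx
      rcases List.mem_cons.1 hx with rfl | hx
      · exact ⟨r', hr', h.elim (fun h => h.Cf_eq) fun h => h.Cf_eq.symm⟩
      · exact h3 x hx
    · push Not at h
      refine ⟨insert r s, ?_, ?_, ?_⟩
      · intro x hx
        rcases Finset.mem_insert.1 hx with rfl | hx
        · simp
        · exact List.mem_cons_of_mem _ (h1 x hx)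
      · intro x hx y hy hxy
        rcases Finset.mem_insert.1 hx with hx' | hx' <;> rcases Finset.mem_insert.1 hy with hy' | hy'
        · rw [hx', hy']
        · rw [hx'] at hxy; exact absurd hxy (h y hy').1
        · rw [hy'] at hxy; exact absurd hxy (h x hx').2
        · exact h2 x hx' y hy' hxy
      · intro x hx
        rcases List.mem_cons.1 hx with rfl | hx
        · exact ⟨x, by simp, rfl⟩
        · obtain ⟨y, hy, e⟩ := h3 x hx
          exact ⟨y, Finset.mem_insert_of_mem hy, e⟩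

theorem card_le_of_corep {ι : Type} [Fintype ι] [DecidableEq ι] {x : Matrix ι ι P}
    (hx : IsCorep Δ x) {κ : Type} [Fintype κ] (v : κ → P) (hv : LinearIndependent ℂ v)
    (hm : ∀ i, v i ∈ Cf x) : ∃ s : Finset (Irrep Δ), (∀ r ∈ s, IsSub r.mat x) ∧
      (∀ r ∈ s, ∀ r' ∈ s, Equivalent r r' → r = r') ∧ Fintype.card κ ≤ ∑ r ∈ s, r.dim ^ 2 := by
  classical
  obtain ⟨l, h1, h2⟩ := exists_decomp (Δ := Δ) _ ι x le_rfl hx
  obtain ⟨s, s1, s2, s3⟩ := exists_reps (l.map fun y => y.1)
  refine ⟨s, ?_, s2, ?_⟩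
  · intro r hr
    obtain ⟨y, hy, rfl⟩ := List.mem_map.1 (s1 r hr)
    exact ⟨y.2, h1 y hy⟩
  · let f : (Σ r : s, Fin r.1.dim × Fin r.1.dim) → P := fun p => p.1.1.mat p.2.1 p.2.2
    have hCf : ∀ r ∈ s, Cf r.mat ≤ Submodule.span ℂ (Set.range f) := by
      intro r hr
      refine Submodule.span_mono ?_
      rintro _ ⟨p, rfl⟩
      exact ⟨⟨⟨r, hr⟩, p⟩, rfl⟩
    have hx' : Cf x ≤ Submodule.span ℂ (Set.range f) := by
      rw [Cf, Submodule.span_le]
      rintro _ ⟨p, rfl⟩
      have e := eq_sum_of_decomp x l fun y hy => (h1 y hy).2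
      rw [h2, sc_one, mul_one] at e
      show x p.1 p.2 ∈ Submodule.span ℂ (Set.range f)
      have key : ∀ l' : List (Σ r : Irrep Δ, Matrix ι (Fin r.dim) ℂ), (∀ y ∈ l', y ∈ l) →
          (l'.map fun y => sc P y.2 * y.1.mat * sc P y.2ᴴ).sum p.1 p.2 ∈
            Submodule.span ℂ (Set.range f) := by
        intro l' hl'
        induction l' with
        | nil => simp
        | cons y l' ih =>
          rw [List.map_cons, List.sum_cons, Matrix.add_apply]
          refine add_mem ?_ (ih fun z hz => hl' z (by simp [hz]))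
          obtain ⟨r', hr', e'⟩ := s3 y.1 (List.mem_map.2 ⟨y, hl' y (by simp), rfl⟩)
          exact hCf r' hr' (e' ▸ conj_mem_Cf _ _ _ _ _)
      rw [e]
      exact key l fun y hy => hy
    have h3 := linearIndependent_le_span_aux' v hv (Set.range f) (by
      rintro _ ⟨i, rfl⟩
      exact hx' (hm i))
    refine h3.trans ((Fintype.card_range_le f).trans ?_)
    rw [Fintype.card_sigma]
    simp only [Fintype.card_prod, Fintype.card_fin]
    rw [Finset.sum_coe_sort s (fun r => r.dim * r.dim)]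
    exact le_of_eq (Finset.sum_congr rfl fun r _ => (sq _).symm)

theorem mul_mem_Cf_tpow {ι : Type} (x : Matrix ι ι P) (k : ℕ) {y z : P} (hy : y ∈ Cf x)
    (hz : z ∈ Cf (tpow x k)) : y * z ∈ Cf (tpow x (k + 1)) := by
  have : Cf x * Cf (tpow x k) ≤ Cf (tpow x (k + 1)) := by
    rw [Cf, Cf, Submodule.span_mul_span, Submodule.span_le]
    rintro _ ⟨_, ⟨p, rfl⟩, _, ⟨q, rfl⟩, rfl⟩
    have := mem_Cf (tpow x (k + 1)) (Fin.cons p.1 q.1) (Fin.cons p.2 q.2)
    rw [tpow_succ] at this
    simpa using this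
  exact this (Submodule.mul_mem_mul hy hz)

/-- words in two elements -/
def wd {G : Type} [Monoid G] (s t : G) {k : ℕ} (f : Fin k → Bool) : G :=
  (List.ofFn fun i => if f i then s else t).prod

theorem wd_succ {G : Type} [Monoid G] (s t : G) {k : ℕ} (f : Fin (k + 1) → Bool) :
    wd s t f = (if f 0 then s else t) * wd s t (Fin.tail f) := by
  simp only [wd, List.ofFn_succ, List.prod_cons]
  rfl

theorem act_s (x : Ir) : (act (gc * ga) x).1 = x.1 + 1 := by
  rw [act_mul, act_c, act_a]; ring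

theorem act_t (x : Ir) : (act (gb * gc * (ga * gb)) x).1 = (x.1⁻¹ + 1)⁻¹ := by
  rw [act_mul, act_mul, act_mul, act_b, act_c, act_a, act_b]
  congr 1
  ring

theorem wd_pos {k : ℕ} (f : Fin k → Bool) :
    0 < (act (wd (gc * ga) (gb * gc * (ga * gb)) f) x0).1 := by
  induction k with
  | zero =>
    simp only [wd, List.ofFn_zero, List.prod_nil, act_one]
    exact Real.sqrt_pos.2 two_pos
  | succ k ih =>
    have := ih (Fin.tail f)
    rw [wd_succ, act_mul]
    split_ifs
    · rw [act_s]; linarith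
    · rw [act_t]; positivity

theorem wd_injective (k : ℕ) :
    Function.Injective fun f : Fin k → Bool => wd (gc * ga) (gb * gc * (ga * gb)) f := by
  induction k with
  | zero => intro f g _; exact Subsingleton.elim _ _
  | succ k ih =>
    have key : ∀ f g : Fin k → Bool, (gc * ga) * wd (gc * ga) (gb * gc * (ga * gb)) f ≠
        (gb * gc * (ga * gb)) * wd (gc * ga) (gb * gc * (ga * gb)) g := by
      intro f g h
      have h1 := congrArg (fun z => (act z x0).1) h
      rw [act_mul (gc * ga), act_mul (gb * gc * (ga * gb)), act_s, act_t] at h1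
      have p1 := wd_pos f
      have p2 := wd_pos g
      have p3 : ((act (wd (gc * ga) (gb * gc * (ga * gb)) g) x0).1⁻¹ + 1)⁻¹ < 1 :=
        inv_lt_one_of_one_lt₀ (by have := inv_pos.2 p2; linarith)
      linarith
    intro f g h
    simp only [wd_succ] at h
    rw [eq_iff_succ]
    by_cases hf : f 0 = true <;> by_cases hg : g 0 = true
    · rw [if_pos hf, if_pos hg] at h
      exact ⟨hf.trans hg.symm, ih (mul_left_cancel h)⟩
    · rw [if_pos hf, if_neg hg] at h
      exact absurd h (key _ _)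
    · rw [if_neg hf, if_pos hg] at h
      exact absurd h.symm (key _ _)
    · rw [if_neg hf, if_neg hg] at h
      exact ⟨by simp only [Bool.not_eq_true] at hf hg; rw [hf, hg], ih (mul_left_cancel h)⟩

theorem not_dualPolyGrowth {w : Matrix (Fin 4) (Fin 4) P} {ε : P →⋆ₐ[ℂ] ℂ}
    {S : P →⋆ₐ[ℂ] Pᵐᵒᵖ} {L : Gam →* P} (hL : GroupAlg L) (h : AlgQG w Δ ε S)
    (hw : w = (Um (L ga) (L gb) (L gc)).submatrix idx idx) : ¬ DualPolyGrowth w Δ := by
  rintro ⟨C, d, hC⟩
  have hU : ∀ i j k l, Wm (L ga) (L gb) i j * L gc * Wm (L ga) (L gb) k l ∈ Cf (sumMat w) := by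
    intro i j k l
    have := mem_Cf (sumMat w) (Sum.inr (Sum.inl (idx.symm (i, k))))
      (Sum.inr (Sum.inl (idx.symm (j, l))))
    simpa [sumMat, hw, Um] using this
  have e1 : Wm (L ga) (L gb) 0 0 + Wm (L ga) (L gb) 1 0 = 1 := by
    simp [Wm]; module
  have e2 : Wm (L ga) (L gb) 0 0 - Wm (L ga) (L gb) 1 0 = L ga := by
    simp [Wm]; module
  have e3 : Wm (L ga) (L gb) 0 1 + Wm (L ga) (L gb) 1 1 = L gb := by
    simp [Wm]; module
  have e4 : Wm (L ga) (L gb) 1 1 - Wm (L ga) (L gb) 0 1 = L ga * L gb := by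
    simp [Wm]; module
  have hs : L (gc * ga) ∈ Cf (sumMat w) := by
    have := add_mem (sub_mem (hU 0 0 0 0) (hU 0 0 1 0)) (sub_mem (hU 1 0 0 0) (hU 1 0 1 0))
    rwa [← mul_sub, ← mul_sub, e2, ← add_mul, ← add_mul, e1, one_mul, ← map_mul] at this
  have ht : L (gb * gc * (ga * gb)) ∈ Cf (sumMat w) := by
    have := add_mem (sub_mem (hU 0 1 1 1) (hU 0 1 0 1)) (sub_mem (hU 1 1 1 1) (hU 1 1 0 1))
    rwa [← mul_sub, ← mul_sub, e4, ← add_mul, ← add_mul, e3, ← map_mul, ← map_mul,
      ← map_mul] at this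
  have hmem : ∀ (k : ℕ) (f : Fin k → Bool),
      L (wd (gc * ga) (gb * gc * (ga * gb)) f) ∈ Cf (tpow (sumMat w) k) := by
    intro k
    induction k with
    | zero =>
      intro f
      have := mem_Cf (tpow (sumMat w) 0) Fin.elim0 Fin.elim0
      rw [tpow_zero] at this
      simpa [wd] using this
    | succ k ih =>
      intro f
      rw [wd_succ, map_mul]
      refine mul_mem_Cf_tpow _ _ ?_ (ih _)
      split_ifs
      exacts [hs, ht]
  have hle : ∀ k : ℕ, 1 ≤ k → 2 ^ k ≤ C * k ^ d := by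
    intro k hk
    obtain ⟨s, s1, s2, s3⟩ := card_le_of_corep (h.isCorep_sumMat.tpow k) _
      (hL.li.comp _ (wd_injective k)) (hmem k)
    have := hC k hk s (fun r hr => ⟨k, le_rfl, s1 r hr⟩) s2
    simp only [Fintype.card_fun, Fintype.card_bool, Fintype.card_fin] at s3
    exact s3.trans this
  have ht := (tendsto_pow_const_div_const_pow_of_one_lt d (one_lt_two (α := ℝ))).const_mul (C : ℝ)
  rw [mul_zero] at ht
  obtain ⟨k, hk1, hk2⟩ := ((ht.eventually (gt_mem_nhds one_pos)).and
    (Filter.eventually_ge_atTop 1)).exists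
  have h1 : (2 : ℝ) ^ k ≤ C * (k : ℝ) ^ d := by exact_mod_cast hle k hk2
  rw [← mul_div_assoc, div_lt_one (by positivity)] at hk1
  linarith

theorem polyGrowth_of_finite {G : Type} [Group G] (S : Set G)
    (h : Finite (Subgroup.closure S)) : PolyGrowth S := by
  have hf : (Subgroup.closure S : Set G).Finite := h
  refine ⟨hf.toFinset.card, 0, fun k _ => ?_⟩
  rw [pow_zero, mul_one, ← hf.encard_eq_coe_toFinset_card]
  refine Set.encard_le_encard ?_
  rintro _ ⟨l, -, hl, rfl⟩
  refine list_prod_mem fun x hx => ?_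
  rcases hl x hx with h | h
  · exact Subgroup.subset_closure h
  · exact inv_mem_iff.1 (Subgroup.subset_closure h)

end Pool.Agent.H287Z.QG
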