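import Mathlib
import Pool.Agent.H287Z.QG.FunAlg
import Pool.Agent.H287Z.QG.Growth

set_option autoImplicit false
set_option linter.unusedSectionVars false
set_option linter.unusedSimpArgs false

open scoped TensorProduct

noncomputable section

namespace Pool.Agent.H287Z.QG

theorem package' {𝒜 : Type} [Ring 𝒜] [StarRing 𝒜] [Algebra ℂ 𝒜] [StarModule ℂ 𝒜] {N : ℕ}
    {u : Matrix (Fin N) (Fin N) 𝒜}
    {Δ : 𝒜 →⋆ₐ[ℂ] 𝒜 ⊗[ℂ] 𝒜} {ε : 𝒜 →⋆ₐ[ℂ] ℂ} {S : 𝒜 →⋆ₐ[ℂ] 𝒜ᵐᵒᵖ} (h : AlgQG u Δ ε S)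
    {B₀ : Type} [CStarAlgebra B₀] (lam : 𝒜 →⋆ₐ[ℂ] B₀) (hinj : Function.Injective lam) :
    ∃ (A : Type) (_ : CStarAlgebra A) (U : Matrix (Fin N) (Fin N) A) (j : 𝒜 →⋆ₐ[ℂ] A),
      IsCMQG U ∧ IsPol U u j ∧ IsFull j := by
  obtain ⟨A, _, U, e, he, h1, h2⟩ := package h lam hinj
  refine ⟨A, inferInstance, U, (Pol U).subtype.comp (e : 𝒜 →⋆ₐ[ℂ] Pol U), h1, ⟨?_, ?_, ?_⟩, ?_⟩
  · exact Subtype.val_injective.comp e.injective
  · ext x
    constructor
    · rintro ⟨a, rfl⟩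
      exact (e a).2
    · intro hx
      obtain ⟨a, ha⟩ := e.surjective ⟨x, hx⟩
      exact ⟨a, congrArg Subtype.val ha⟩
  · ext i j
    exact congrArg Subtype.val (he i j)
  · intro B _ φ
    obtain ⟨ψ, hψ⟩ := h2.ext B (φ.comp (e.symm : Pol U →⋆ₐ[ℂ] 𝒜))
    refine ⟨ψ, StarAlgHom.ext fun a => ?_⟩
    have := hψ (e a)
    show ψ (e a) = φ a
    rw [this]
    show φ (e.symm (e a)) = φ a
    rw [e.symm_apply_apply]

variable {R : Type} [Ring R] [StarRing R] [Algebra ℂ R] [StarModule ℂ R]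
variable {K : Type} [Group K] {n : Type} [Fintype n] [DecidableEq n] {Γ : Type} [Group Γ]
variable {vf : K →* Matrix n n ℂ} {ev : R →⋆ₐ[ℂ] (K → ℂ)} {v : Matrix n n R}

/-- the permutation of `Γ × K` given by `g` -/
def cperm (c : Γ →* K) (g : Γ) : Γ × K ≃ Γ × K where
  toFun p := (g⁻¹ * p.1, (c g)⁻¹ * p.2 * c g)
  invFun p := (g * p.1, c g * p.2 * (c g)⁻¹)
  left_inv p := by ext <;> simp [mul_assoc]
  right_inv p := by ext <;> simp [mul_assoc]

def Lop (c : Γ →* K) : Γ →* (E2 (Γ × K) →L[ℂ] E2 (Γ × K)) where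
  toFun g := permOp (cperm c g)
  map_one' := by
    ext f p
    show f ((1 : Γ)⁻¹ * p.1, (c 1)⁻¹ * p.2 * c 1) = f p
    simp
  map_mul' g g' := by
    ext f p
    show f ((g * g')⁻¹ * p.1, (c (g * g'))⁻¹ * p.2 * c (g * g')) =
      f (g'⁻¹ * (g⁻¹ * p.1), (c g')⁻¹ * ((c g)⁻¹ * p.2 * c g) * c g')
    simp [mul_assoc]

theorem Lop_apply (c : Γ →* K) (g : Γ) (f : E2 (Γ × K)) (p : Γ × K) :
    (Lop c g f) p = f (g⁻¹ * p.1, (c g)⁻¹ * p.2 * c g) := rfl

theorem star_Lop (c : Γ →* K) (g : Γ) : star (Lop c g) = Lop c g⁻¹ := by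
  show star (permOp (cperm c g)) = permOp (cperm c g⁻¹)
  rw [star_permOp]
  congr 1
  ext p <;> simp [cperm]

theorem FunAlg.exists_mop (h : FunAlg vf ev v) (Γ : Type) :
    ∃ m : R →⋆ₐ[ℂ] (E2 (Γ × K) →L[ℂ] E2 (Γ × K)), ∀ a ξ p, (m a ξ) p = ev a p.2 * ξ p := by
  choose C hC using h.bounded
  let M : R → (E2 (Γ × K) →L[ℂ] E2 (Γ × K)) :=
    fun a => mulOp (fun p : Γ × K => ev a p.2) (C a) fun p => hC a p.2
  have hM : ∀ a ξ p, (M a ξ) p = ev a p.2 * ξ p := fun _ _ _ => rfl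
  refine ⟨{ toFun := M, map_one' := ?_, map_mul' := ?_, map_zero' := ?_, map_add' := ?_,
            commutes' := ?_, map_star' := ?_ }, hM⟩
  · ext ξ p
    rw [hM, map_one]
    exact one_mul _
  · intro a b
    ext ξ p
    show (M (a * b) ξ) p = (M a (M b ξ)) p
    rw [hM, hM, hM, map_mul]
    exact mul_assoc _ _ _
  · ext ξ p
    rw [hM, map_zero]
    exact zero_mul _
  · intro a b
    ext ξ p
    show (M (a + b) ξ) p = (M a ξ) p + (M b ξ) p
    rw [hM, hM, hM, map_add]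
    exact add_mul _ _ _
  · intro r
    ext ξ p
    rw [hM, AlgHomClass.commutes, Algebra.algebraMap_eq_smul_one (A := _ →L[ℂ] _)]
    rfl
  · intro a
    symm
    refine star_mulOp _ _ _ _ _ _ fun p => ?_
    rw [map_star]
    rfl

theorem FunAlg.exists_model (h : FunAlg vf ev v) (c : Γ →* K) (α : Γ → R →⋆ₐ[ℂ] R)
    (hα : ∀ g a x, ev (α g a) x = ev a ((c g)⁻¹ * x * c g)) :
    ∃ (𝒜 : Type) (_ : Ring 𝒜) (_ : StarRing 𝒜) (_ : Algebra ℂ 𝒜) (_ : StarModule ℂ 𝒜)
      (m : R →⋆ₐ[ℂ] 𝒜) (L : Γ →* 𝒜) (B₀ : Type) (_ : CStarAlgebra B₀) (lam : 𝒜 →⋆ₐ[ℂ] B₀),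
      Function.Injective lam ∧ CrossAlg α m L := by
  classical
  obtain ⟨m, hm⟩ := h.exists_mop Γ
  refine ⟨CA m (Lop c), inferInstance, inferInstance, inferInstance, inferInstance, mCA m (Lop c),
    LCA m (Lop c), _, inferInstance, (CA m (Lop c)).subtype, Subtype.val_injective,
    crossAlg_CA α m (Lop c) (star_Lop c) ?_ ?_⟩
  · intro g f
    ext ξ p
    show (Lop c g (m f ξ)) p = (m (α g f) (Lop c g ξ)) p
    rw [Lop_apply, hm, hm, hα, Lop_apply]
  · intro F hF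
    ext g
    refine h.ext fun k => ?_
    let φ : (E2 (Γ × K) →L[ℂ] E2 (Γ × K)) →ₗ[ℂ] ℂ :=
      { toFun := fun x => (x (dirac (1, (c g)⁻¹ * k * c g))) (g, k)
        map_add' := fun x y => rfl
        map_smul' := fun c x => rfl }
    have hφ : ∀ f g', φ (m f * Lop c g') = if g' = g then ev f k else 0 := by
      intro f g'
      show (m f (Lop c g' (dirac (1, (c g)⁻¹ * k * c g)))) (g, k) = _
      rw [hm, Lop_apply, dirac_apply]
      by_cases e : g' = g
      · subst e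
        simp
      · rw [if_neg e, if_neg, mul_zero]
        intro e'
        exact e (inv_mul_eq_one.1 (congrArg Prod.fst e'))
    have h1 := congrArg φ hF
    rw [map_finsuppSum, map_zero] at h1
    simp only [hφ, Finsupp.sum, Finset.sum_ite_eq', Finsupp.mem_support_iff] at h1
    by_cases e : F g = 0
    · rw [e]; rfl
    · rw [if_pos e] at h1
      rw [h1]
      simp

variable {𝒜 : Type} [Ring 𝒜] [StarRing 𝒜] [Algebra ℂ 𝒜] [StarModule ℂ 𝒜]
variable {ι : Type} [Fintype ι] [DecidableEq ι]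

/-- the fundamental corepresentation of the crossed product -/
def cmat (v : Matrix n n R) (m : R →⋆ₐ[ℂ] 𝒜) (L : Γ →* 𝒜) (s : ι → Γ) :
    Matrix (n ⊕ ι) (n ⊕ ι) 𝒜 :=
  Matrix.fromBlocks (v.map m) 0 0 (Matrix.diagonal fun i => L (s i))

theorem FunAlg.exists_hopf (h : FunAlg vf ev v) (c : Γ →* K) {α : Γ → R →⋆ₐ[ℂ] R}
    (hα : ∀ g a x, ev (α g a) x = ev a ((c g)⁻¹ * x * c g)) {m : R →⋆ₐ[ℂ] 𝒜} {L : Γ →* 𝒜}
    (hx : CrossAlg α m L) (s : ι → Γ) (hs : Subgroup.closure (Set.range s) = ⊤) :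
    ∃ (Δ : 𝒜 →⋆ₐ[ℂ] 𝒜 ⊗[ℂ] 𝒜) (ε : 𝒜 →⋆ₐ[ℂ] ℂ) (S : 𝒜 →⋆ₐ[ℂ] 𝒜ᵐᵒᵖ) (D : R →⋆ₐ[ℂ] R ⊗[ℂ] R),
      (∀ a x y, mu ev (D a) (x, y) = ev a (x * y)) ∧ (∀ f, Δ (m f) = tmap m (D f)) ∧
      (∀ g, Δ (L g) = L g ⊗ₜ L g) ∧ IsCorep Δ (v.map m) ∧ AlgQG (cmat v m L s) Δ ε S := by
  obtain ⟨D, hD, hD'⟩ := h.exists_comul
  obtain ⟨τ, hτ, hτ'⟩ := h.exists_inv
  let L2 : Γ →* 𝒜 ⊗[ℂ] 𝒜 :=
    { toFun := fun g => L g ⊗ₜ L g
      map_one' := by rw [map_one]; rfl
      map_mul' := fun g g' => by rw [map_mul, Algebra.TensorProduct.tmul_mul_tmul] }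
  have hL2 : ∀ g, L2 g = L g ⊗ₜ L g := fun _ => rfl
  obtain ⟨Δ, hΔ1, hΔ2⟩ := hx.exists_lift ((tmap m).comp D) L2
    (fun g => by rw [hL2, hL2, TensorProduct.star_tmul, hx.star_eq]) (by
      intro g f
      have e1 : ∀ t x y, mu ev (tmap (α g) t) (x, y) =
          mu ev t ((c g)⁻¹ * x * c g, (c g)⁻¹ * y * c g) := by
        intro t x y
        induction t with
        | zero => simp
        | add a b ha hb => simp only [map_add, Pi.add_apply, ha, hb]
        | tmul a b => rw [tmap_tmul, mu_tmul, mu_tmul, hα, hα]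
      have e2 : D (α g f) = tmap (α g) (D f) := by
        apply mu_injective ev h.inj
        ext ⟨x, y⟩
        rw [e1, hD, hD, hα]
        group
      have e3 : ∀ t, L2 g * tmap m t = tmap m (tmap (α g) t) * L2 g := by
        intro t
        induction t with
        | zero => simp
        | add a b ha hb => simp only [map_add, mul_add, add_mul, ha, hb]
        | tmul a b =>
          rw [tmap_tmul, tmap_tmul, tmap_tmul, hL2, Algebra.TensorProduct.tmul_mul_tmul,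
            Algebra.TensorProduct.tmul_mul_tmul, hx.comm, hx.comm]
      rw [StarAlgHom.comp_apply, StarAlgHom.comp_apply, e2, e3])
  obtain ⟨ε, hε1, hε2⟩ := hx.exists_lift (evp ev 1) (1 : Γ →* ℂ) (fun g => by simp) (by
    intro g f
    rw [evp_apply, evp_apply, hα]
    simp)
  let mo : R →⋆ₐ[ℂ] 𝒜ᵐᵒᵖ :=
    { toFun := fun f => MulOpposite.op (m (τ f))
      map_one' := by simp
      map_mul' := fun a b => by rw [h.comm a b, map_mul, map_mul, MulOpposite.op_mul]
      map_zero' := by simp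
      map_add' := fun a b => by simp
      commutes' := fun r => by
        rw [AlgHomClass.commutes, AlgHomClass.commutes]; rfl
      map_star' := fun a => by rw [map_star, map_star]; rfl }
  have hmo : ∀ f, mo f = MulOpposite.op (m (τ f)) := fun _ => rfl
  let Lo : Γ →* 𝒜ᵐᵒᵖ :=
    { toFun := fun g => MulOpposite.op (L g⁻¹)
      map_one' := by simp
      map_mul' := fun g g' => by rw [mul_inv_rev, map_mul, MulOpposite.op_mul] }
  have hLo : ∀ g, Lo g = MulOpposite.op (L g⁻¹) := fun _ => rfl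
  obtain ⟨S, hS1, hS2⟩ := hx.exists_lift mo Lo
    (fun g => by rw [hLo, hLo, ← MulOpposite.op_star, hx.star_eq]) (by
      intro g f
      rw [hLo, hmo, hmo, ← MulOpposite.op_mul, ← MulOpposite.op_mul, hx.comm]
      have : α g⁻¹ (τ (α g f)) = τ f := by
        refine h.ext fun x => ?_
        rw [hα, hτ, hα, hτ, map_inv]
        group
      rw [this])
  have c1 : IsCorep Δ (v.map m) := by
    refine ⟨map_mem_unitary h.unit m, fun i j => ?_⟩
    rw [Matrix.map_apply, hΔ1, StarAlgHom.comp_apply, hD', map_sum]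
    simp only [tmap_tmul, Matrix.map_apply]
  have c2 : IsCorep Δ (Matrix.diagonal fun i => L (s i)) := by
    constructor
    · rw [Unitary.mem_iff, Matrix.star_eq_conjTranspose, Matrix.diagonal_conjTranspose,
        Matrix.diagonal_mul_diagonal, Matrix.diagonal_mul_diagonal]
      simp only [Pi.star_apply, hx.star_eq, ← map_mul, inv_mul_cancel, mul_inv_cancel, map_one,
        Matrix.diagonal_one, and_self]
    · intro i j
      rw [Finset.sum_eq_single i]
      · by_cases e : i = j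
        · subst e
          simp [hΔ2, hL2]
        · simp [Matrix.diagonal_apply_ne _ e]
      · intro k _ hk
        simp [Matrix.diagonal_apply_ne _ hk.symm]
      · simp
  have c3 := isCorep_fromBlocks c1 c2
  refine ⟨Δ, ε, S, D, hD, hΔ1, hΔ2, c1, c3.1, ?_, c3.2, ?_, ?_⟩
  · rw [eq_top_iff]
    intro a _
    set V := StarAlgebra.adjoin ℂ {a | ∃ i j, a = cmat v m L s i j} with hV
    have a1 : ∀ f, m f ∈ V := by
      intro f
      refine h.induction (p := fun f => m f ∈ V) ?_ ?_ ?_ ?_ ?_ f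
      · intro i j
        exact StarAlgebra.subset_adjoin ℂ _ ⟨Sum.inl i, Sum.inl j, rfl⟩
      · intro r
        rw [AlgHomClass.commutes]; exact algebraMap_mem _ r
      · intro x y hx hy
        rw [map_add]; exact add_mem hx hy
      · intro x y hx hy
        rw [map_mul]; exact mul_mem hx hy
      · intro x hx
        rw [map_star]; exact star_mem hx
    have a2 : ∀ g, L g ∈ V := by
      intro g
      have hg : g ∈ Subgroup.closure (Set.range s) := by rw [hs]; trivial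
      induction hg using Subgroup.closure_induction with
      | mem x hx =>
        obtain ⟨i, rfl⟩ := hx
        exact StarAlgebra.subset_adjoin ℂ _ ⟨Sum.inr i, Sum.inr i, by simp [cmat]⟩
      | one => rw [map_one]; exact one_mem _
      | mul x y _ _ hx hy => rw [map_mul]; exact mul_mem hx hy
      | inv x _ hx' => rw [← hx.star_eq]; exact star_mem hx'
    refine hx.induction (p := fun a => a ∈ V) (fun f g => mul_mem (a1 f) (a2 g)) (zero_mem _)
      (fun x y => add_mem) a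
  · rintro (i | i) (j | j)
    · simp [cmat, hε1, evp_apply, h.val, Matrix.one_apply]
    · simp [cmat]
    · simp [cmat]
    · by_cases e : i = j
      · subst e
        simp [cmat, hε2]
      · simp [cmat, Matrix.diagonal_apply_ne _ e, e]
  · rintro (i | i) (j | j)
    · simp [cmat, hS1, hmo, hτ', map_star]
    · simp [cmat]
    · simp [cmat]
    · by_cases e : i = j
      · subst e
        simp [cmat, hS2, hLo, hx.star_eq]
      · simp [cmat, Matrix.diagonal_apply_ne _ e, Matrix.diagonal_apply_ne' _ e]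

end Pool.Agent.H287Z.QG
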