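import Mathlib
import Pool.Agent.H287Z.QG.Semi
import Pool.Agent.H287Z.QG.CharDefs

set_option autoImplicit false
set_option linter.unusedSectionVars false
set_option linter.unusedSimpArgs false

open scoped TensorProduct

noncomputable section

namespace Pool.Agent.H287Z.QG

/-- the left slice map -/
def slice {V : Type} [AddCommGroup V] [Module ℂ V] (φ : V →ₗ[ℂ] ℂ) : V ⊗[ℂ] V →ₗ[ℂ] V :=
  (TensorProduct.lid ℂ V).toLinearMap.comp (TensorProduct.map φ LinearMap.id)

theorem slice_tmul {V : Type} [AddCommGroup V] [Module ℂ V] (φ : V →ₗ[ℂ] ℂ) (x y : V) :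
    slice φ (x ⊗ₜ y) = φ x • y := by
  simp [slice]

variable {R : Type} [Ring R] [StarRing R] [Algebra ℂ R] [StarModule ℂ R]
variable {K : Type} [Group K] {n : Type} [Fintype n] [DecidableEq n] {Γ : Type} [Group Γ]
variable {vf : K →* Matrix n n ℂ} {ev : R →⋆ₐ[ℂ] (K → ℂ)} {v : Matrix n n R}
variable {𝒜 : Type} [Ring 𝒜] [StarRing 𝒜] [Algebra ℂ 𝒜] [StarModule ℂ 𝒜]

theorem CrossAlg.m_injective {α : Γ → R →⋆ₐ[ℂ] R} {m : R →⋆ₐ[ℂ] 𝒜} {L : Γ →* 𝒜}
    (hx : CrossAlg α m L) : Function.Injective m := by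
  obtain ⟨E, hE⟩ := hx.exists_coef 1
  intro a b hab
  have h1 := hE a 1
  have h2 := hE b 1
  rw [if_pos rfl] at h1 h2
  rw [← h1, ← h2, hab]

theorem FunAlg.connected [TopologicalSpace K] [PreconnectedSpace K] [IsMulTorsionFree Γ]
    (h : FunAlg vf ev v) (hc : ∀ i j, Continuous fun k => vf k i j) (c : Γ →* K)
    {α : Γ → R →⋆ₐ[ℂ] R} (hα : ∀ g a x, ev (α g a) x = ev a ((c g)⁻¹ * x * c g))
    {m : R →⋆ₐ[ℂ] 𝒜} {L : Γ →* 𝒜} (hx : CrossAlg α m L) {Δ : 𝒜 →⋆ₐ[ℂ] 𝒜 ⊗[ℂ] 𝒜}
    {D : R →⋆ₐ[ℂ] R ⊗[ℂ] R} (hD : ∀ a x y, mu ev (D a) (x, y) = ev a (x * y))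
    (hΔ1 : ∀ f, Δ (m f) = tmap m (D f)) (hΔ2 : ∀ g, Δ (L g) = L g ⊗ₜ L g) : Connected Δ := by
  classical
  intro B hB hΔ
  choose E hE using hx.exists_coef
  let e : K → R →ₗ[ℂ] ℂ := fun k => (evp ev k).toAlgHom.toLinearMap
  have he : ∀ k a, e k a = ev a k := fun _ _ => rfl
  let φ : Γ → K → 𝒜 →ₗ[ℂ] ℂ := fun g k => (e k).comp (E g)
  have hφ : ∀ g k f g', φ g k (m f * L g') = if g' = g then ev f k else 0 := by
    intro g k f g'
    show e k (E g (m f * L g')) = _
    rw [hE]
    split_ifs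
    · rfl
    · exact map_zero _
  have s1 : ∀ (ψ : 𝒜 →ₗ[ℂ] ℂ), ∀ b ∈ B, slice ψ (Δ b) ∈ B := by
    intro ψ b hb
    have : ∀ t ∈ Submodule.span ℂ {t | ∃ x ∈ B, ∃ y ∈ B, t = x ⊗ₜ[ℂ] y}, slice ψ t ∈ B := by
      intro t ht
      induction ht using Submodule.span_induction with
      | mem x hx =>
        obtain ⟨x, -, y, hy, rfl⟩ := hx
        rw [slice_tmul]
        exact SMulMemClass.smul_mem _ hy
      | zero => rw [map_zero]; exact zero_mem _
      | add x y _ _ hx hy => rw [map_add]; exact add_mem hx hy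
      | smul c x _ hx => rw [map_smul]; exact SMulMemClass.smul_mem _ hx
    exact this _ (hΔ b hb)
  have s2 : ∀ k t x, ev (slice (e k) t) x = mu ev t (k, x) := by
    intro k t x
    induction t with
    | zero => simp
    | add a b ha hb => simp only [map_add, Pi.add_apply, ha, hb]
    | tmul a b => rw [slice_tmul, mu_tmul, map_smul, he]; rfl
  have s3 : ∀ g k g' t, slice (φ g k) (tmap m t * (L g' ⊗ₜ L g')) =
      if g' = g then m (slice (e k) t) * L g else 0 := by
    intro g k g' t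
    induction t with
    | zero => simp
    | add a b ha hb =>
      simp only [map_add, add_mul, ha, hb]
      split_ifs <;> simp
    | tmul a b =>
      rw [tmap_tmul, Algebra.TensorProduct.tmul_mul_tmul, slice_tmul, hφ, slice_tmul, he]
      split_ifs with e1
      · rw [e1, map_smul, smul_mul_assoc]
      · rw [zero_smul]
  have s4 : ∀ g k a, slice (φ g k) (Δ a) = m (slice (e k) (D (E g a))) * L g := by
    intro g k a
    refine hx.induction (p := fun a => slice (φ g k) (Δ a) = m (slice (e k) (D (E g a))) * L g)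
      ?_ (by simp) ?_ a
    · intro f g'
      rw [map_mul, hΔ1, hΔ2, s3, hE]
      split_ifs <;> simp
    · intro x y hx hy
      simp only [map_add, hx, hy, add_mul]
  have s5 : ∀ b ∈ B, ∀ g, g ≠ 1 → E g b = 0 := by
    intro b hb g hg
    refine h.ext fun k => ?_
    rw [map_zero, Pi.zero_apply]
    by_contra hne
    set f := slice (e k) (D (E g b)) with hf
    have hf1 : ev f 1 = ev (E g b) k := by rw [hf, s2, hD, mul_one]
    have hz : m f * L g ∈ B := by
      rw [hf, ← s4]
      exact s1 _ b hb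
    have hp : ∀ N : ℕ, ∃ f', (m f * L g) ^ N = m f' * L (g ^ N) ∧ ev f' 1 = ev f 1 ^ N := by
      intro N
      induction N with
      | zero => exact ⟨1, by simp, by simp⟩
      | succ N ih =>
        obtain ⟨f', h1, h2⟩ := ih
        refine ⟨f' * α (g ^ N) f, ?_, ?_⟩
        · rw [pow_succ, h1, pow_succ, map_mul, map_mul, mul_assoc, ← mul_assoc (L (g ^ N)),
            hx.comm]
          simp only [mul_assoc]
        · rw [map_mul, Pi.mul_apply, h2, hα, mul_one, inv_mul_cancel, pow_succ]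
    have hli : LinearIndependent ℂ fun N : ℕ => (⟨m f * L g, hz⟩ : B) ^ N := by
      apply LinearIndependent.of_comp B.subtype.toAlgHom.toLinearMap
      rw [linearIndependent_iff']
      intro s a hs N hN
      have h1 := congrArg (φ (g ^ N) 1) hs
      rw [map_sum, map_zero, Finset.sum_eq_single N] at h1
      · obtain ⟨f', h2, h3⟩ := hp N
        have h4 : (B.subtype.toAlgHom.toLinearMap ∘ fun N : ℕ => (⟨m f * L g, hz⟩ : B) ^ N) N =
            (m f * L g) ^ N := rfl
        rw [h4, h2, map_smul, hφ, if_pos rfl, h3, hf1, smul_eq_mul] at h1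
        exact (mul_eq_zero.1 h1).resolve_right (pow_ne_zero _ hne)
      · intro M _ hM
        obtain ⟨f', h2, h3⟩ := hp M
        have h4 : (B.subtype.toAlgHom.toLinearMap ∘ fun N : ℕ => (⟨m f * L g, hz⟩ : B) ^ N) M =
            (m f * L g) ^ M := rfl
        rw [h4, h2, map_smul, hφ, if_neg, smul_zero]
        exact fun e1 => hM (IsMulTorsionFree.pow_right_injective hg e1)
      · exact fun e1 => absurd hN e1
    have : Finite ℕ := hli.finite_of_isNoetherian
    exact not_finite ℕ
  rw [eq_bot_iff]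
  intro b hb
  obtain ⟨F, hF⟩ := hx.exists_finsupp b
  have s6 : ∀ g, E g b = F g := by
    intro g
    rw [hF, map_finsuppSum]
    simp only [hE, Finsupp.sum, Finset.sum_ite_eq', Finsupp.mem_support_iff]
    split_ifs with e1
    · rfl
    · exact (not_not.1 e1).symm
  have s7 : b = m (F 1) := by
    have : F = Finsupp.single 1 (F 1) := by
      ext g
      by_cases hg : g = 1
      · rw [hg, Finsupp.single_eq_same]
      · rw [Finsupp.single_eq_of_ne hg, ← s6, s5 b hb g hg]
    have h2 : (F.sum fun g f => m f * L g) =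
        (Finsupp.single 1 (F 1)).sum fun g f => m f * L g := by rw [← this]
    rw [hF, h2, Finsupp.sum_single_index (by simp), map_one L, mul_one]
  obtain ⟨p, hp1, hp2⟩ : IsIntegral ℂ (⟨b, hb⟩ : B) := Algebra.IsIntegral.isIntegral _
  have s8 : ∀ k, ev (F 1) k ∈ p.rootSet ℂ := by
    intro k
    rw [Polynomial.mem_rootSet]
    refine ⟨hp1.ne_zero, ?_⟩
    have h1 : Polynomial.aeval (⟨b, hb⟩ : B) p = 0 := hp2
    have h2 : Polynomial.aeval b p = 0 := by
      have := Polynomial.aeval_algHom_apply B.subtype.toAlgHom (⟨b, hb⟩ : B) p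
      rw [h1, map_zero] at this
      exact this
    have h3 : Polynomial.aeval (F 1) p = 0 := by
      apply hx.m_injective
      rw [map_zero, ← h2, s7]
      exact (Polynomial.aeval_algHom_apply m.toAlgHom (F 1) p).symm
    have h4 := Polynomial.aeval_algHom_apply (evp ev k).toAlgHom (F 1) p
    rw [h3, map_zero] at h4
    exact h4
  have s9 : F 1 = algebraMap ℂ R (ev (F 1) 1) := by
    refine h.ext fun k => ?_
    rw [AlgHomClass.commutes]
    exact isPreconnected_univ.constant_of_mapsTo (p.rootSet_finite ℂ).isDiscrete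
      (h.continuous hc (F 1)).continuousOn (fun k _ => s8 k) (Set.mem_univ k) (Set.mem_univ 1)
  rw [s7, s9, AlgHomClass.commutes]
  exact algebraMap_mem _ _

end Pool.Agent.H287Z.QG
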