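import Mathlib
import Pool.Agent.H287Z.QG.Conn

set_option autoImplicit false
set_option linter.unusedSectionVars false
set_option linter.unusedSimpArgs false

open scoped TensorProduct Matrix Quaternion

noncomputable section

namespace Pool.Agent.H287Z.QG

open Complex in
theorem two_by_two (V C1 C2 : Matrix (Fin 2) (Fin 2) ℂ)
    (e1 : C1 = !![⟨1 / 2, 1 / 2⟩, ⟨1 / 2, 1 / 2⟩; ⟨-(1 / 2), 1 / 2⟩, ⟨1 / 2, -(1 / 2)⟩])
    (e2 : C2 = !![⟨0, 1⟩, ⟨0, 0⟩; ⟨-0, 0⟩, ⟨0, -1⟩])
    (h1 : V * (star C1 * V * C1) = (star C1 * V * C1) * V)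
    (h2 : V * (star C2 * V * C2) = (star C2 * V * C2) * V) :
    V 0 1 = 0 ∧ V 1 0 = 0 ∧ V 0 0 = V 1 1 := by
  obtain ⟨x0, x1, x2, x3, hV⟩ : ∃ x0 x1 x2 x3 : ℂ,
      V = !![x0 + I * x1, x2 + I * x3; -x2 + I * x3, x0 - I * x1] := by
    refine ⟨(V 0 0 + V 1 1) / 2, -I * (V 0 0 - V 1 1) / 2, (V 0 1 - V 1 0) / 2,
      -I * (V 0 1 + V 1 0) / 2, ?_⟩
    ext i j
    fin_cases i <;> fin_cases j <;> simp <;> ring_nf <;> simp [I_sq] <;> ring
  have a1 : C1 = !![(1 + I) / 2, (1 + I) / 2; (-1 + I) / 2, (1 - I) / 2] := by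
    rw [e1]
    ext i j
    fin_cases i <;> fin_cases j <;> apply Complex.ext <;> simp <;> norm_num
  have a2 : C2 = !![I, 0; 0, -I] := by
    rw [e2]
    ext i j
    fin_cases i <;> fin_cases j <;> apply Complex.ext <;> simp
  have b1 : star C1 = !![(1 - I) / 2, (-1 - I) / 2; (1 - I) / 2, (1 + I) / 2] := by
    rw [a1]
    ext i j
    fin_cases i <;> fin_cases j <;> apply Complex.ext <;> simp
  have b2 : star C2 = !![-I, 0; 0, I] := by
    rw [a2]
    ext i j
    fin_cases i <;> fin_cases j <;> simp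
  have c1 : star C1 * V * C1 = !![x0 + I * x2, x3 + I * x1; -x3 + I * x1, x0 - I * x2] := by
    rw [b1, a1, hV]
    ext i j
    fin_cases i <;> fin_cases j <;> simp [Matrix.mul_apply, Fin.sum_univ_two] <;> ring_nf <;>
      simp [I_sq, I_pow_three] <;> ring
  have c2 : star C2 * V * C2 = !![x0 + I * x1, -x2 - I * x3; x2 - I * x3, x0 - I * x1] := by
    rw [b2, a2, hV]
    ext i j
    fin_cases i <;> fin_cases j <;> simp [Matrix.mul_apply, Fin.sum_univ_two] <;> ring_nf <;>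
      simp [I_sq, I_pow_three] <;> ring
  rw [c1, hV] at h1
  rw [c2, hV] at h2
  have p00 := congrFun (congrFun h1 0) 0
  have p01 := congrFun (congrFun h1 0) 1
  have p10 := congrFun (congrFun h1 1) 0
  have q01 := congrFun (congrFun h2 0) 1
  have q10 := congrFun (congrFun h2 1) 0
  simp [Matrix.mul_apply, Fin.sum_univ_two] at p00 p01 p10 q01 q10
  have hI : (I : ℂ) ≠ 0 := I_ne_zero
  have r1 : x1 * x2 = 0 := by
    apply mul_left_cancel₀ hI
    linear_combination (-1 / 8) * q01 + (-1 / 8) * q10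
  have r2 : x1 * x3 = 0 := by
    apply mul_left_cancel₀ hI
    apply mul_left_cancel₀ hI
    linear_combination (-1 / 8) * q01 + (1 / 8) * q10
  have r3 : x3 = 0 := by
    apply pow_eq_zero_iff (two_ne_zero) |>.1
    apply mul_left_cancel₀ hI
    linear_combination (-1 / 2) * p00 + I * r1
  have r4 : x2 = 0 := by
    apply pow_eq_zero_iff (two_ne_zero) |>.1
    apply mul_left_cancel₀ hI
    linear_combination (-1 / 4) * p01 + (-1 / 4) * p10 + I * r2
  have r5 : x1 = 0 := by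
    apply pow_eq_zero_iff (two_ne_zero) |>.1
    apply mul_left_cancel₀ hI
    apply mul_left_cancel₀ hI
    linear_combination (1 / 4) * p01 + (-1 / 4) * p10 + I * I * x2 * r3
  rw [hV, r3, r4, r5]
  simp

section
variable {P : Type} [Ring P] [StarRing P] [Algebra ℂ P] [StarModule ℂ P]
variable {Δ : P →⋆ₐ[ℂ] P ⊗[ℂ] P}

theorem IsCorep.trace_mem {ι : Type} [Fintype ι] [DecidableEq ι] {w : Matrix ι ι P}
    (hw : IsCorep Δ w) :
    w.trace ∈ Submodule.span ℂ {a | ∃ r : Irrep Δ, a = ∑ i, r.mat i i} := by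
  obtain ⟨l, h1, h2⟩ := exists_decomp _ ι w le_rfl hw
  have h3 := eq_sum_of_decomp w l fun x hx => (h1 x hx).2
  rw [h2, sc_one, mul_one] at h3
  rw [h3, Matrix.trace_list_sum, List.map_map]
  refine list_sum_mem fun a ha => ?_
  obtain ⟨x, hx, rfl⟩ := List.mem_map.1 ha
  refine Submodule.subset_span ⟨x.1, ?_⟩
  have h4 := (h1 x hx).1
  show ∑ i, (sc P x.2 * x.1.mat * sc P x.2ᴴ) i i = _
  simp only [sc_mul_apply]
  rw [Finset.sum_comm]
  refine Finset.sum_congr rfl fun k _ => ?_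
  rw [Finset.sum_comm]
  have h5 : ∀ l, ∑ i, (x.2 i k * x.2ᴴ l i) • x.1.mat k l = if l = k then x.1.mat k l else 0 := by
    intro l
    rw [← Finset.sum_smul]
    have : ∑ i, x.2 i k * x.2ᴴ l i = (x.2ᴴ * x.2) l k := by
      rw [Matrix.mul_apply]
      exact Finset.sum_congr rfl fun i _ => mul_comm _ _
    rw [this, h4, Matrix.one_apply]
    split_ifs <;> simp
  simp only [h5, Finset.sum_ite_eq', Finset.mem_univ, if_true]

theorem trace_tpow_two {ι : Type} [Fintype ι] [DecidableEq ι] (x : Matrix ι ι P) :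
    (tpow x 2).trace = x.trace * x.trace := by
  simp only [Matrix.trace, Matrix.diag_apply]
  rw [sum_pi_succ, Finset.sum_mul_sum]
  refine Finset.sum_congr rfl fun a _ => ?_
  rw [sum_pi_succ]
  refine Finset.sum_congr rfl fun b _ => ?_
  simp [tpow_succ, tpow_zero]

theorem commute_of_diag {N : Type} [Fintype N] [DecidableEq N] (u : Matrix N N P)
    (Q : Matrix.unitaryGroup N ℂ) (χ χ' : P →ₗ[ℂ] ℂ)
    (h : ∀ i j, i ≠ j → χ ((sc P (Q : Matrix N N ℂ) * u * sc P (star (Q : Matrix N N ℂ))) i j) = 0)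
    (h' : ∀ i j, i ≠ j →
      χ' ((sc P (Q : Matrix N N ℂ) * u * sc P (star (Q : Matrix N N ℂ))) i j) = 0) :
    u.map χ * u.map χ' = u.map χ' * u.map χ := by
  have hQ2 : star (Q : Matrix N N ℂ) * (Q : Matrix N N ℂ) = 1 := (Unitary.mem_iff.1 Q.2).1
  have key : ∀ χ : P →ₗ[ℂ] ℂ, (∀ i j, i ≠ j →
      χ ((sc P (Q : Matrix N N ℂ) * u * sc P (star (Q : Matrix N N ℂ))) i j) = 0) →
      ∃ d, u.map χ = star (Q : Matrix N N ℂ) * Matrix.diagonal d * (Q : Matrix N N ℂ) := by
    intro χ h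
    have e1 : (Q : Matrix N N ℂ) * u.map χ * star (Q : Matrix N N ℂ) =
        (sc P (Q : Matrix N N ℂ) * u * sc P (star (Q : Matrix N N ℂ))).map χ := by
      ext i j
      rw [Matrix.map_apply, sc_mul_apply]
      simp only [map_sum, map_smul, Matrix.mul_apply, Matrix.map_apply, smul_eq_mul,
        Finset.sum_mul]
      rw [Finset.sum_comm]
      refine Finset.sum_congr rfl fun k _ => Finset.sum_congr rfl fun l _ => ?_
      ring
    have e2 : ((sc P (Q : Matrix N N ℂ) * u * sc P (star (Q : Matrix N N ℂ))).map χ).IsDiag :=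
      fun i j hij => h i j hij
    refine ⟨((sc P (Q : Matrix N N ℂ) * u * sc P (star (Q : Matrix N N ℂ))).map χ).diag, ?_⟩
    rw [e2.diagonal_diag, ← e1]
    simp only [← Matrix.mul_assoc, hQ2, Matrix.one_mul]
    rw [Matrix.mul_assoc, hQ2, Matrix.mul_one]
  obtain ⟨d, hd⟩ := key χ h
  obtain ⟨d', hd'⟩ := key χ' h'
  have hQ1 : (Q : Matrix N N ℂ) * star (Q : Matrix N N ℂ) = 1 := (Unitary.mem_iff.1 Q.2).2
  have e : ∀ a b : N → ℂ, star (Q : Matrix N N ℂ) * Matrix.diagonal a * (Q : Matrix N N ℂ) *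
      (star (Q : Matrix N N ℂ) * Matrix.diagonal b * (Q : Matrix N N ℂ)) =
      star (Q : Matrix N N ℂ) * Matrix.diagonal (a * b) * (Q : Matrix N N ℂ) := by
    intro a b
    have : Matrix.diagonal (a * b) = Matrix.diagonal a * Matrix.diagonal b :=
      (Matrix.diagonal_mul_diagonal a b).symm
    rw [this]
    simp only [Matrix.mul_assoc]
    rw [← Matrix.mul_assoc (Q : Matrix N N ℂ), hQ1, Matrix.one_mul]
  rw [hd, hd', e, e, mul_comm d d']

end

/-- the group of unit quaternions -/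
abbrev SU : Type := Metric.sphere (0 : ℍ[ℝ]) 1

instance : PreconnectedSpace SU :=
  isPreconnected_iff_preconnectedSpace.1 (isPreconnected_sphere (by
    rw [Quaternion.rank_eq_four]; norm_num) _ _)

def qm (q : ℍ[ℝ]) : Matrix (Fin 2) (Fin 2) ℂ :=
  !![⟨q.re, q.imI⟩, ⟨q.imJ, q.imK⟩; ⟨-q.imJ, q.imK⟩, ⟨q.re, -q.imI⟩]

theorem qm_mul (p q : ℍ[ℝ]) : qm (p * q) = qm p * qm q := by
  ext i j
  fin_cases i <;> fin_cases j <;> apply Complex.ext <;>
    simp [qm, Matrix.mul_apply, Fin.sum_univ_two] <;> ring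

theorem qm_star (q : ℍ[ℝ]) : qm (star q) = star (qm q) := by
  ext i j
  fin_cases i <;> fin_cases j <;> apply Complex.ext <;> simp [qm]

def vq : SU →* Matrix (Fin 2) (Fin 2) ℂ where
  toFun q := qm q
  map_one' := by
    ext i j
    fin_cases i <;> fin_cases j <;> apply Complex.ext <;> simp [qm]
  map_mul' p q := qm_mul p q

theorem normSq_SU (q : SU) : Quaternion.normSq (q : ℍ[ℝ]) = 1 := by
  rw [Quaternion.normSq_eq_norm_mul_self, mem_sphere_zero_iff_norm.1 q.2, mul_one]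

theorem vq_inv (q : SU) : vq q⁻¹ = star (vq q) := by
  show qm (q⁻¹ : SU) = star (qm q)
  rw [← qm_star, Metric.unitSphere.coe_inv]
  congr 1
  apply inv_eq_of_mul_eq_one_right
  rw [Quaternion.self_mul_star, normSq_SU]
  rfl

theorem vq_cont (i j : Fin 2) : Continuous fun k : SU => vq k i j := by
  have key : ∀ f g : SU → ℝ, Continuous f → Continuous g →
      Continuous fun k => (⟨f k, g k⟩ : ℂ) := by
    intro f g hf hg
    have : (fun k => (⟨f k, g k⟩ : ℂ)) = fun k => (f k : ℂ) + (g k : ℂ) * Complex.I := by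
      ext k
      apply Complex.ext <;> simp
    rw [this]
    fun_prop
  have c0 : Continuous fun k : SU => (k : ℍ[ℝ]).re :=
    Quaternion.continuous_re.comp continuous_subtype_val
  have c1 : Continuous fun k : SU => (k : ℍ[ℝ]).imI :=
    Quaternion.continuous_imI.comp continuous_subtype_val
  have c2 : Continuous fun k : SU => (k : ℍ[ℝ]).imJ :=
    Quaternion.continuous_imJ.comp continuous_subtype_val
  have c3 : Continuous fun k : SU => (k : ℍ[ℝ]).imK :=
    Quaternion.continuous_imK.comp continuous_subtype_val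
  fin_cases i <;> fin_cases j
  · exact key _ _ c0 c1
  · exact key _ _ c2 c3
  · exact key _ _ c2.neg c3
  · exact key _ _ c0 c1.neg

theorem mem_SU (q : ℍ[ℝ]) (h : Quaternion.normSq q = 1) : q ∈ Metric.sphere (0 : ℍ[ℝ]) 1 := by
  rw [mem_sphere_zero_iff_norm]
  rw [Quaternion.normSq_eq_norm_mul_self] at h
  nlinarith [norm_nonneg q]

def q1 : SU := ⟨⟨1 / 2, 1 / 2, 1 / 2, 1 / 2⟩,
  mem_SU _ ((Quaternion.normSq_def' _).trans (by norm_num))⟩

def q2 : SU := ⟨⟨0, 1, 0, 0⟩, mem_SU _ ((Quaternion.normSq_def' _).trans (by norm_num))⟩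

theorem vq_det (q : SU) : vq q 0 0 * vq q 1 1 - vq q 0 1 * vq q 1 0 = 1 := by
  have := normSq_SU q
  rw [Quaternion.normSq_def'] at this
  apply Complex.ext
  · simp [vq, qm]
    linarith
  · simp [vq, qm]
    ring

/-- the action of the free group on two generators -/
def cF : FreeGroup (Fin 2) →* SU := FreeGroup.lift ![q1, q2]

section
variable {R : Type} [Ring R] [StarRing R] [Algebra ℂ R] [StarModule ℂ R]
variable {ev : R →⋆ₐ[ℂ] (SU → ℂ)} {v : Matrix (Fin 2) (Fin 2) R}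
variable {𝒜 : Type} [Ring 𝒜] [StarRing 𝒜] [Algebra ℂ 𝒜] [StarModule ℂ 𝒜]

theorem torus_kills (h : FunAlg vq ev v) {α : FreeGroup (Fin 2) → R →⋆ₐ[ℂ] R}
    (hα : ∀ g, v.map (α g) = sc R (star (vq (cF g))) * v * sc R (vq (cF g)))
    {m : R →⋆ₐ[ℂ] 𝒜} {L : FreeGroup (Fin 2) →* 𝒜} (hx : CrossAlg α m L)
    {N : Type} [Fintype N] [DecidableEq N] (e : N ≃ Fin 2 ⊕ Fin 2) (Q : Matrix.unitaryGroup N ℂ)
    {T : Type} [Ring T] [Algebra ℂ T] (π : 𝒜 →ₐ[ℂ] T)
    (hπ : ∀ i j, i ≠ j → π ((sc 𝒜 (Q : Matrix N N ℂ) * (cmat v m L FreeGroup.of).submatrix e e *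
      sc 𝒜 (star (Q : Matrix N N ℂ))) i j) = 0) :
    π (m (v.trace * v.trace - (4 : ℂ) • 1)) = 0 := by
  have key : ∀ φ : T →ₗ[ℂ] ℂ, φ (π (m (v 0 1))) = 0 ∧ φ (π (m (v 1 0))) = 0 ∧
      φ (π (m (v 0 0))) = φ (π (m (v 1 1))) := by
    intro φ
    have k1 : ∀ ψ : T →ₗ[ℂ] ℂ, (v.map fun a => φ (π (m a))) * (v.map fun a => ψ (π (m a))) =
        (v.map fun a => ψ (π (m a))) * (v.map fun a => φ (π (m a))) := by
      intro ψ
      have h1 := commute_of_diag _ Q (φ.comp π.toLinearMap) (ψ.comp π.toLinearMap)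
        (fun i j hij => by
          show φ (π _) = 0
          rw [hπ i j hij, map_zero])
        (fun i j hij => by
          show ψ (π _) = 0
          rw [hπ i j hij, map_zero])
      rw [← Matrix.submatrix_map, ← Matrix.submatrix_map, Matrix.submatrix_mul_equiv,
        Matrix.submatrix_mul_equiv] at h1
      ext i j
      have h2 := congrFun (congrFun h1 (e.symm (Sum.inl i))) (e.symm (Sum.inl j))
      simpa [cmat, Matrix.mul_apply, Fintype.sum_sum_type] using h2
    have k2 : ∀ g, (v.map fun a => φ (π (m a))) *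
        (star (vq (cF g)) * (v.map fun a => φ (π (m a))) * vq (cF g)) =
        (star (vq (cF g)) * (v.map fun a => φ (π (m a))) * vq (cF g)) *
          (v.map fun a => φ (π (m a))) := by
      intro g
      have h1 := k1 (φ.comp ((LinearMap.mulLeft ℂ (π (L g))).comp
        (LinearMap.mulRight ℂ (π (L g⁻¹)))))
      have h2 : (v.map fun a => (φ.comp ((LinearMap.mulLeft ℂ (π (L g))).comp
          (LinearMap.mulRight ℂ (π (L g⁻¹))))) (π (m a))) =
          star (vq (cF g)) * (v.map fun a => φ (π (m a))) * vq (cF g) := by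
        ext i j
        have h3 := congrFun (congrFun (hα g) i) j
        rw [Matrix.map_apply, sc_mul_apply] at h3
        show φ (π (L g) * (π (m (v i j)) * π (L g⁻¹))) = _
        rw [← map_mul, ← map_mul, ← mul_assoc, hx.comm, mul_assoc, ← map_mul, mul_inv_cancel,
          map_one, mul_one, h3]
        simp only [map_sum, map_smul, Matrix.mul_apply, Matrix.map_apply, smul_eq_mul,
          Finset.sum_mul]
        rw [Finset.sum_comm]
        refine Finset.sum_congr rfl fun k _ => Finset.sum_congr rfl fun l _ => ?_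
        ring
      rwa [h2] at h1
    refine two_by_two (v.map fun a => φ (π (m a))) _ _ ?_ ?_ (k2 (FreeGroup.of 0))
      (k2 (FreeGroup.of 1))
    · rw [cF, FreeGroup.lift_apply_of]
      rfl
    · rw [cF, FreeGroup.lift_apply_of]
      rfl
  have a1 : π (m (v 0 1)) = 0 :=
    (Module.forall_dual_apply_eq_zero_iff ℂ _).1 fun φ => (key φ).1
  have a2 : π (m (v 0 0)) = π (m (v 1 1)) := by
    rw [← sub_eq_zero]
    refine (Module.forall_dual_apply_eq_zero_iff ℂ _).1 fun φ => ?_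
    rw [map_sub, (key φ).2.2, sub_self]
  have a3 : v 0 0 * v 1 1 - v 0 1 * v 1 0 = 1 := by
    refine h.ext fun k => ?_
    simp only [map_sub, map_mul, map_one, Pi.sub_apply, Pi.mul_apply, Pi.one_apply, h.val]
    exact vq_det k
  have a4 := congrArg (fun a => π (m a)) a3
  simp only [map_sub, map_mul, map_one, a1, a2, zero_mul, sub_zero] at a4
  simp only [Matrix.trace, Matrix.diag_apply, Fin.sum_univ_two, map_sub, map_mul, map_add,
    map_smul, map_one, a2, mul_add, add_mul, a4]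
  module

end

theorem char_example :
    ∃ (A : Type) (_ : CStarAlgebra A) (u : Matrix (Fin 4) (Fin 4) A)
      (P : Type) (_ : Ring P) (_ : StarRing P) (_ : Algebra ℂ P) (_ : StarModule ℂ P)
      (w : Matrix (Fin 4) (Fin 4) P) (j : P →⋆ₐ[ℂ] A) (Δ : P →⋆ₐ[ℂ] P ⊗[ℂ] P),
      IsCMQG u ∧ IsPol u w j ∧ IsFull j ∧ IsComul Δ w ∧ Connected Δ ∧
      ∃ p ∈ Central j Δ, p ≠ 0 ∧
        ∀ Q : Matrix.unitaryGroup (Fin 4) ℂ, torusMap u Q p = 0 := by
  obtain ⟨R, _, _, _, _, ev, v, h⟩ := exists_funAlg vq vq_inv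
  choose α hα hα' using fun g => h.exists_conj (cF g)
  obtain ⟨𝒜, _, _, _, _, m, L, B₀, _, lam, hlam, hx⟩ := h.exists_model cF α hα
  obtain ⟨Δ, ε, S, D, hD, hΔ1, hΔ2, hv, hq⟩ := h.exists_hopf cF hα hx FreeGroup.of
    (FreeGroup.closure_range_of _)
  let e : Fin 4 ≃ Fin 2 ⊕ Fin 2 := (finSumFinEquiv (m := 2) (n := 2)).symm
  obtain ⟨A, _, U, j, h1, h2, h3⟩ := package' (hq.reindex e) lam hlam
  refine ⟨A, inferInstance, U, 𝒜, inferInstance, inferInstance, inferInstance, inferInstance, _, j,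
    Δ, h1, h2, h3, (hq.reindex e).hΔ, h.connected vq_cont cF hα hx hD hΔ1 hΔ2,
    j (m (v.trace * v.trace - (4 : ℂ) • 1)), ?_, ?_, ?_⟩
  · refine subset_closure ?_
    have k1 : m (v.trace * v.trace - (4 : ℂ) • 1) ∈
        Submodule.span ℂ {a | ∃ r : Irrep Δ, a = ∑ i, r.mat i i} := by
      have a1 := (hv.tpow 2).trace_mem
      have a2 := (isCorep_one (Δ := Δ)).trace_mem
      rw [trace_tpow_two] at a1
      have a3 : (v.map m).trace = m v.trace := by
        simp [Matrix.trace, map_sum]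
      have a4 : (1 : Matrix Unit Unit 𝒜).trace = 1 := by simp
      rw [a3] at a1
      rw [a4] at a2
      rw [map_sub, map_mul, map_smul, map_one]
      exact sub_mem a1 (Submodule.smul_mem _ _ a2)
    have k2 := Submodule.mem_map_of_mem (f := j.toAlgHom.toLinearMap) k1
    rw [Submodule.map_span] at k2
    refine Submodule.span_mono ?_ k2
    rintro _ ⟨_, ⟨r, rfl⟩, rfl⟩
    exact ⟨r, rfl⟩
  · intro h0
    rw [← map_zero j, ← map_zero m] at h0
    have h4 := congrArg (fun a => ev a q2) (hx.m_injective (h2.1 h0))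
    simp only [Matrix.trace, Matrix.diag_apply, Fin.sum_univ_two, map_sub, map_mul, map_add,
      map_smul, map_one, map_zero, Pi.sub_apply, Pi.mul_apply, Pi.add_apply, Pi.smul_apply,
      Pi.one_apply, Pi.zero_apply, h.val] at h4
    have h5 : vq q2 0 0 + vq q2 1 1 = 0 := by
      apply Complex.ext <;> simp [vq, qm, q2]
    rw [h5] at h4
    norm_num at h4
  · intro Q
    refine torus_kills h hα' hx e Q ((torusMap U Q).comp j.toAlgHom) fun a b hab => ?_
    have h4 : (sc 𝒜 (Q : Matrix (Fin 4) (Fin 4) ℂ) * (cmat v m L FreeGroup.of).submatrix e e *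
        sc 𝒜 (star (Q : Matrix (Fin 4) (Fin 4) ℂ))).map j.toAlgHom = spun U Q := by
      rw [map_mul_alg, map_mul_alg, map_sc, map_sc, ← h2.2.2]
      rfl
    have h5 := congrFun (congrFun h4 a) b
    rw [Matrix.map_apply] at h5
    rw [AlgHom.comp_apply, h5, torusMap_offdiag Q a b hab]

end Pool.Agent.H287Z.QG
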